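import Mathlib

set_option autoImplicit false
open Finset

namespace Pool.Agent.Helper145.Hyp

/-- the finite group -/
abbrev X (d L : ℕ) : Type := Fin d → ZMod (2 ^ L)

/-- one-dimensional standard character -/
noncomputable def ps (L : ℕ) (k : ℤ) (a : ZMod (2 ^ L)) : ℂ := ZMod.stdAddChar ((k : ZMod (2 ^ L)) * a)

/-- multi-dimensional character -/
noncomputable def chi {d L : ℕ} (k : Fin d → ℤ) (x : X d L) : ℂ := ∏ j, ps L (k j) (x j)

lemma ps_add {L : ℕ} (k : ℤ) (a b : ZMod (2 ^ L)) : ps L k (a + b) = ps L k a * ps L k b := by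
  unfold ps; rw [mul_add, AddChar.map_add_eq_mul]

lemma ps_norm {L : ℕ} (k : ℤ) (a : ZMod (2 ^ L)) : ‖ps L k a‖ = 1 := by
  unfold ps; exact AddChar.norm_apply _ _

lemma chi_add {d L : ℕ} (k : Fin d → ℤ) (x y : X d L) : chi k (x + y) = chi k x * chi k y := by
  unfold chi; rw [← Finset.prod_mul_distrib]; exact Finset.prod_congr rfl (fun j _ => ps_add _ _ _)

lemma chi_norm {d L : ℕ} (k : Fin d → ℤ) (x : X d L) : ‖chi k x‖ = 1 := by
  unfold chi; rw [norm_prod]; exact Finset.prod_eq_one (fun j _ => ps_norm _ _)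

lemma ps_orth {L : ℕ} (k l : ℤ) :
    ∑ a : ZMod (2 ^ L), ps L k a * (starRingEnd ℂ) (ps L l a)
      = if ((k - l : ℤ) : ZMod (2 ^ L)) = 0 then (2 ^ L : ℂ) else 0 := by
  have h1 : ∀ a : ZMod (2 ^ L), ps L k a * (starRingEnd ℂ) (ps L l a)
      = ZMod.stdAddChar (a * ((k - l : ℤ) : ZMod (2 ^ L))) := by
    intro a
    unfold ps
    rw [← AddChar.map_neg_eq_conj, ← AddChar.map_add_eq_mul]
    congr 1; push_cast; ring
  simp_rw [h1]
  rw [AddChar.sum_mulShift _ (ZMod.isPrimitive_stdAddChar _)]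
  simp

lemma ps_orth' {L : ℕ} {k l : ℤ} (hk : 2 * k.natAbs < 2 ^ L) (hl : 2 * l.natAbs < 2 ^ L) :
    ∑ a : ZMod (2 ^ L), ps L k a * (starRingEnd ℂ) (ps L l a)
      = if k = l then (2 ^ L : ℂ) else 0 := by
  rw [ps_orth]
  congr 1
  rw [ZMod.intCast_zmod_eq_zero_iff_dvd, eq_iff_iff]
  constructor
  · intro h
    have h2 : (k - l).natAbs < 2 ^ L := by
      have := Int.natAbs_sub_le k l
      omega
    have h3 := Int.eq_zero_of_abs_lt_dvd h (by
      have : |k - l| = ((k - l).natAbs : ℤ) := Int.abs_eq_natAbs _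
      rw [this]; exact_mod_cast h2)
    omega
  · intro h; rw [h]; simp

lemma chi_orth {d L : ℕ} {k l : Fin d → ℤ} (hk : ∀ j, 2 * (k j).natAbs < 2 ^ L)
    (hl : ∀ j, 2 * (l j).natAbs < 2 ^ L) :
    ∑ x : X d L, chi k x * (starRingEnd ℂ) (chi l x) = if k = l then ((2 ^ L : ℂ)) ^ d else 0 := by
  unfold chi
  simp_rw [map_prod, ← Finset.prod_mul_distrib]
  have h := (Finset.prod_univ_sum (fun _ : Fin d => (Finset.univ : Finset (ZMod (2 ^ L))))
    (fun j a => ps L (k j) a * (starRingEnd ℂ) (ps L (l j) a))).symm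
  rw [Fintype.piFinset_univ] at h
  rw [h]
  simp_rw [ps_orth' (hk _) (hl _)]
  by_cases hkl : k = l
  · subst hkl; simp
  · rw [if_neg hkl]
    obtain ⟨j, hj⟩ := Function.ne_iff.mp hkl
    exact Finset.prod_eq_zero (Finset.mem_univ j) (if_neg hj)

/-- trigonometric polynomial with frequency set `S` and coefficients `c` -/
noncomputable def pol {d L : ℕ} (S : Finset (Fin d → ℤ)) (c : (Fin d → ℤ) → ℂ) (x : X d L) : ℂ :=
  ∑ k ∈ S, c k * chi k x

lemma parseval {d L : ℕ} {S : Finset (Fin d → ℤ)} (hS : ∀ k ∈ S, ∀ j, 2 * (k j).natAbs < 2 ^ L)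
    (c : (Fin d → ℤ) → ℂ) :
    ∑ x : X d L, ‖pol S c x‖ ^ 2 = (2 ^ L : ℝ) ^ d * ∑ k ∈ S, ‖c k‖ ^ 2 := by
  have h1 : ∀ x : X d L, ((‖pol S c x‖ ^ 2 : ℝ) : ℂ)
      = ∑ k ∈ S, ∑ l ∈ S, (c k * (starRingEnd ℂ) (c l)) * (chi k x * (starRingEnd ℂ) (chi l x)) := by
    intro x
    push_cast
    rw [← Complex.mul_conj', pol, map_sum, Finset.sum_mul_sum]
    refine Finset.sum_congr rfl (fun k _ => Finset.sum_congr rfl (fun l _ => ?_))
    rw [map_mul]; ring
  have h2 : ((∑ x : X d L, ‖pol S c x‖ ^ 2 : ℝ) : ℂ) = (((2 ^ L : ℝ) ^ d * ∑ k ∈ S, ‖c k‖ ^ 2 : ℝ) : ℂ) := by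
    rw [Complex.ofReal_sum]
    simp_rw [h1]
    rw [Finset.sum_comm]
    have h3 : ∀ k ∈ S, ∑ x : X d L, ∑ l ∈ S, (c k * (starRingEnd ℂ) (c l)) * (chi k x * (starRingEnd ℂ) (chi l x))
        = (2 ^ L : ℂ) ^ d * ((‖c k‖ ^ 2 : ℝ) : ℂ) := by
      intro k hk
      rw [Finset.sum_comm]
      simp_rw [← Finset.mul_sum]
      rw [Finset.sum_eq_single k]
      · rw [chi_orth (hS k hk) (hS k hk), if_pos rfl, Complex.mul_conj']
        push_cast; ring
      · intro l hl hlk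
        rw [chi_orth (hS k hk) (hS l hl), if_neg (Ne.symm hlk), mul_zero]
      · intro h; exact absurd hk h
    rw [Finset.sum_congr rfl h3, ← Finset.mul_sum]
    push_cast
    rfl
  exact_mod_cast h2

end Pool.Agent.Helper145.Hyp
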