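import Pool.Agent.Helper145.Hyp1

set_option autoImplicit false
open Finset

namespace Pool.Agent.Helper145.Hyp

section L2
variable {ι : Type*} [Fintype ι]

/-- unnormalised l2 norm -/
noncomputable def l2 (f : ι → ℂ) : ℝ := Real.sqrt (∑ x, ‖f x‖ ^ 2)

lemma l2_eq (f : ι → ℂ) : l2 f = ‖(WithLp.toLp 2 f : EuclideanSpace ℂ ι)‖ := by
  rw [EuclideanSpace.norm_eq]; rfl

lemma l2_nonneg (f : ι → ℂ) : 0 ≤ l2 f := Real.sqrt_nonneg _

lemma l2_sq (f : ι → ℂ) : l2 f ^ 2 = ∑ x, ‖f x‖ ^ 2 :=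
  Real.sq_sqrt (Finset.sum_nonneg (fun _ _ => by positivity))

lemma l2_sum_le {κ : Type*} (s : Finset κ) (f : κ → ι → ℂ) :
    l2 (fun x => ∑ i ∈ s, f i x) ≤ ∑ i ∈ s, l2 (f i) := by
  rw [l2_eq]
  simp_rw [l2_eq]
  have : (WithLp.toLp 2 (fun x => ∑ i ∈ s, f i x) : EuclideanSpace ℂ ι)
      = ∑ i ∈ s, (WithLp.toLp 2 (f i) : EuclideanSpace ℂ ι) := by
    ext x; simp
  rw [this]
  exact norm_sum_le _ _

lemma l2_add_le (f g : ι → ℂ) : l2 (fun x => f x + g x) ≤ l2 f + l2 g := by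
  rw [l2_eq, l2_eq, l2_eq]
  have : (WithLp.toLp 2 (fun x => f x + g x) : EuclideanSpace ℂ ι)
      = (WithLp.toLp 2 f : EuclideanSpace ℂ ι) + (WithLp.toLp 2 g : EuclideanSpace ℂ ι) := by
    ext x; simp
  rw [this]
  exact norm_add_le _ _

lemma l2_mono {f g : ι → ℂ} (h : ∀ x, ‖f x‖ ≤ ‖g x‖) : l2 f ≤ l2 g := by
  unfold l2
  apply Real.sqrt_le_sqrt
  exact Finset.sum_le_sum (fun x _ => by have := h x; gcongr)

lemma l2_smul (a : ℝ) (ha : 0 ≤ a) (f : ι → ℂ) : l2 (fun x => (a : ℂ) * f x) = a * l2 f := by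
  unfold l2
  simp_rw [norm_mul, mul_pow]
  rw [← Finset.mul_sum, Real.sqrt_mul (by positivity), Real.sqrt_sq (norm_nonneg _)]
  simp [abs_of_nonneg ha]

lemma l2_comp_equiv (e : ι ≃ ι) (f : ι → ℂ) : l2 (fun x => f (e x)) = l2 f := by
  unfold l2
  congr 1
  exact Fintype.sum_equiv e _ _ (fun _ => rfl)

end L2

/-! ### Difference operators -/

/-- step sizes -/
def hs (L : ℕ) (s : ℕ) : ℕ := 2 ^ (L - s - 1)

/-- the shift vector -/
def sh {d : ℕ} (L : ℕ) (s : Fin d → ℕ) (J : Finset (Fin d)) : X d L :=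
  fun j => if j ∈ J then ((hs L (s j) : ℕ) : ZMod (2 ^ L)) else 0

/-- sign of a subset -/
noncomputable def sg {d : ℕ} (s : Fin d → ℕ) (J : Finset (Fin d)) : ℂ :=
  ∏ j ∈ J, (if s j = 0 then 0 else (-1 : ℂ))

lemma sg_norm {d : ℕ} (s : Fin d → ℕ) (J : Finset (Fin d)) : ‖sg s J‖ ≤ 1 := by
  unfold sg
  rw [norm_prod]
  apply Finset.prod_le_one
  · intro j _; exact norm_nonneg _
  · intro j _; split_ifs <;> simp

/-- mixed difference operator -/
noncomputable def Dif {d L : ℕ} (s : Fin d → ℕ) (f : X d L → ℂ) (x : X d L) : ℂ :=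
  ∑ J ∈ (Finset.univ : Finset (Fin d)).powerset, sg s J * f (x + sh L s J)

/-- the multiplier of the difference operator -/
noncomputable def mul {d : ℕ} (L : ℕ) (s : Fin d → ℕ) (k : Fin d → ℤ) : ℂ :=
  ∏ j, (1 + (if s j = 0 then 0 else (-1 : ℂ)) * ps L (k j) ((hs L (s j) : ℕ) : ZMod (2 ^ L)))

lemma ps_zero_right {L : ℕ} (k : ℤ) : ps L k 0 = 1 := by
  unfold ps; simp

lemma Dif_chi {d L : ℕ} (s : Fin d → ℕ) (k : Fin d → ℤ) (x : X d L) :
    Dif s (chi k) x = mul L s k * chi k x := by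
  unfold Dif mul
  rw [Finset.prod_one_add, Finset.sum_mul]
  refine Finset.sum_congr rfl (fun J _ => ?_)
  rw [chi_add, Finset.prod_mul_distrib, sg]
  have : chi k (sh L s J) = ∏ j ∈ J, ps L (k j) ((hs L (s j) : ℕ) : ZMod (2 ^ L)) := by
    unfold chi sh
    rw [← Finset.prod_subset (Finset.subset_univ J)]
    · exact Finset.prod_congr rfl (fun j hj => by rw [if_pos hj])
    · intro j _ hj
      rw [if_neg hj, ps_zero_right]
  rw [this]; ring

lemma Dif_pol {d L : ℕ} (s : Fin d → ℕ) (S : Finset (Fin d → ℤ)) (c : (Fin d → ℤ) → ℂ) (x : X d L) :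
    Dif s (pol S c) x = pol S (fun k => c k * mul L s k) x := by
  have h1 : Dif s (pol S c) x = ∑ k ∈ S, c k * Dif s (chi k) x := by
    unfold Dif pol
    simp_rw [Finset.mul_sum]
    rw [Finset.sum_comm]
    refine Finset.sum_congr rfl (fun k _ => Finset.sum_congr rfl (fun J _ => ?_))
    ring
  rw [h1, pol]
  exact Finset.sum_congr rfl (fun k _ => by rw [Dif_chi]; ring)

lemma ps_eq_exp {L : ℕ} (k : ℤ) (a : ℕ) :
    ps L k ((a : ℕ) : ZMod (2 ^ L)) = Complex.exp (Complex.I * ((2 * Real.pi * k * a / 2 ^ L : ℝ) : ℂ)) := by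
  unfold ps
  have : (k : ZMod (2 ^ L)) * ((a : ℕ) : ZMod (2 ^ L)) = ((k * a : ℤ) : ZMod (2 ^ L)) := by push_cast; ring
  rw [this, ZMod.stdAddChar_coe]
  congr 1
  push_cast
  ring

lemma hs_real {L s : ℕ} (h : s + 1 ≤ L) : ((hs L s : ℕ) : ℝ) / 2 ^ L = 1 / 2 ^ (s + 1) := by
  unfold hs
  rw [div_eq_div_iff (by positivity) (by positivity)]
  push_cast
  rw [one_mul, ← pow_add]
  congr 1; omega

lemma ps_hs {L s : ℕ} (h : s + 1 ≤ L) (k : ℤ) :
    ps L k ((hs L s : ℕ) : ZMod (2 ^ L)) = Complex.exp (Complex.I * ((Real.pi * k / 2 ^ s : ℝ) : ℂ)) := by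
  rw [ps_eq_exp]
  congr 3
  have h1 := hs_real h
  have h2 : 2 * Real.pi * k * ((hs L s : ℕ) : ℝ) / 2 ^ L = 2 * Real.pi * k * (((hs L s : ℕ) : ℝ) / 2 ^ L) := by ring
  rw [h2, h1, pow_succ]
  field_simp

/-- one factor of the multiplier: lower bound on its own block -/
lemma factor_lower {L s : ℕ} (h : s + 1 ≤ L) {k : ℤ} (hk : Nat.size k.natAbs = s) :
    1 ≤ ‖1 + (if s = 0 then 0 else (-1 : ℂ)) * ps L k ((hs L s : ℕ) : ZMod (2 ^ L))‖ := by
  by_cases hs0 : s = 0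
  · simp [hs0]
  · rw [if_neg hs0, ps_hs h]
    set y : ℝ := Real.pi * k / 2 ^ s with hy
    have e1 : (1 : ℂ) + -1 * Complex.exp (Complex.I * (y : ℂ)) = -(Complex.exp (Complex.I * (y : ℂ)) - 1) := by ring
    rw [e1, norm_neg, Complex.norm_exp_I_mul_ofReal_sub_one]
    have hk1 : 2 ^ (s - 1) ≤ k.natAbs := by
      rw [← Nat.lt_size]; omega
    have hk2 : k.natAbs < 2 ^ s := by
      rw [← hk]; exact Nat.lt_size_self _
    have hab : |(k : ℝ)| = (k.natAbs : ℝ) := by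
      rw [← Int.cast_abs, Int.abs_eq_natAbs]; simp
    have hk1' : (2:ℝ) ^ (s - 1) ≤ |(k : ℝ)| := by rw [hab]; exact_mod_cast hk1
    have hk2' : |(k : ℝ)| ≤ 2 ^ s := by rw [hab]; exact_mod_cast hk2.le
    have hp : (2:ℝ) ^ s = 2 * 2 ^ (s - 1) := by
      rw [← pow_succ']; congr 1; omega
    have habs : |y / 2| = Real.pi * |(k:ℝ)| / 2 ^ s / 2 := by
      rw [hy, abs_div, abs_div, abs_mul, abs_of_pos Real.pi_pos, abs_of_pos (show (0:ℝ) < 2 ^ s by positivity),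
        abs_of_pos (show (0:ℝ) < 2 by norm_num)]
    have hlow : Real.pi / 6 ≤ |y / 2| := by
      rw [habs, le_div_iff₀ (by norm_num), le_div_iff₀ (by positivity), hp]
      have := Real.pi_pos
      nlinarith [pow_pos (show (0:ℝ) < 2 by norm_num) (s-1)]
    have hup : |y / 2| ≤ Real.pi / 2 := by
      rw [habs, div_le_div_iff_of_pos_right (by norm_num), div_le_iff₀ (by positivity)]
      have := Real.pi_pos
      gcongr
    have hsin : 1 / 2 ≤ Real.sin |y / 2| := by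
      rw [← Real.sin_pi_div_six]
      apply Real.sin_le_sin_of_le_of_le_pi_div_two _ hup hlow
      have := Real.pi_pos
      linarith
    have h3 : ‖(2 * Real.sin (y / 2) : ℝ)‖ = 2 * |Real.sin (y / 2)| := by
      rw [Real.norm_eq_abs, abs_mul]; norm_num
    rw [h3]
    have h4 : |Real.sin (y / 2)| = |Real.sin (|y / 2|)| := by
      rcases abs_cases (y / 2) with ⟨h, _⟩ | ⟨h, _⟩
      · rw [h]
      · rw [h, Real.sin_neg, abs_neg]
    rw [h4]
    have := le_abs_self (Real.sin (|y / 2|))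
    linarith

/-- one factor of the multiplier: upper bound on the block `s'` -/
lemma factor_upper {L s s' : ℕ} (h : s + 1 ≤ L) {k : ℤ} (hk : Nat.size k.natAbs = s') :
    ‖1 + (if s = 0 then 0 else (-1 : ℂ)) * ps L k ((hs L s : ℕ) : ZMod (2 ^ L))‖ ≤ 4 * (1 / 2) ^ (s - s') := by
  have htriv : ‖1 + (if s = 0 then 0 else (-1 : ℂ)) * ps L k ((hs L s : ℕ) : ZMod (2 ^ L))‖ ≤ 2 := by
    refine (norm_add_le _ _).trans ?_
    rw [norm_mul, ps_norm, mul_one, norm_one]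
    split_ifs <;> norm_num
  by_cases hss : s ≤ s'
  · have : s - s' = 0 := by omega
    rw [this]; exact htriv.trans (by norm_num)
  · have hs0 : s ≠ 0 := by omega
    rw [if_neg hs0, ps_hs h]
    set y : ℝ := Real.pi * k / 2 ^ s with hy
    have e1 : (1 : ℂ) + -1 * Complex.exp (Complex.I * (y : ℂ)) = -(Complex.exp (Complex.I * (y : ℂ)) - 1) := by ring
    rw [e1, norm_neg]
    refine Real.norm_exp_I_mul_ofReal_sub_one_le.trans ?_
    have hk2 : k.natAbs < 2 ^ s' := by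
      rw [← hk]; exact Nat.lt_size_self _
    have hab : |(k : ℝ)| = (k.natAbs : ℝ) := by
      rw [← Int.cast_abs, Int.abs_eq_natAbs]; simp
    have hk2' : |(k : ℝ)| ≤ 2 ^ s' := by rw [hab]; exact_mod_cast hk2.le
    rw [Real.norm_eq_abs, hy, abs_div, abs_mul, abs_of_pos Real.pi_pos,
      abs_of_pos (show (0:ℝ) < 2 ^ s by positivity), div_le_iff₀ (by positivity)]
    have hp : (2:ℝ) ^ s = 2 ^ (s - s') * 2 ^ s' := by rw [← pow_add]; congr 1; omega
    rw [hp]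
    have h5 : 4 * (1 / 2 : ℝ) ^ (s - s') * (2 ^ (s - s') * 2 ^ s') = 4 * 2 ^ s' := by
      rw [one_div, inv_pow]; field_simp
    rw [h5]
    have := Real.pi_le_four
    have := Real.pi_pos
    nlinarith [abs_nonneg (k : ℝ)]

lemma mul_lower {d L : ℕ} {s : Fin d → ℕ} (h : ∀ j, s j + 1 ≤ L) {k : Fin d → ℤ}
    (hk : ∀ j, Nat.size (k j).natAbs = s j) : 1 ≤ ‖mul L s k‖ := by
  unfold mul
  rw [norm_prod]
  calc (1:ℝ) = ∏ _j : Fin d, (1:ℝ) := by simp
    _ ≤ _ := Finset.prod_le_prod (fun _ _ => by norm_num) (fun j _ => factor_lower (h j) (hk j))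

lemma mul_upper {d L : ℕ} {s s' : Fin d → ℕ} (h : ∀ j, s j + 1 ≤ L) {k : Fin d → ℤ}
    (hk : ∀ j, Nat.size (k j).natAbs = s' j) : ‖mul L s k‖ ≤ 4 ^ d * (1 / 2) ^ (∑ j, (s j - s' j)) := by
  unfold mul
  rw [norm_prod]
  calc _ ≤ ∏ j : Fin d, (4 * (1 / 2 : ℝ) ^ (s j - s' j)) :=
        Finset.prod_le_prod (fun _ _ => norm_nonneg _) (fun j _ => factor_upper (h j) (hk j))
    _ = _ := by rw [Finset.prod_mul_distrib, Finset.prod_pow_eq_pow_sum]; simp

end Pool.Agent.Helper145.Hyp
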