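import Pool.Agent.Helper145.Hyp2

set_option autoImplicit false
open Finset

namespace Pool.Agent.Helper145.Hyp

/-! ### constants -/

/-- fourth root of one half -/
noncomputable def al : ℝ := Real.sqrt (Real.sqrt (1 / 2))

lemma al_pos : 0 < al := by unfold al; positivity

lemma al_pow4 : al ^ 4 = 1 / 2 := by
  unfold al
  have h1 : Real.sqrt (Real.sqrt (1 / 2)) ^ 2 = Real.sqrt (1 / 2) := Real.sq_sqrt (Real.sqrt_nonneg _)
  have h2 : Real.sqrt (1 / 2 : ℝ) ^ 2 = 1 / 2 := Real.sq_sqrt (by norm_num)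
  calc Real.sqrt (Real.sqrt (1 / 2)) ^ 4 = (Real.sqrt (Real.sqrt (1 / 2)) ^ 2) ^ 2 := by ring
    _ = 1 / 2 := by rw [h1, h2]

lemma al_lt_one : al < 1 := by
  by_contra h
  rw [not_lt] at h
  have : (1:ℝ) ≤ al ^ 4 := one_le_pow₀ h
  rw [al_pow4] at this
  norm_num at this

/-- bound for two-sided geometric sums -/
noncomputable def K1 : ℝ := 2 / (1 - al)

lemma K1_pos : 0 < K1 := by
  unfold K1; have := al_lt_one; apply div_pos (by norm_num); linarith

lemma geom_le (n : ℕ) : ∑ i ∈ Finset.range n, al ^ i ≤ 1 / (1 - al) := by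
  have h := al_lt_one
  have h0 := al_pos
  have h1 : Summable (fun i : ℕ => al ^ i) := summable_geometric_of_lt_one h0.le h
  have h2 := h1.sum_le_tsum (Finset.range n) (fun i _ => by positivity)
  rw [tsum_geometric_of_lt_one h0.le h] at h2
  rw [one_div]; exact h2

lemma two_sided (a B : ℕ) : ∑ i ∈ Finset.range B, al ^ ((a - i) + (i - a)) ≤ K1 := by
  have h0 := al_pos
  have h1 := al_lt_one
  have h2 : ∑ i ∈ Finset.range B, al ^ ((a - i) + (i - a))
      ≤ ∑ i ∈ Finset.range (a + B), al ^ ((a - i) + (i - a)) := by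
    apply Finset.sum_le_sum_of_subset_of_nonneg
    · intro i hi; simp only [Finset.mem_range] at hi ⊢; omega
    · intro i _ _; positivity
  refine h2.trans ?_
  rw [Finset.sum_range_add]
  have h3 : ∑ x ∈ Finset.range a, al ^ ((a - x) + (x - a)) ≤ 1 / (1 - al) := by
    rw [← Finset.sum_range_reflect]
    refine le_trans ?_ (geom_le a)
    apply Finset.sum_le_sum
    intro i hi
    rw [Finset.mem_range] at hi
    apply pow_le_pow_of_le_one h0.le h1.le
    omega
  have h4 : ∑ x ∈ Finset.range B, al ^ ((a - (a + x)) + ((a + x) - a)) ≤ 1 / (1 - al) := by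
    refine le_trans (le_of_eq ?_) (geom_le B)
    apply Finset.sum_congr rfl
    intro i _
    congr 1; omega
  unfold K1
  have : (2:ℝ) / (1 - al) = 1 / (1 - al) + 1 / (1 - al) := by ring
  rw [this]
  exact add_le_add h3 h4

/-- l1 distance of scale vectors -/
def dst {d : ℕ} (s t : Fin d → ℕ) : ℕ := ∑ j, ((s j - t j) + (t j - s j))

lemma sum_dst_le {d : ℕ} (B : ℕ) (T : Finset (Fin d → ℕ)) (hT : ∀ t ∈ T, ∀ j, t j < B) (s : Fin d → ℕ) :
    ∑ t ∈ T, al ^ (dst s t) ≤ K1 ^ d := by
  have h0 := al_pos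
  have h1 : T ⊆ Fintype.piFinset (fun _ : Fin d => Finset.range B) := by
    intro t ht
    rw [Fintype.mem_piFinset]
    intro j; rw [Finset.mem_range]; exact hT t ht j
  calc ∑ t ∈ T, al ^ (dst s t) ≤ ∑ t ∈ Fintype.piFinset (fun _ : Fin d => Finset.range B), al ^ (dst s t) :=
        Finset.sum_le_sum_of_subset_of_nonneg h1 (fun _ _ _ => by positivity)
    _ = ∑ t ∈ Fintype.piFinset (fun _ : Fin d => Finset.range B), ∏ j, al ^ ((s j - t j) + (t j - s j)) := by
        apply Finset.sum_congr rfl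
        intro t _
        rw [dst, Finset.prod_pow_eq_pow_sum]
    _ = ∏ j : Fin d, ∑ i ∈ Finset.range B, al ^ ((s j - i) + (i - s j)) := by
        rw [Finset.prod_univ_sum]
    _ ≤ ∏ _j : Fin d, K1 := Finset.prod_le_prod (fun _ _ => Finset.sum_nonneg (fun _ _ => by positivity))
        (fun j _ => two_sided (s j) B)
    _ = K1 ^ d := by simp

/-! ### cells -/

/-- index of the dyadic cell of scale `s` containing `x` -/
def cell {d L : ℕ} (s : Fin d → ℕ) (x : X d L) : Fin d → ℕ := fun j => (x j).val / 2 ^ (L - s j)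

/-- size of the cells of scale `s` -/
def csz {d : ℕ} (L : ℕ) (s : Fin d → ℕ) : ℕ := ∏ j, 2 ^ (L - s j)

lemma cell1_card {L : ℕ} (m c : ℕ) :
    (Finset.univ.filter (fun a : ZMod (2 ^ L) => a.val / 2 ^ m = c)).card ≤ 2 ^ m := by
  have h : (Finset.univ.filter (fun a : ZMod (2 ^ L) => a.val / 2 ^ m = c)).card
      ≤ (Finset.Ico (c * 2 ^ m) ((c + 1) * 2 ^ m)).card := by
    apply Finset.card_le_card_of_injOn (fun a => a.val)
    · intro a ha
      simp only [Finset.coe_filter, Finset.mem_univ, true_and, Set.mem_ofPred_eq] at ha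
      simp only [Finset.coe_Ico, Set.mem_Ico]
      rw [Nat.div_eq_iff (by positivity)] at ha
      constructor
      · exact ha.1
      · have : 0 < 2 ^ m := by positivity
        rw [add_mul, one_mul]; omega
    · intro a _ b _ hab
      exact ZMod.val_injective _ hab
  refine h.trans (le_of_eq ?_)
  rw [Nat.card_Ico, add_mul, one_mul, Nat.add_sub_cancel_left]

lemma cell_inter {d L : ℕ} (s s' : Fin d → ℕ) (c c' : Fin d → ℕ) :
    (Finset.univ.filter (fun x : X d L => cell s x = c ∧ cell s' x = c')).card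
      ≤ ∏ j, 2 ^ (L - max (s j) (s' j)) := by
  have h1 : (Finset.univ.filter (fun x : X d L => cell s x = c ∧ cell s' x = c'))
      ⊆ Fintype.piFinset (fun j => Finset.univ.filter (fun a : ZMod (2 ^ L) =>
        a.val / 2 ^ (L - max (s j) (s' j)) = (if s j ≤ s' j then c' j else c j))) := by
    intro x hx
    simp only [Finset.mem_filter, Finset.mem_univ, true_and] at hx
    rw [Fintype.mem_piFinset]
    intro j
    simp only [Finset.mem_filter, Finset.mem_univ, true_and]
    split_ifs with h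
    · rw [max_eq_right h]; exact congrFun hx.2 j
    · rw [max_eq_left (by omega)]; exact congrFun hx.1 j
  refine (Finset.card_le_card h1).trans ?_
  rw [Fintype.card_piFinset]
  exact Finset.prod_le_prod (fun _ _ => Nat.zero_le _) (fun j _ => cell1_card _ _)

lemma cell_card {d L : ℕ} (s : Fin d → ℕ) (c : Fin d → ℕ) :
    (Finset.univ.filter (fun x : X d L => cell s x = c)).card ≤ csz L s := by
  have h := cell_inter (L := L) s s c c
  simp only [and_self, max_self] at h
  exact h


/-- cells in which `E` has density more than `η` -/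
noncomputable def dense {d L : ℕ} (η : ℝ) (s : Fin d → ℕ) (E : Finset (X d L)) : Finset (Fin d → ℕ) :=
  (E.image (cell s)).filter (fun c => η * (csz L s : ℝ) < ((E.filter (fun x => cell s x = c)).card : ℝ))

/-- points in dense cells -/
noncomputable def Fs {d L : ℕ} (η : ℝ) (s : Fin d → ℕ) (E : Finset (X d L)) : Finset (X d L) :=
  Finset.univ.filter (fun x => cell s x ∈ dense η s E)

lemma Fs_card_le {d L : ℕ} (η : ℝ) (s : Fin d → ℕ) (E : Finset (X d L)) :
    (Fs η s E).card ≤ (dense η s E).card * csz L s := by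
  rw [mul_comm]
  apply Finset.card_le_mul_card_image_of_maps_to (f := cell s)
  · intro x hx
    simp only [Fs, Finset.mem_filter, Finset.mem_univ, true_and] at hx
    exact hx
  · intro c _
    refine (Finset.card_le_card ?_).trans (cell_card (L := L) s c)
    intro x hx
    simp only [Finset.mem_filter, Finset.mem_univ, true_and] at hx ⊢
    exact hx.2

lemma Fs_inter_card_le {d L : ℕ} (η : ℝ) (s s' : Fin d → ℕ) (E : Finset (X d L)) :
    (Fs η s E ∩ Fs η s' E).card
      ≤ ((dense η s E).card * (dense η s' E).card) * ∏ j, 2 ^ (L - max (s j) (s' j)) := by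
  have h := Finset.card_le_mul_card_image_of_maps_to (s := Fs η s E ∩ Fs η s' E)
    (t := dense η s E ×ˢ dense η s' E) (f := fun x => (cell s x, cell s' x))
    (fun x hx => by
      simp only [Fs, Finset.mem_inter, Finset.mem_filter, Finset.mem_univ, true_and] at hx
      exact Finset.mem_product.mpr hx)
    (∏ j, 2 ^ (L - max (s j) (s' j)))
    (fun c _ => by
      refine (Finset.card_le_card ?_).trans (cell_inter (L := L) s s' c.1 c.2)
      intro x hx
      simp only [Finset.mem_filter, Finset.mem_univ, true_and] at hx ⊢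
      exact ⟨congrArg Prod.fst hx.2, congrArg Prod.snd hx.2⟩)
  rw [Finset.card_product] at h
  rw [mul_comm]
  exact h

lemma Fs_E_card_ge {d L : ℕ} (η : ℝ) (s : Fin d → ℕ) (E : Finset (X d L)) :
    ((dense η s E).card : ℝ) * (η * csz L s) ≤ ((E.filter (fun x => x ∈ Fs η s E)).card : ℝ) := by
  have h1 : (E.filter (fun x => x ∈ Fs η s E)).card
      = ∑ c ∈ dense η s E, (E.filter (fun x => cell s x = c)).card := by
    rw [Finset.card_eq_sum_card_fiberwise (f := cell s) (t := dense η s E)]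
    · apply Finset.sum_congr rfl
      intro c hc
      congr 1
      ext x
      simp only [Fs, Finset.mem_filter, Finset.mem_univ, true_and]
      constructor
      · rintro ⟨⟨h1, _⟩, h3⟩; exact ⟨h1, h3⟩
      · rintro ⟨h1, h3⟩; exact ⟨⟨h1, by rw [h3]; exact hc⟩, h3⟩
    · intro x hx
      simp only [Fs, Finset.coe_filter, Finset.mem_filter, Finset.mem_univ, true_and,
        Set.mem_ofPred_eq] at hx
      exact hx.2
  rw [h1]
  push_cast
  rw [← nsmul_eq_mul, ← Finset.sum_const]
  apply Finset.sum_le_sum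
  intro c hc
  simp only [dense, Finset.mem_filter] at hc
  exact hc.2.le

lemma max_prod {d L : ℕ} {s s' : Fin d → ℕ} (hs : ∀ j, s j ≤ L) (hs' : ∀ j, s' j ≤ L) :
    (∏ j, 2 ^ (L - max (s j) (s' j))) * 2 ^ (∑ j, (s' j - s j)) = csz L s := by
  unfold csz
  rw [← Finset.prod_pow_eq_pow_sum, ← Finset.prod_mul_distrib]
  apply Finset.prod_congr rfl
  intro j _
  rw [← pow_add]
  congr 1
  have := hs j; have := hs' j
  omega

lemma csz_mul {d L : ℕ} {s : Fin d → ℕ} (hs : ∀ j, s j ≤ L) :
    csz L s * 2 ^ (∑ j, s j) = (2 ^ L) ^ d := by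
  unfold csz
  rw [← Finset.prod_pow_eq_pow_sum, ← Finset.prod_mul_distrib]
  have : ∀ j ∈ (Finset.univ : Finset (Fin d)), 2 ^ (L - s j) * 2 ^ s j = 2 ^ L := by
    intro j _; rw [← pow_add]; congr 1; have := hs j; omega
  rw [Finset.prod_congr rfl this]; simp

lemma dst_eq {d : ℕ} {s s' : Fin d → ℕ} (h : ∑ j, s j = ∑ j, s' j) :
    dst s s' = 2 * ∑ j, (s' j - s j) := by
  have h1 : ∑ j, s j + ∑ j, (s' j - s j) = ∑ j, s' j + ∑ j, (s j - s' j) := by
    rw [← Finset.sum_add_distrib, ← Finset.sum_add_distrib]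
    exact Finset.sum_congr rfl (fun j _ => by omega)
  unfold dst
  rw [Finset.sum_add_distrib]
  omega

/-- pairwise bound used in the geometric lemma -/
lemma pair_bound {a q u v δ : ℝ} (ha : 0 ≤ a) (hq : 0 ≤ q) (hu : 0 < u) (hv : 0 < v) (hδ : 0 ≤ δ)
    (h1 : a ≤ q * u ^ 2) (h2 : a ≤ q * v ^ 2) (h3 : a ≤ q * u ^ 2 * v ^ 2 * δ ^ 2) :
    a / (u * v) ≤ q * ((u + v) / 2) * δ := by
  rw [div_le_iff₀ (by positivity)]
  apply le_of_sq_le_sq _ (by positivity)
  have h4 : a ≤ q * ((u + v) / 2) ^ 2 := by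
    rcases le_total u v with h | h
    · refine h1.trans ?_
      have : u ≤ (u + v) / 2 := by linarith
      gcongr
    · refine h2.trans ?_
      have : v ≤ (u + v) / 2 := by linarith
      gcongr
  calc a ^ 2 = a * a := by ring
    _ ≤ (q * ((u + v) / 2) ^ 2) * (q * u ^ 2 * v ^ 2 * δ ^ 2) := by gcongr
    _ = (q * ((u + v) / 2) * δ * (u * v)) ^ 2 := by ring

lemma final_step {η q Z c K V : ℝ} {m : ℕ} (hq : 0 < q) (hZ : 0 ≤ Z) (hc : 0 ≤ c) (hK : 0 ≤ K)
    (hV : V = q * 2 ^ m) (h : (η * q * Z) ^ 2 ≤ c * (q * K * Z)) :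
    Z * (η ^ 2 * V) ≤ K * 2 ^ m * c := by
  rcases hZ.eq_or_lt with h0 | h0
  · rw [← h0, zero_mul]; positivity
  · have h2 : η ^ 2 * q * Z ≤ c * K := by
      have h3 : (η ^ 2 * q * Z) * (q * Z) ≤ (c * K) * (q * Z) := by
        calc (η ^ 2 * q * Z) * (q * Z) = (η * q * Z) ^ 2 := by ring
          _ ≤ _ := h
          _ = _ := by ring
      exact le_of_mul_le_mul_right h3 (by positivity)
    calc Z * (η ^ 2 * V) = (η ^ 2 * q * Z) * 2 ^ m := by rw [hV]; ring
      _ ≤ (c * K) * 2 ^ m := by gcongr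
      _ = _ := by ring

/-- the geometric lemma -/
lemma geo_lemma {d L m : ℕ} {η : ℝ} (hη : 0 < η) (T : Finset (Fin d → ℕ)) (hT1 : ∀ s ∈ T, ∑ j, s j = m)
    (hT2 : ∀ s ∈ T, ∀ j, s j ≤ L) (E : Finset (X d L)) :
    (∑ s ∈ T, Real.sqrt ((dense η s E).card : ℝ)) * (η ^ 2 * (2 ^ L) ^ d) ≤ K1 ^ d * 2 ^ m * (E.card : ℝ) := by
  classical
  set n : (Fin d → ℕ) → ℝ := fun s => ((dense η s E).card : ℝ) with hn
  set Z : ℝ := ∑ s ∈ T, Real.sqrt (n s) with hZ
  set q : ℝ := (2 ^ L) ^ d / 2 ^ m with hq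
  have hqpos : 0 < q := by rw [hq]; positivity
  have hcsz : ∀ s ∈ T, (csz L s : ℝ) = q := by
    intro s hs
    rw [hq, eq_div_iff (by positivity)]
    have := csz_mul (L := L) (hT2 s hs)
    rw [hT1 s hs] at this
    exact_mod_cast this
  set f : (Fin d → ℕ) → X d L → ℝ := fun s x => if x ∈ Fs η s E then (Real.sqrt (n s))⁻¹ else 0 with hf
  have hn0 : ∀ s, 0 ≤ n s := fun s => Nat.cast_nonneg _
  -- lower bound for W
  have hW : η * q * Z ≤ ∑ x ∈ E, ∑ s ∈ T, f s x := by
    rw [Finset.sum_comm, hZ, Finset.mul_sum]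
    apply Finset.sum_le_sum
    intro s hs
    have h1 : ∑ x ∈ E, f s x = ((E.filter (fun x => x ∈ Fs η s E)).card : ℝ) * (Real.sqrt (n s))⁻¹ := by
      rw [hf]; simp only
      rw [← Finset.sum_filter, Finset.sum_const, nsmul_eq_mul]
    rw [h1]
    have h2 := Fs_E_card_ge η s E
    rw [hcsz s hs] at h2
    rcases (hn0 s).eq_or_lt with h0 | h0
    · rw [← h0]; simp
    · have h3 : 0 < Real.sqrt (n s) := Real.sqrt_pos.mpr h0
      rw [← div_eq_mul_inv, le_div_iff₀ h3]
      calc η * q * Real.sqrt (n s) * Real.sqrt (n s) = n s * (η * q) := by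
            rw [mul_assoc, Real.mul_self_sqrt (hn0 s)]; ring
        _ ≤ _ := h2
  -- upper bound for the square
  have hS : ∑ x : X d L, (∑ s ∈ T, f s x) ^ 2 ≤ q * K1 ^ d * Z := by
    have h1 : ∑ x : X d L, (∑ s ∈ T, f s x) ^ 2 = ∑ s ∈ T, ∑ s' ∈ T, ∑ x : X d L, f s x * f s' x := by
      simp_rw [sq, Finset.sum_mul_sum]
      rw [Finset.sum_comm]
      apply Finset.sum_congr rfl; intro s _
      rw [Finset.sum_comm]
    rw [h1]
    have h2 : ∀ s ∈ T, ∀ s' ∈ T, ∑ x : X d L, f s x * f s' x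
        ≤ q * ((Real.sqrt (n s) + Real.sqrt (n s')) / 2) * al ^ (dst s s') := by
      intro s hs s' hs'
      have h3 : ∑ x : X d L, f s x * f s' x
          = ((Fs η s E ∩ Fs η s' E).card : ℝ) / (Real.sqrt (n s) * Real.sqrt (n s')) := by
        have h4 : ∀ x : X d L, f s x * f s' x
            = if x ∈ Fs η s E ∩ Fs η s' E then (Real.sqrt (n s))⁻¹ * (Real.sqrt (n s'))⁻¹ else 0 := by
          intro x
          simp only [hf, Finset.mem_inter]
          by_cases h5 : x ∈ Fs η s E <;> by_cases h6 : x ∈ Fs η s' E <;> simp [h5, h6]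
        simp_rw [h4]
        rw [← Finset.sum_filter, Finset.sum_const, nsmul_eq_mul, Finset.filter_mem_eq_inter,
          Finset.univ_inter]
        rw [div_eq_mul_inv, mul_inv]
      rw [h3]
      rcases (hn0 s).eq_or_lt with h0 | h0
      · rw [← h0]; simp
        have := al_pos
        positivity
      rcases (hn0 s').eq_or_lt with h0' | h0'
      · rw [← h0']; simp
        have := al_pos
        positivity
      have hal := al_pos
      apply pair_bound (Nat.cast_nonneg _) hqpos.le (Real.sqrt_pos.mpr h0) (Real.sqrt_pos.mpr h0')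
        (by positivity)
      · rw [Real.sq_sqrt (hn0 s), ← hcsz s hs, mul_comm]
        have h5 : (Fs η s E ∩ Fs η s' E).card ≤ (dense η s E).card * csz L s :=
          (Finset.card_le_card Finset.inter_subset_left).trans (Fs_card_le η s E)
        simp only [hn]
        exact_mod_cast h5
      · rw [Real.sq_sqrt (hn0 s'), ← hcsz s' hs', mul_comm]
        have h5 : (Fs η s E ∩ Fs η s' E).card ≤ (dense η s' E).card * csz L s' :=
          (Finset.card_le_card Finset.inter_subset_right).trans (Fs_card_le η s' E)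
        simp only [hn]
        exact_mod_cast h5
      · rw [Real.sq_sqrt (hn0 s), Real.sq_sqrt (hn0 s')]
        have h5 := Fs_inter_card_le η s s' E
        have h6 := max_prod (L := L) (hT2 s hs) (hT2 s' hs')
        have h7 : dst s s' = 2 * ∑ j, (s' j - s j) := dst_eq (by rw [hT1 s hs, hT1 s' hs'])
        set D := ∑ j, (s' j - s j) with hD
        have h8 : (al ^ dst s s') ^ 2 = 1 / 2 ^ D := by
          rw [h7, ← pow_mul]
          rw [show 2 * D * 2 = 4 * D by ring, pow_mul, al_pow4, div_pow, one_pow]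
        rw [h8, ← hcsz s hs, ← h6]
        push_cast
        have h9 : ((Fs η s E ∩ Fs η s' E).card : ℝ)
            ≤ (n s * n s') * ∏ j, (2:ℝ) ^ (L - max (s j) (s' j)) := by
          simp only [hn]
          exact_mod_cast h5
        refine h9.trans (le_of_eq ?_)
        field_simp
    calc ∑ s ∈ T, ∑ s' ∈ T, ∑ x : X d L, f s x * f s' x
        ≤ ∑ s ∈ T, ∑ s' ∈ T, q * ((Real.sqrt (n s) + Real.sqrt (n s')) / 2) * al ^ (dst s s') :=
          Finset.sum_le_sum (fun s hs => Finset.sum_le_sum (fun s' hs' => h2 s hs s' hs'))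
      _ = q / 2 * (∑ s ∈ T, Real.sqrt (n s) * ∑ s' ∈ T, al ^ (dst s s'))
          + q / 2 * (∑ s' ∈ T, Real.sqrt (n s') * ∑ s ∈ T, al ^ (dst s s')) := by
          simp_rw [Finset.mul_sum]
          rw [Finset.sum_comm (s := T) (t := T) (f := fun s' s => q / 2 * (Real.sqrt (n s') * al ^ dst s s')),
            ← Finset.sum_add_distrib]
          apply Finset.sum_congr rfl; intro s _
          rw [← Finset.sum_add_distrib]
          apply Finset.sum_congr rfl; intro s' _
          ring
      _ ≤ q / 2 * (∑ s ∈ T, Real.sqrt (n s) * K1 ^ d) + q / 2 * (∑ s' ∈ T, Real.sqrt (n s') * K1 ^ d) := by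
          have hsym : ∀ s s' : Fin d → ℕ, dst s s' = dst s' s := by
            intro s s'; unfold dst; exact Finset.sum_congr rfl (fun j _ => add_comm _ _)
          gcongr with s hs s' hs'
          · exact sum_dst_le (L + 1) T (fun t ht j => Nat.lt_succ_of_le (hT2 t ht j)) s
          · simp_rw [fun s => hsym s s']
            exact sum_dst_le (L + 1) T (fun t ht j => Nat.lt_succ_of_le (hT2 t ht j)) s'
      _ = q * K1 ^ d * Z := by
          rw [← Finset.sum_mul, hZ]; ring
  -- Cauchy-Schwarz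
  have hCS : (∑ x ∈ E, ∑ s ∈ T, f s x) ^ 2 ≤ (E.card : ℝ) * (q * K1 ^ d * Z) := by
    refine sq_sum_le_card_mul_sum_sq.trans ?_
    gcongr
    refine le_trans ?_ hS
    exact Finset.sum_le_sum_of_subset_of_nonneg (Finset.subset_univ _) (fun _ _ _ => sq_nonneg _)
  have hZ0 : 0 ≤ Z := Finset.sum_nonneg (fun _ _ => Real.sqrt_nonneg _)
  have h4 : ((2:ℝ) ^ L) ^ d = q * 2 ^ m := by rw [hq]; field_simp
  have hK : 0 ≤ K1 ^ d := pow_nonneg K1_pos.le d
  have h5 : 0 ≤ η * q * Z := mul_nonneg (mul_nonneg hη.le hqpos.le) hZ0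
  exact final_step hqpos hZ0 (Nat.cast_nonneg _) hK h4 ((pow_le_pow_left₀ h5 hW 2).trans hCS)

end Pool.Agent.Helper145.Hyp
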