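import Pool.Agent.Helper145.Hyp3

set_option autoImplicit false
open Finset

namespace Pool.Agent.Helper145.Hyp

lemma int_div_diff {z h q : ℤ} (hq : 0 < q) : z / q - (z - h) / q ≤ h / q + 1 := by
  have h1 := Int.emod_add_mul_ediv z q
  have h2 := Int.emod_add_mul_ediv (z - h) q
  have h3 := Int.emod_nonneg z hq.ne'
  have h4 := Int.emod_lt_of_pos (z - h) hq
  have h5 : (z / q - (z - h) / q) * q ≤ h + q := by nlinarith
  have h6 := Int.le_ediv_of_mul_le hq h5
  have h7 : (h + q) / q = h / q + 1 := by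
    rw [Int.add_ediv_of_dvd_right (dvd_refl q), Int.ediv_self hq.ne']
  omega

lemma int_emod_div (u : ℤ) {q r : ℤ} (hq : 0 < q) (hr : 0 < r) : (u % (q * r)) / q = (u / q) % r := by
  have hqr : 0 < q * r := mul_pos hq hr
  have h1 := Int.emod_add_mul_ediv u (q * r)
  set w := u % (q * r) with hw
  have hw0 : 0 ≤ w := Int.emod_nonneg u hqr.ne'
  have hw1 : w < q * r := Int.emod_lt_of_pos u hqr
  have h2 : u / q = w / q + r * (u / (q * r)) := by
    conv_lhs => rw [← h1]
    rw [mul_assoc, Int.add_mul_ediv_left _ _ hq.ne']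
  rw [h2, Int.add_mul_emod_self_left]
  symm
  apply Int.emod_eq_of_lt
  · exact Int.ediv_nonneg hw0 hq.le
  · exact Int.ediv_lt_of_lt_mul hq (by linarith)

/-- an arc of length `H` meets few cells of length `2 ^ m` -/
lemma arc_cells {L m H : ℕ} (hm : m ≤ L) (hH : H ≤ 2 ^ L) (z : ZMod (2 ^ L)) :
    ((Finset.range H).image (fun a : ℕ => (z - ((a : ℕ) : ZMod (2 ^ L))).val / 2 ^ m)).card
      ≤ H / 2 ^ m + 2 := by
  rcases Nat.eq_zero_or_pos H with h0 | hpos
  · subst h0; simp
  set q : ℤ := 2 ^ m with hq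
  have hqpos : 0 < q := by rw [hq]; positivity
  set zz : ℤ := (z.val : ℤ) with hzz
  set lo : ℤ := (zz - ((H : ℤ) - 1)) / q with hlo
  set hi : ℤ := zz / q with hhi
  have hsub : (Finset.range H).image (fun a : ℕ => (z - ((a : ℕ) : ZMod (2 ^ L))).val / 2 ^ m)
      ⊆ (Finset.Icc lo hi).image (fun i : ℤ => (i % 2 ^ (L - m)).toNat) := by
    intro c hc
    simp only [Finset.mem_image, Finset.mem_range] at hc
    obtain ⟨a, ha, rfl⟩ := hc
    simp only [Finset.mem_image, Finset.mem_Icc]
    refine ⟨(zz - a) / q, ⟨?_, ?_⟩, ?_⟩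
    · rw [hlo]; exact Int.ediv_le_ediv hqpos (by omega)
    · rw [hhi]; exact Int.ediv_le_ediv hqpos (by omega)
    · have h1 : ((z - ((a : ℕ) : ZMod (2 ^ L))).val : ℤ) = (zz - a) % ((2 ^ L : ℕ) : ℤ) := by
        rw [← ZMod.val_intCast]
        congr 2
        rw [hzz]; push_cast
        rw [ZMod.natCast_zmod_val]
      have h2 : ((2 ^ L : ℕ) : ℤ) = q * 2 ^ (L - m) := by
        rw [hq, ← pow_add]; push_cast; congr 1; omega
      have h3 : (((z - ((a : ℕ) : ZMod (2 ^ L))).val / 2 ^ m : ℕ) : ℤ) = (zz - a) / q % 2 ^ (L - m) := by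
        push_cast
        rw [h1, h2]
        exact int_emod_div _ hqpos (by positivity)
      have h4 : 0 ≤ (zz - a) / q % 2 ^ (L - m) := Int.emod_nonneg _ (by positivity)
      zify
      rw [Int.toNat_of_nonneg h4]
      push_cast at h3
      exact h3.symm
  refine (Finset.card_le_card hsub).trans (Finset.card_image_le.trans ?_)
  rw [Int.card_Icc]
  have h5 : hi - lo ≤ ((H:ℤ) - 1) / q + 1 := int_div_diff hqpos
  have h6 : ((H:ℤ) - 1) / q ≤ (H:ℤ) / q := Int.ediv_le_ediv hqpos (by omega)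
  have h7 : ((H / 2 ^ m : ℕ) : ℤ) = (H:ℤ) / q := by rw [hq]; push_cast; rfl
  have h8 : hi + 1 - lo ≤ ((H / 2 ^ m : ℕ) : ℤ) + 2 := by rw [h7]; linarith
  generalize H / 2 ^ m = w at h8 ⊢
  omega

/-- index set of a box -/
def Box {d : ℕ} (H : Fin d → ℕ) : Finset (Fin d → ℕ) := Fintype.piFinset (fun j => Finset.range (H j))

/-- element of the group from natural coordinates -/
def toX {d : ℕ} (L : ℕ) (a : Fin d → ℕ) : X d L := fun j => ((a j : ℕ) : ZMod (2 ^ L))

lemma toX_inj {d L : ℕ} {H : Fin d → ℕ} (hH : ∀ j, H j ≤ 2 ^ L) :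
    Set.InjOn (toX L) (Box H : Set (Fin d → ℕ)) := by
  intro a ha b hb hab
  simp only [Box, Finset.mem_coe, Fintype.mem_piFinset, Finset.mem_range] at ha hb
  funext j
  have h1 := congrFun hab j
  simp only [toX] at h1
  have h2 := congrArg ZMod.val h1
  rw [ZMod.val_natCast, ZMod.val_natCast, Nat.mod_eq_of_lt ((ha j).trans_le (hH j)),
    Nat.mod_eq_of_lt ((hb j).trans_le (hH j))] at h2
  exact h2

lemma Box_card {d : ℕ} (H : Fin d → ℕ) : (Box H).card = ∏ j, H j := by
  unfold Box; rw [Fintype.card_piFinset]; simp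

/-- number of points of a locally sparse set in a box -/
lemma box_count {d L : ℕ} {η : ℝ} (hη : 0 ≤ η) {s H : Fin d → ℕ} (hH : ∀ j, H j ≤ 2 ^ L)
    (B : Finset (X d L))
    (hB : ∀ c, ((B.filter (fun x => cell s x = c)).card : ℝ) ≤ η * csz L s) (z : X d L) :
    (((Box H).filter (fun a => z - toX L a ∈ B)).card : ℝ)
      ≤ (∏ j, ((H j / 2 ^ (L - s j) + 2 : ℕ) : ℝ)) * (η * csz L s) := by
  classical
  set C : Finset (Fin d → ℕ) := Fintype.piFinset (fun j =>
    (Finset.range (H j)).image (fun a : ℕ => (z j - ((a : ℕ) : ZMod (2 ^ L))).val / 2 ^ (L - s j))) with hC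
  have h1 : ((Box H).filter (fun a => z - toX L a ∈ B)).card
      = ∑ c ∈ C, (((Box H).filter (fun a => z - toX L a ∈ B)).filter
        (fun a => cell s (z - toX L a) = c)).card := by
    apply Finset.card_eq_sum_card_fiberwise
    intro a ha
    simp only [Box, Finset.coe_filter, Fintype.mem_piFinset, Finset.mem_range, Set.mem_ofPred_eq] at ha
    rw [hC, Finset.mem_coe, Fintype.mem_piFinset]
    intro j
    rw [Finset.mem_image]
    exact ⟨a j, Finset.mem_range.mpr (ha.1 j), rfl⟩
  have h2 : ∀ c ∈ C, ((((Box H).filter (fun a => z - toX L a ∈ B)).filter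
        (fun a => cell s (z - toX L a) = c)).card : ℝ) ≤ η * csz L s := by
    intro c _
    refine le_trans ?_ (hB c)
    have : (((Box H).filter (fun a => z - toX L a ∈ B)).filter
        (fun a => cell s (z - toX L a) = c)).card ≤ (B.filter (fun x => cell s x = c)).card := by
      apply Finset.card_le_card_of_injOn (fun a => z - toX L a)
      · intro a ha
        simp only [Finset.coe_filter, Finset.mem_filter, Set.mem_ofPred_eq] at ha ⊢
        exact ⟨ha.1.2, ha.2⟩
      · intro a ha b hb hab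
        simp only [Finset.coe_filter, Finset.mem_filter, Set.mem_ofPred_eq] at ha hb
        have h3 : toX L a = toX L b := by
          have := congrArg (fun w => z - w) hab
          simpa using this
        exact toX_inj hH ha.1.1 hb.1.1 h3
    exact_mod_cast this
  have h3 : (C.card : ℝ) ≤ ∏ j, ((H j / 2 ^ (L - s j) + 2 : ℕ) : ℝ) := by
    rw [hC, Fintype.card_piFinset]
    push_cast
    apply Finset.prod_le_prod (fun _ _ => Nat.cast_nonneg _)
    intro j _
    have := arc_cells (Nat.sub_le L (s j)) (hH j) (z j)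
    exact_mod_cast this
  rw [h1]
  push_cast
  calc ∑ c ∈ C, ((((Box H).filter (fun a => z - toX L a ∈ B)).filter
        (fun a => cell s (z - toX L a) = c)).card : ℝ) ≤ ∑ _c ∈ C, (η * csz L s) := Finset.sum_le_sum h2
    _ = (C.card : ℝ) * (η * csz L s) := by rw [Finset.sum_const, nsmul_eq_mul]
    _ ≤ _ := by
      push_cast at h3
      gcongr

end Pool.Agent.Helper145.Hyp
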