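import Pool.Agent.Helper145.Hyp4

set_option autoImplicit false
open Finset

namespace Pool.Agent.Helper145.Hyp

/-- one-dimensional average of a character over an initial segment -/
noncomputable def ker1 (L H : ℕ) (k : ℤ) : ℂ :=
  (1 / (H : ℂ)) * ∑ a ∈ Finset.range H, ps L k ((a : ℕ) : ZMod (2 ^ L))

/-- average of a character over a box -/
noncomputable def Ker {d : ℕ} (L : ℕ) (H : Fin d → ℕ) (k : Fin d → ℤ) : ℂ := ∏ j, ker1 L (H j) (k j)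

lemma ker1_lower {L H : ℕ} (hH : 0 < H) {k : ℤ} (hk : k.natAbs * H * 16 ≤ 2 ^ L) :
    1 / 2 ≤ ‖ker1 L H k‖ := by
  have hH' : (0:ℝ) < H := by exact_mod_cast hH
  have h1 : ∀ a ∈ Finset.range H, ‖ps L k ((a : ℕ) : ZMod (2 ^ L)) - 1‖ ≤ 1 / 2 := by
    intro a ha
    rw [Finset.mem_range] at ha
    rw [ps_eq_exp]
    refine Real.norm_exp_I_mul_ofReal_sub_one_le.trans ?_
    have hab : |(k : ℝ)| = (k.natAbs : ℝ) := by
      rw [← Int.cast_abs, Int.abs_eq_natAbs]; simp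
    rw [Real.norm_eq_abs, abs_div, abs_mul, abs_mul, abs_mul, hab, abs_of_pos Real.pi_pos,
      abs_of_pos (show (0:ℝ) < 2 ^ L by positivity), abs_of_pos (show (0:ℝ) < 2 by norm_num),
      abs_of_nonneg (show (0:ℝ) ≤ a by positivity), div_le_iff₀ (by positivity)]
    have h2 : (k.natAbs : ℝ) * H * 16 ≤ 2 ^ L := by exact_mod_cast hk
    have h3 : (a : ℝ) ≤ H := by exact_mod_cast ha.le
    have h4 : (k.natAbs : ℝ) * a ≤ k.natAbs * H := by gcongr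
    have h5 := Real.pi_le_four
    have h6 := Real.pi_pos
    have h7 : (0:ℝ) ≤ (k.natAbs : ℝ) * a := by positivity
    nlinarith
  have h2 : ker1 L H k - 1 = (1 / (H : ℂ)) * ∑ a ∈ Finset.range H, (ps L k ((a : ℕ) : ZMod (2 ^ L)) - 1) := by
    rw [Finset.sum_sub_distrib, ker1, mul_sub]
    congr 1
    have : (H : ℂ) ≠ 0 := by exact_mod_cast hH.ne'
    simp [this]
  have h3 : ‖ker1 L H k - 1‖ ≤ 1 / 2 := by
    rw [h2, norm_mul]
    have h4 : ‖(1 / (H : ℂ))‖ = 1 / H := by rw [norm_div]; simp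
    rw [h4]
    have h5 : ‖∑ a ∈ Finset.range H, (ps L k ((a : ℕ) : ZMod (2 ^ L)) - 1)‖ ≤ H * (1 / 2) := by
      refine (norm_sum_le _ _).trans ((Finset.sum_le_sum h1).trans (le_of_eq ?_))
      simp
    calc 1 / (H:ℝ) * _ ≤ 1 / (H:ℝ) * (H * (1 / 2)) := by gcongr
      _ = 1 / 2 := by field_simp
  have h4 : (1 : ℝ) = ‖(1 : ℂ)‖ := by simp
  have h5 : ‖(1 : ℂ)‖ ≤ ‖ker1 L H k‖ + ‖ker1 L H k - 1‖ := by
    have : (1 : ℂ) = ker1 L H k - (ker1 L H k - 1) := by ring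
    conv_lhs => rw [this]
    exact norm_sub_le _ _
  rw [← h4] at h5
  linarith

lemma Ker_lower {d L : ℕ} {H : Fin d → ℕ} (hH : ∀ j, 0 < H j) {k : Fin d → ℤ}
    (hk : ∀ j, (k j).natAbs * H j * 16 ≤ 2 ^ L) : (1 / 2) ^ d ≤ ‖Ker L H k‖ := by
  unfold Ker
  rw [norm_prod]
  calc ((1:ℝ) / 2) ^ d = ∏ _j : Fin d, (1 / 2 : ℝ) := by simp
    _ ≤ _ := Finset.prod_le_prod (fun _ _ => by norm_num) (fun j _ => ker1_lower (hH j) (hk j))

lemma sum_chi_box {d L : ℕ} {H : Fin d → ℕ} (hH : ∀ j, 0 < H j) (k : Fin d → ℤ) :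
    ∑ a ∈ Box H, chi k (toX L a) = ((∏ j, H j : ℕ) : ℂ) * Ker L H k := by
  unfold Box chi toX Ker ker1
  rw [Finset.prod_mul_distrib, Finset.prod_univ_sum]
  rw [← mul_assoc]
  have : ((∏ j, H j : ℕ) : ℂ) * ∏ j, (1 / (H j : ℂ)) = 1 := by
    push_cast
    rw [← Finset.prod_mul_distrib]
    apply Finset.prod_eq_one
    intro j _
    have : (H j : ℂ) ≠ 0 := by exact_mod_cast (hH j).ne'
    field_simp
  rw [this, one_mul]

/-- local sparseness inequality -/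
lemma sparse_ineq {d L : ℕ} {H : Fin d → ℕ} (hH : ∀ j, 0 < H j) {S : Finset (Fin d → ℤ)}
    (hS : ∀ k ∈ S, ∀ j, (k j).natAbs * H j * 16 ≤ 2 ^ L) (hS2 : ∀ k ∈ S, ∀ j, 2 * (k j).natAbs < 2 ^ L)
    (b : (Fin d → ℤ) → ℂ) (B : Finset (X d L)) {Λ : ℝ} (hΛ : 0 ≤ Λ)
    (hB : ∀ z : X d L, (((Box H).filter (fun a => z - toX L a ∈ B)).card : ℝ) ≤ Λ * (∏ j, H j : ℕ)) :
    ∑ x ∈ B, ‖pol S b x‖ ^ 2 ≤ 4 ^ d * Λ * ∑ x : X d L, ‖pol S b x‖ ^ 2 := by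
  classical
  set bt : (Fin d → ℤ) → ℂ := fun k => b k / Ker L H k with hbt
  set V : ℝ := ((∏ j, H j : ℕ) : ℝ) with hV
  have hVpos : 0 < V := by
    rw [hV]; exact_mod_cast Finset.prod_pos (fun j _ => hH j)
  have hKer : ∀ k ∈ S, (1 / 2 : ℝ) ^ d ≤ ‖Ker L H k‖ := fun k hk => Ker_lower hH (hS k hk)
  have hKer0 : ∀ k ∈ S, Ker L H k ≠ 0 := by
    intro k hk h0
    have := hKer k hk
    rw [h0, norm_zero] at this
    have h2 : (0:ℝ) < (1 / 2) ^ d := by positivity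
    linarith
  have h1 : ∀ x : X d L, ∑ a ∈ Box H, pol S bt (x + toX L a) = (V : ℂ) * pol S b x := by
    intro x
    unfold pol
    rw [Finset.sum_comm, Finset.mul_sum]
    apply Finset.sum_congr rfl
    intro k hk
    have h2 : ∑ a ∈ Box H, bt k * chi k (x + toX L a) = bt k * chi k x * ∑ a ∈ Box H, chi k (toX L a) := by
      rw [Finset.mul_sum]
      apply Finset.sum_congr rfl; intro a _
      rw [chi_add]; ring
    rw [h2, sum_chi_box hH, hbt, hV]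
    have := hKer0 k hk
    push_cast
    field_simp
  have h2 : ∀ x : X d L, V * ‖pol S b x‖ ^ 2 ≤ ∑ a ∈ Box H, ‖pol S bt (x + toX L a)‖ ^ 2 := by
    intro x
    have h3 : V * ‖pol S b x‖ = ‖∑ a ∈ Box H, pol S bt (x + toX L a)‖ := by
      rw [h1 x, norm_mul]; simp [abs_of_pos hVpos]
    have h4 : (V * ‖pol S b x‖) ^ 2 ≤ V * ∑ a ∈ Box H, ‖pol S bt (x + toX L a)‖ ^ 2 := by
      rw [h3]
      calc ‖∑ a ∈ Box H, pol S bt (x + toX L a)‖ ^ 2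
          ≤ (∑ a ∈ Box H, ‖pol S bt (x + toX L a)‖) ^ 2 := by
            have := norm_sum_le (Box H) (fun a => pol S bt (x + toX L a))
            gcongr
        _ ≤ ((Box H).card : ℝ) * ∑ a ∈ Box H, ‖pol S bt (x + toX L a)‖ ^ 2 := sq_sum_le_card_mul_sum_sq
        _ = V * _ := by rw [Box_card]
    have h5 : V * (V * ‖pol S b x‖ ^ 2) ≤ V * ∑ a ∈ Box H, ‖pol S bt (x + toX L a)‖ ^ 2 := by
      calc V * (V * ‖pol S b x‖ ^ 2) = (V * ‖pol S b x‖) ^ 2 := by ring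
        _ ≤ _ := h4
    exact le_of_mul_le_mul_left h5 hVpos
  have h3 : V * ∑ x ∈ B, ‖pol S b x‖ ^ 2
      ≤ ∑ y : X d L, ‖pol S bt y‖ ^ 2 * (((Box H).filter (fun a => y - toX L a ∈ B)).card : ℝ) := by
    calc V * ∑ x ∈ B, ‖pol S b x‖ ^ 2 = ∑ x ∈ B, V * ‖pol S b x‖ ^ 2 := by rw [Finset.mul_sum]
      _ ≤ ∑ x ∈ B, ∑ a ∈ Box H, ‖pol S bt (x + toX L a)‖ ^ 2 := Finset.sum_le_sum (fun x _ => h2 x)
      _ = ∑ a ∈ Box H, ∑ x ∈ B, ‖pol S bt (x + toX L a)‖ ^ 2 := Finset.sum_comm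
      _ = ∑ a ∈ Box H, ∑ y : X d L, if y - toX L a ∈ B then ‖pol S bt y‖ ^ 2 else 0 := by
          apply Finset.sum_congr rfl; intro a _
          rw [← Fintype.sum_equiv (Equiv.addRight (toX L a))
            (fun x => if x ∈ B then ‖pol S bt (x + toX L a)‖ ^ 2 else 0)]
          · rw [← Finset.sum_filter, Finset.filter_mem_eq_inter, Finset.univ_inter]
          · intro x
            simp [Equiv.coe_addRight]
      _ = ∑ y : X d L, ∑ a ∈ Box H, if y - toX L a ∈ B then ‖pol S bt y‖ ^ 2 else 0 := Finset.sum_comm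
      _ = _ := by
          apply Finset.sum_congr rfl; intro y _
          rw [← Finset.sum_filter, Finset.sum_const, nsmul_eq_mul, mul_comm]
  have h4 : V * ∑ x ∈ B, ‖pol S b x‖ ^ 2 ≤ V * (Λ * ∑ y : X d L, ‖pol S bt y‖ ^ 2) := by
    refine h3.trans ?_
    calc _ ≤ ∑ y : X d L, ‖pol S bt y‖ ^ 2 * (Λ * V) :=
          Finset.sum_le_sum (fun y _ => mul_le_mul_of_nonneg_left (hB y) (by positivity))
      _ = _ := by rw [← Finset.sum_mul]; ring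
  have h5 := le_of_mul_le_mul_left h4 hVpos
  refine h5.trans ?_
  rw [parseval hS2, parseval hS2]
  have h6 : ∑ k ∈ S, ‖bt k‖ ^ 2 ≤ 4 ^ d * ∑ k ∈ S, ‖b k‖ ^ 2 := by
    rw [Finset.mul_sum]
    apply Finset.sum_le_sum
    intro k hk
    rw [hbt]; simp only
    have h7 := hKer k hk
    have h8 : (0:ℝ) < (1 / 2) ^ d := by positivity
    have h8' : 0 < ‖Ker L H k‖ := h8.trans_le h7
    rw [norm_div, div_pow, div_le_iff₀ (by positivity)]
    have h9 : (1:ℝ) ≤ 4 ^ d * ‖Ker L H k‖ ^ 2 := by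
      calc (1:ℝ) = 4 ^ d * ((1 / 2) ^ d) ^ 2 := by
            rw [← pow_mul, mul_comm d 2, pow_mul, ← mul_pow]; norm_num
        _ ≤ _ := by gcongr
    calc ‖b k‖ ^ 2 = ‖b k‖ ^ 2 * 1 := by ring
      _ ≤ ‖b k‖ ^ 2 * (4 ^ d * ‖Ker L H k‖ ^ 2) := by gcongr
      _ = _ := by ring
  calc Λ * ((2 ^ L : ℝ) ^ d * ∑ k ∈ S, ‖bt k‖ ^ 2) ≤ Λ * ((2 ^ L : ℝ) ^ d * (4 ^ d * ∑ k ∈ S, ‖b k‖ ^ 2)) := by
        gcongr
    _ = _ := by ring

end Pool.Agent.Helper145.Hyp
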