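import Pool.Agent.Helper145.Hyp5

set_option autoImplicit false
open Finset

namespace Pool.Agent.Helper145.Hyp

/-! ### level sets -/

/-- superlevel sets -/
noncomputable def Lev {d L : ℕ} (t : X d L → ℂ) (a : ℝ) (i : ℕ) : Finset (X d L) :=
  Finset.univ.filter (fun x => a * 2 ^ i < ‖t x‖)

lemma mem_Lev {d L : ℕ} {t : X d L → ℂ} {a : ℝ} {i : ℕ} {x : X d L} :
    x ∈ Lev t a i ↔ a * 2 ^ i < ‖t x‖ := by simp [Lev]

lemma sum_pow_two (j : ℕ) : ∑ i ∈ Finset.range j, (2:ℝ) ^ i = 2 ^ j - 1 := by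
  induction j with
  | zero => simp
  | succ j ih => rw [Finset.sum_range_succ, ih, pow_succ]; ring

lemma level_ge {a r : ℝ} (ha : 0 < a) (j : ℕ) (h : r ≤ a * 2 ^ j) :
    r ≤ a + ∑ i ∈ Finset.range j, (if a * 2 ^ i < r then a * 2 ^ i else 0) := by
  induction j with
  | zero => simpa using h
  | succ j ih =>
    by_cases hj : a * 2 ^ j < r
    · have h1 : ∑ i ∈ Finset.range (j + 1), (if a * 2 ^ i < r then a * 2 ^ i else 0)
          = ∑ i ∈ Finset.range (j + 1), a * 2 ^ i := by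
        apply Finset.sum_congr rfl
        intro i hi
        rw [Finset.mem_range] at hi
        rw [if_pos]
        refine lt_of_le_of_lt ?_ hj
        have : (2:ℝ) ^ i ≤ 2 ^ j := pow_le_pow_right₀ (by norm_num) (by omega)
        gcongr
      rw [h1, ← Finset.mul_sum, sum_pow_two]
      linarith
    · rw [not_lt] at hj
      refine (ih hj).trans ?_
      rw [Finset.sum_range_succ]
      have : 0 ≤ (if a * 2 ^ j < r then a * 2 ^ j else 0) := by split_ifs <;> positivity
      linarith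

lemma level_le {a r : ℝ} (ha : 0 < a) (hr : 0 ≤ r) (j : ℕ) :
    ∑ i ∈ Finset.range j, (if a * 2 ^ i < r then a * 2 ^ i else 0) ≤ 2 * r := by
  induction j with
  | zero => simpa using hr
  | succ j ih =>
    by_cases hj : a * 2 ^ j < r
    · have h1 : ∑ i ∈ Finset.range (j + 1), (if a * 2 ^ i < r then a * 2 ^ i else 0)
          ≤ ∑ i ∈ Finset.range (j + 1), a * 2 ^ i := by
        apply Finset.sum_le_sum
        intro i hi
        split_ifs
        · exact le_refl _
        · positivity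
      refine h1.trans ?_
      rw [← Finset.mul_sum, sum_pow_two, pow_succ]
      linarith
    · rw [Finset.sum_range_succ, if_neg hj, add_zero]; exact ih

/-- truncation of `|t|` at scale `s` -/
noncomputable def phi {d L : ℕ} (η a : ℝ) (I : ℕ) (t : X d L → ℂ) (s : Fin d → ℕ) (x : X d L) : ℝ :=
  a + ∑ i ∈ Finset.range I, (if x ∈ Lev t a i ∧ x ∈ Fs η s (Lev t a i) then a * 2 ^ i else 0)

lemma phi_nonneg {d L : ℕ} {η a : ℝ} (ha : 0 < a) (I : ℕ) (t : X d L → ℂ) (s : Fin d → ℕ) (x : X d L) :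
    0 ≤ phi η a I t s x := by
  unfold phi
  have : 0 ≤ ∑ i ∈ Finset.range I, (if x ∈ Lev t a i ∧ x ∈ Fs η s (Lev t a i) then a * 2 ^ i else 0) :=
    Finset.sum_nonneg (fun i _ => by split_ifs <;> positivity)
  linarith

/-- points where the truncation is active -/
noncomputable def B0 {d L : ℕ} (η a : ℝ) (I : ℕ) (t : X d L → ℂ) (s : Fin d → ℕ) : Finset (X d L) :=
  Finset.univ.filter (fun x => phi η a I t s x < ‖t x‖)

lemma mem_Fs {d L : ℕ} {η : ℝ} {s : Fin d → ℕ} {E : Finset (X d L)} {x : X d L} :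
    x ∈ Fs η s E ↔ cell s x ∈ dense η s E := by simp [Fs]

lemma not_dense {d L : ℕ} {η : ℝ} (hη : 0 ≤ η) {s : Fin d → ℕ} {E : Finset (X d L)} {c : Fin d → ℕ}
    (h : c ∉ dense η s E) : ((E.filter (fun x => cell s x = c)).card : ℝ) ≤ η * csz L s := by
  by_cases hc : c ∈ E.image (cell s)
  · unfold dense at h
    rw [Finset.mem_filter, not_and] at h
    exact not_lt.mp (h hc)
  · have : E.filter (fun x => cell s x = c) = ∅ := by
      rw [Finset.filter_eq_empty_iff]
      intro x hx hxc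
      exact hc (Finset.mem_image.mpr ⟨x, hx, hxc⟩)
    rw [this, Finset.card_empty, Nat.cast_zero]
    positivity

lemma B0_sparse {d L : ℕ} {η a : ℝ} (hη : 0 ≤ η) (ha : 0 < a) {I : ℕ} {t : X d L → ℂ}
    (hI : ∀ x, ‖t x‖ ≤ a * 2 ^ I) (s : Fin d → ℕ) (c : Fin d → ℕ) :
    (((B0 η a I t s).filter (fun x => cell s x = c)).card : ℝ) ≤ η * csz L s := by
  classical
  by_cases hall : ∀ i < I, c ∈ dense η s (Lev t a i)
  · have : (B0 η a I t s).filter (fun x => cell s x = c) = ∅ := by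
      rw [Finset.filter_eq_empty_iff]
      intro x hx hxc
      simp only [B0, Finset.mem_filter, Finset.mem_univ, true_and] at hx
      have h1 := level_ge ha I (hI x)
      have h2 : phi η a I t s x = a + ∑ i ∈ Finset.range I, (if a * 2 ^ i < ‖t x‖ then a * 2 ^ i else 0) := by
        unfold phi
        congr 1
        apply Finset.sum_congr rfl
        intro i hi
        rw [Finset.mem_range] at hi
        congr 1
        rw [mem_Lev, mem_Fs, hxc, eq_iff_iff]
        exact ⟨fun h => h.1, fun h => ⟨h, hall i hi⟩⟩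
      rw [h2] at hx
      linarith
    rw [this, Finset.card_empty, Nat.cast_zero]
    positivity
  · push Not at hall
    have hex : ∃ i, i < I ∧ c ∉ dense η s (Lev t a i) := hall
    set j := Nat.find hex with hj
    have hj1 : j < I ∧ c ∉ dense η s (Lev t a j) := Nat.find_spec hex
    have hj2 : ∀ i < j, c ∈ dense η s (Lev t a i) := by
      intro i hi
      have := Nat.find_min hex hi
      rw [not_and, not_not] at this
      exact this (hi.trans hj1.1)
    refine le_trans ?_ (not_dense hη hj1.2)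
    have : (B0 η a I t s).filter (fun x => cell s x = c) ⊆ (Lev t a j).filter (fun x => cell s x = c) := by
      intro x hx
      simp only [B0, Finset.mem_filter, Finset.mem_univ, true_and] at hx
      rw [Finset.mem_filter]
      refine ⟨?_, hx.2⟩
      by_contra hcon
      rw [mem_Lev, not_lt] at hcon
      have h1 := level_ge ha j hcon
      have h2 : ∑ i ∈ Finset.range j, (if a * 2 ^ i < ‖t x‖ then a * 2 ^ i else 0)
          ≤ ∑ i ∈ Finset.range I, (if x ∈ Lev t a i ∧ x ∈ Fs η s (Lev t a i) then a * 2 ^ i else 0) := by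
        calc ∑ i ∈ Finset.range j, (if a * 2 ^ i < ‖t x‖ then a * 2 ^ i else 0)
            = ∑ i ∈ Finset.range j, (if x ∈ Lev t a i ∧ x ∈ Fs η s (Lev t a i) then a * 2 ^ i else 0) := by
              apply Finset.sum_congr rfl
              intro i hi
              rw [Finset.mem_range] at hi
              congr 1
              rw [mem_Lev, mem_Fs, hx.2, eq_iff_iff]
              exact ⟨fun h => ⟨h, hj2 i hi⟩, fun h => h.1⟩
          _ ≤ _ := by
              apply Finset.sum_le_sum_of_subset_of_nonneg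
              · intro i hi; rw [Finset.mem_range] at hi ⊢; omega
              · intro i _ _; split_ifs <;> positivity
      have h3 := hx.1
      unfold phi at h3
      linarith
    exact_mod_cast Finset.card_le_card this

/-- the bad set at scale `s` -/
noncomputable def Bs {d L : ℕ} (η a : ℝ) (I : ℕ) (t : X d L → ℂ) (s : Fin d → ℕ) : Finset (X d L) :=
  Finset.univ.filter (fun x => ∃ J ∈ (Finset.univ : Finset (Fin d)).powerset, x + sh L s J ∈ B0 η a I t s)

lemma coord_bound {L s s' : ℕ} (hs : s + 4 ≤ L) (hs' : s' + 4 ≤ L) :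
    2 * (2 ^ (L - s' - 4) / 2 ^ (L - s) + 2) * 2 ^ (L - s) ≤ 96 * 2 ^ (s' - s) * 2 ^ (L - s' - 4) := by
  set H := 2 ^ (L - s' - 4) with hH
  have h1 : H / 2 ^ (L - s) * 2 ^ (L - s) ≤ H := Nat.div_mul_le_self _ _
  have h2 : 2 ^ (L - s) ≤ 16 * (2 ^ (s' - s) * H) := by
    rw [hH]
    have : 16 * (2 ^ (s' - s) * 2 ^ (L - s' - 4)) = 2 ^ (4 + ((s' - s) + (L - s' - 4))) := by
      rw [pow_add, pow_add]; norm_num
    rw [this]
    apply Nat.pow_le_pow_right (by norm_num)
    omega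
  have h3 : H ≤ 2 ^ (s' - s) * H := Nat.le_mul_of_pos_left _ (by positivity)
  calc 2 * (H / 2 ^ (L - s) + 2) * 2 ^ (L - s) = 2 * (H / 2 ^ (L - s) * 2 ^ (L - s)) + 4 * 2 ^ (L - s) := by ring
    _ ≤ 2 * (2 ^ (s' - s) * H) + 4 * (16 * (2 ^ (s' - s) * H)) := by
        have := h1.trans h3
        gcongr
    _ = 66 * (2 ^ (s' - s) * H) := by ring
    _ ≤ 96 * (2 ^ (s' - s) * H) := by gcongr; norm_num
    _ = _ := by ring

lemma Bs_count {d L : ℕ} {η a : ℝ} (hη : 0 ≤ η) (ha : 0 < a) {I : ℕ} {t : X d L → ℂ}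
    (hI : ∀ x, ‖t x‖ ≤ a * 2 ^ I) {s s' : Fin d → ℕ} (hs : ∀ j, s j + 4 ≤ L) (hs' : ∀ j, s' j + 4 ≤ L)
    (z : X d L) :
    (((Box (fun j => 2 ^ (L - s' j - 4))).filter (fun b => z - toX L b ∈ Bs η a I t s)).card : ℝ)
      ≤ (96 ^ d * η * 2 ^ (∑ j, (s' j - s j))) * ((∏ j, 2 ^ (L - s' j - 4) : ℕ) : ℝ) := by
  classical
  set H : Fin d → ℕ := fun j => 2 ^ (L - s' j - 4) with hH
  have hHL : ∀ j, H j ≤ 2 ^ L := fun j => Nat.pow_le_pow_right (by norm_num) (by omega)
  have h1 : (Box H).filter (fun b => z - toX L b ∈ Bs η a I t s)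
      ⊆ (Finset.univ : Finset (Fin d)).powerset.biUnion
        (fun J => (Box H).filter (fun b => (z + sh L s J) - toX L b ∈ B0 η a I t s)) := by
    intro b hb
    rw [Finset.mem_filter] at hb
    have hb2 := hb.2
    simp only [Bs, Finset.mem_filter, Finset.mem_univ, true_and] at hb2
    obtain ⟨J, hJ, hJ2⟩ := hb2
    rw [Finset.mem_biUnion]
    refine ⟨J, hJ, ?_⟩
    rw [Finset.mem_filter]
    refine ⟨hb.1, ?_⟩
    have : z + sh L s J - toX L b = z - toX L b + sh L s J := by abel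
    rw [this]; exact hJ2
  have h2 : (((Box H).filter (fun b => z - toX L b ∈ Bs η a I t s)).card : ℝ)
      ≤ ∑ J ∈ (Finset.univ : Finset (Fin d)).powerset,
        (((Box H).filter (fun b => (z + sh L s J) - toX L b ∈ B0 η a I t s)).card : ℝ) := by
    have := (Finset.card_le_card h1).trans Finset.card_biUnion_le
    exact_mod_cast this
  refine h2.trans ?_
  calc _ ≤ ∑ J ∈ (Finset.univ : Finset (Fin d)).powerset,
        (∏ j, ((H j / 2 ^ (L - s j) + 2 : ℕ) : ℝ)) * (η * csz L s) :=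
        Finset.sum_le_sum (fun J _ => box_count hη hHL _ (B0_sparse hη ha hI s) _)
    _ = η * ((2 ^ d * (∏ j, (H j / 2 ^ (L - s j) + 2)) * csz L s : ℕ) : ℝ) := by
        rw [Finset.sum_const, Finset.card_powerset, Finset.card_univ, Fintype.card_fin, nsmul_eq_mul]
        push_cast; ring
    _ ≤ η * ((96 ^ d * 2 ^ (∑ j, (s' j - s j)) * ∏ j, H j : ℕ) : ℝ) := by
        apply mul_le_mul_of_nonneg_left _ hη
        have h3 : 2 ^ d * (∏ j, (H j / 2 ^ (L - s j) + 2)) * csz L s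
            = ∏ j, (2 * (H j / 2 ^ (L - s j) + 2) * 2 ^ (L - s j)) := by
          unfold csz
          rw [Finset.prod_mul_distrib, Finset.prod_mul_distrib]; simp
        have h4 : 96 ^ d * 2 ^ (∑ j, (s' j - s j)) * ∏ j, H j
            = ∏ j, (96 * 2 ^ (s' j - s j) * H j) := by
          rw [Finset.prod_mul_distrib, Finset.prod_mul_distrib]; simp
          exact Or.inl (Finset.prod_pow_eq_pow_sum Finset.univ (fun j => s' j - s j) 2).symm
        rw [h3, h4]
        have h5 : ∏ j, (2 * (H j / 2 ^ (L - s j) + 2) * 2 ^ (L - s j)) ≤ ∏ j, (96 * 2 ^ (s' j - s j) * H j) :=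
          Finset.prod_le_prod (fun _ _ => Nat.zero_le _) (fun j _ => coord_bound (hs j) (hs' j))
        exact_mod_cast h5
    _ = _ := by push_cast; ring

/-- block index of a frequency -/
def blk {d : ℕ} (k : Fin d → ℤ) : Fin d → ℕ := fun j => Nat.size (k j).natAbs

/-- restriction to the bad set loses a small factor -/
lemma Bs_l2 {d L : ℕ} {ζ a : ℝ} (hζ : 0 ≤ ζ) (ha : 0 < a) {I : ℕ} {t : X d L → ℂ}
    (hI : ∀ x, ‖t x‖ ≤ a * 2 ^ I) {s s' : Fin d → ℕ} (hs : ∀ j, s j + 4 ≤ L) (hs' : ∀ j, s' j + 4 ≤ L)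
    {S : Finset (Fin d → ℤ)} (hS : ∀ k ∈ S, blk k = s') (b : (Fin d → ℤ) → ℂ) :
    l2 (fun x => if x ∈ Bs (ζ ^ 4 / 384 ^ d) a I t s then pol S b x else 0)
      ≤ ζ * (al⁻¹) ^ (∑ j, (s' j - s j)) * l2 (pol (L := L) S b) := by
  classical
  set η : ℝ := ζ ^ 4 / 384 ^ d with hη
  have hη0 : 0 ≤ η := by positivity
  set u := ∑ j, (s' j - s j) with hu
  have hal := al_pos
  have hlt : ∀ k ∈ S, ∀ j, (k j).natAbs < 2 ^ (s' j) := by
    intro k hk j
    have := congrFun (hS k hk) j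
    rw [← this]; exact Nat.lt_size_self _
  have hS1 : ∀ k ∈ S, ∀ j, (k j).natAbs * 2 ^ (L - s' j - 4) * 16 ≤ 2 ^ L := by
    intro k hk j
    have h1 := hlt k hk j
    calc (k j).natAbs * 2 ^ (L - s' j - 4) * 16 ≤ 2 ^ (s' j) * 2 ^ (L - s' j - 4) * 16 := by gcongr
      _ = 2 ^ L := by
        rw [show (16:ℕ) = 2 ^ 4 by norm_num, ← pow_add, ← pow_add]; congr 1
        have := hs' j; omega
  have hS2 : ∀ k ∈ S, ∀ j, 2 * (k j).natAbs < 2 ^ L := by
    intro k hk j
    have h1 := hlt k hk j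
    calc 2 * (k j).natAbs < 2 * 2 ^ (s' j) := by omega
      _ = 2 ^ (s' j + 1) := by ring
      _ ≤ 2 ^ L := Nat.pow_le_pow_right (by norm_num) (by have := hs' j; omega)
  have h1 := sparse_ineq (H := fun j => 2 ^ (L - s' j - 4)) (fun j => by positivity) hS1 hS2 b
    (Bs η a I t s) (Λ := 96 ^ d * η * 2 ^ u) (by positivity) (Bs_count hη0 ha hI hs hs')
  set P := ∑ x : X d L, ‖pol S b x‖ ^ 2 with hP
  have hP0 : 0 ≤ P := Finset.sum_nonneg (fun _ _ => by positivity)
  have h2 : ∑ x ∈ Bs η a I t s, ‖pol S b x‖ ^ 2 ≤ P :=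
    Finset.sum_le_sum_of_subset_of_nonneg (Finset.subset_univ _) (fun _ _ _ => by positivity)
  set y : ℝ := (ζ * (al⁻¹) ^ u) ^ 2 with hy
  have hy0 : 0 ≤ y := by positivity
  have h3 : (4:ℝ) ^ d * (96 ^ d * η * 2 ^ u) = y ^ 2 := by
    have h4 : ((al⁻¹) ^ u) ^ 4 = 2 ^ u := by
      rw [← pow_mul, mul_comm, pow_mul, inv_pow, al_pow4]; norm_num
    have h5 : y ^ 2 = ζ ^ 4 * ((al⁻¹) ^ u) ^ 4 := by rw [hy]; ring
    rw [h5, h4, hη]
    have h6 : (384:ℝ) ^ d = 4 ^ d * 96 ^ d := by rw [← mul_pow]; norm_num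
    rw [h6]; field_simp
  rw [h3] at h1
  have h4 : ∑ x ∈ Bs η a I t s, ‖pol S b x‖ ^ 2 ≤ y * P := by
    rcases le_total y 1 with h | h
    · refine h1.trans ?_
      have : y ^ 2 ≤ y := by nlinarith
      gcongr
    · refine h2.trans ?_
      nlinarith
  unfold l2
  have h5 : ∑ x : X d L, ‖(if x ∈ Bs η a I t s then pol S b x else 0)‖ ^ 2
      = ∑ x ∈ Bs η a I t s, ‖pol S b x‖ ^ 2 := by
    have h6 : ∀ x : X d L, ‖(if x ∈ Bs η a I t s then pol S b x else 0)‖ ^ 2
        = if x ∈ Bs η a I t s then ‖pol S b x‖ ^ 2 else 0 := by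
      intro x; split_ifs <;> simp
    simp_rw [h6]
    rw [← Finset.sum_filter, Finset.filter_mem_eq_inter, Finset.univ_inter]
  rw [h5]
  calc Real.sqrt (∑ x ∈ Bs η a I t s, ‖pol S b x‖ ^ 2) ≤ Real.sqrt (y * P) := Real.sqrt_le_sqrt h4
    _ = Real.sqrt y * Real.sqrt P := Real.sqrt_mul hy0 _
    _ = _ := by rw [hy, Real.sqrt_sq (by positivity)]

end Pool.Agent.Helper145.Hyp
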