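import Pool.Agent.Helper145.Hyp6

set_option autoImplicit false
open Finset

namespace Pool.Agent.Helper145.Hyp

/-- weights -/
noncomputable def w {d : ℕ} (s : Fin d → ℕ) : ℝ := (al⁻¹) ^ (2 * ∑ j, s j)

lemma w_pos {d : ℕ} (s : Fin d → ℕ) : 0 < w s := by unfold w; have := al_pos; positivity

lemma w_sq {d : ℕ} (s : Fin d → ℕ) : w s ^ 2 = 2 ^ (∑ j, s j) := by
  unfold w
  rw [← pow_mul, show 2 * (∑ j, s j) * 2 = 4 * ∑ j, s j by ring, pow_mul, inv_pow, al_pow4]; norm_num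

lemma weight_step {d : ℕ} (s s' : Fin d → ℕ) :
    w s * ((al⁻¹) ^ (∑ j, (s' j - s j)) * (1 / 2) ^ (∑ j, (s j - s' j))) ≤ w s' * al ^ (dst s s') := by
  have hal := al_pos
  set u := ∑ j, (s' j - s j) with hu
  set v := ∑ j, (s j - s' j) with hv
  have h1 : ∑ j, s j + u = ∑ j, s' j + v := by
    rw [hu, hv, ← Finset.sum_add_distrib, ← Finset.sum_add_distrib]
    exact Finset.sum_congr rfl (fun j _ => by omega)
  have h2 : dst s s' = v + u := by
    unfold dst; rw [Finset.sum_add_distrib]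
  rw [h2]
  unfold w
  have h3 : (1 / 2 : ℝ) ^ v = al ^ (4 * v) := by rw [pow_mul, al_pow4]
  rw [h3]
  -- multiply everything by powers of al
  have h4 : (al⁻¹) ^ (2 * ∑ j, s j) * ((al⁻¹) ^ u * al ^ (4 * v))
      = (al⁻¹) ^ (2 * ∑ j, s' j) * al ^ (u + 2 * v) := by
    have h5 : al⁻¹ ^ (2 * ∑ j, s j) * al⁻¹ ^ (2 * u) = al⁻¹ ^ (2 * ∑ j, s' j) * al⁻¹ ^ (2 * v) := by
      rw [← pow_add, ← pow_add]; congr 1; omega
    have h6 : al⁻¹ ^ (2 * ∑ j, s j) = al⁻¹ ^ (2 * ∑ j, s' j) * al⁻¹ ^ (2 * v) * al ^ (2 * u) := by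
      rw [← h5, mul_assoc, ← mul_pow, inv_mul_cancel₀ hal.ne', one_pow, mul_one]
    rw [h6]
    have h7 : al⁻¹ ^ (2 * v) * al ^ (4 * v) = al ^ (2 * v) := by
      rw [show 4 * v = 2 * v + 2 * v by ring, pow_add, ← mul_assoc, ← mul_pow,
        inv_mul_cancel₀ hal.ne', one_pow, one_mul]
    have h8 : al ^ (2 * u) * al⁻¹ ^ u = al ^ u := by
      rw [show 2 * u = u + u by ring, pow_add, mul_assoc, ← mul_pow,
        mul_inv_cancel₀ hal.ne', one_pow, mul_one]
    calc al⁻¹ ^ (2 * ∑ j, s' j) * al⁻¹ ^ (2 * v) * al ^ (2 * u) * (al⁻¹ ^ u * al ^ (4 * v))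
        = al⁻¹ ^ (2 * ∑ j, s' j) * (al⁻¹ ^ (2 * v) * al ^ (4 * v)) * (al ^ (2 * u) * al⁻¹ ^ u) := by ring
      _ = al⁻¹ ^ (2 * ∑ j, s' j) * al ^ (u + 2 * v) := by rw [h7, h8, pow_add]; ring
  rw [h4]
  apply mul_le_mul_of_nonneg_left _ (by positivity)
  exact pow_le_pow_of_le_one hal.le al_lt_one.le (by omega)

lemma l2_pol_sq {d L : ℕ} {S : Finset (Fin d → ℤ)} (hS : ∀ k ∈ S, ∀ j, 2 * (k j).natAbs < 2 ^ L)
    (c : (Fin d → ℤ) → ℂ) : l2 (pol (L := L) S c) = Real.sqrt ((2 ^ L : ℝ) ^ d * ∑ k ∈ S, ‖c k‖ ^ 2) := by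
  unfold l2; rw [parseval hS]

lemma natAbs_lt_of_blk {d n : ℕ} {k : Fin d → ℤ} (hk : ∑ j, blk k j ≤ n) (j : Fin d) :
    (k j).natAbs < 2 ^ n := by
  have h1 : blk k j ≤ ∑ j, blk k j := Finset.single_le_sum (fun _ _ => Nat.zero_le _) (Finset.mem_univ j)
  calc (k j).natAbs < 2 ^ (Nat.size (k j).natAbs) := Nat.lt_size_self _
    _ ≤ 2 ^ n := Nat.pow_le_pow_right (by norm_num) (h1.trans hk)

lemma blk_le {d n : ℕ} {k : Fin d → ℤ} (hk : ∑ j, blk k j ≤ n) (j : Fin d) : blk k j ≤ n :=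
  (Finset.single_le_sum (fun _ _ => Nat.zero_le _) (Finset.mem_univ j)).trans hk

section Main

variable {d n : ℕ} {S : Finset (Fin d → ℤ)} (hS : ∀ k ∈ S, ∑ j, blk k j ≤ n) (c : (Fin d → ℤ) → ℂ)

include hS

lemma hS2 : ∀ k ∈ S, ∀ j, 2 * (k j).natAbs < 2 ^ (n + 4) := by
  intro k hk j
  have := natAbs_lt_of_blk (hS k hk) j
  calc 2 * (k j).natAbs < 2 * 2 ^ n := by omega
    _ ≤ 2 ^ (n + 4) := by rw [pow_add]; omega

lemma hScale : ∀ s ∈ S.image blk, (∑ j, s j ≤ n) ∧ ∀ j, s j + 4 ≤ n + 4 := by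
  intro s hs
  rw [Finset.mem_image] at hs
  obtain ⟨k, hk, rfl⟩ := hs
  exact ⟨hS k hk, fun j => by have := blk_le (hS k hk) j; omega⟩

lemma block_lower (s : Fin d → ℕ) (hs : s ∈ S.image blk) :
    l2 (pol (L := n + 4) (S.filter (fun k => blk k = s)) c) ≤ l2 (Dif s (pol (L := n + 4) S c)) := by
  have h1 : (Dif s (pol (L := n + 4) S c)) = pol (L := n + 4) S (fun k => c k * mul (n + 4) s k) := by
    funext x; exact Dif_pol s S c x
  rw [h1, l2_pol_sq (hS2 hS), l2_pol_sq (fun k hk => hS2 hS k (Finset.mem_of_mem_filter k hk))]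
  apply Real.sqrt_le_sqrt
  apply mul_le_mul_of_nonneg_left _ (by positivity)
  calc ∑ k ∈ S.filter (fun k => blk k = s), ‖c k‖ ^ 2
      ≤ ∑ k ∈ S.filter (fun k => blk k = s), ‖c k * mul (n + 4) s k‖ ^ 2 := by
        apply Finset.sum_le_sum
        intro k hk
        rw [Finset.mem_filter] at hk
        have h2 : 1 ≤ ‖mul (n + 4) s k‖ := mul_lower
          (fun j => by have := (hScale hS s hs).2 j; omega) (fun j => congrFun hk.2 j)
        rw [norm_mul]
        have h3 := norm_nonneg (c k)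
        gcongr
        nlinarith
    _ ≤ _ := Finset.sum_le_sum_of_subset_of_nonneg (Finset.filter_subset _ _) (fun _ _ _ => by positivity)

lemma block_upper (s s' : Fin d → ℕ) (hs : s ∈ S.image blk) :
    l2 (pol (L := n + 4) (S.filter (fun k => blk k = s')) (fun k => c k * mul (n + 4) s k))
      ≤ 4 ^ d * (1 / 2) ^ (∑ j, (s j - s' j)) * l2 (pol (L := n + 4) (S.filter (fun k => blk k = s')) c) := by
  have hf : ∀ k ∈ S.filter (fun k => blk k = s'), ∀ j, 2 * (k j).natAbs < 2 ^ (n + 4) :=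
    fun k hk => hS2 hS k (Finset.mem_of_mem_filter k hk)
  rw [l2_pol_sq hf, l2_pol_sq hf]
  set m : ℝ := 4 ^ d * (1 / 2) ^ (∑ j, (s j - s' j)) with hm
  have hm0 : 0 ≤ m := by positivity
  have h1 : m = Real.sqrt (m ^ 2) := (Real.sqrt_sq hm0).symm
  rw [h1, ← Real.sqrt_mul (by positivity)]
  apply Real.sqrt_le_sqrt
  have h2 : ∑ k ∈ S.filter (fun k => blk k = s'), ‖c k * mul (n + 4) s k‖ ^ 2
      ≤ m ^ 2 * ∑ k ∈ S.filter (fun k => blk k = s'), ‖c k‖ ^ 2 := by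
    rw [Finset.mul_sum]
    apply Finset.sum_le_sum
    intro k hk
    rw [Finset.mem_filter] at hk
    have h3 : ‖mul (n + 4) s k‖ ≤ m := mul_upper
      (fun j => by have := (hScale hS s hs).2 j; omega) (fun j => congrFun hk.2 j)
    rw [norm_mul, mul_pow, mul_comm]
    gcongr
  calc _ ≤ ((2:ℝ) ^ (n + 4)) ^ d * (m ^ 2 * ∑ k ∈ S.filter (fun k => blk k = s'), ‖c k‖ ^ 2) := by gcongr
    _ = _ := by ring

omit hS in
lemma pol_blocks {L : ℕ} (x : X d L) :
    pol S c x = ∑ s ∈ S.image blk, pol (S.filter (fun k => blk k = s)) c x := by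
  unfold pol
  exact (Finset.sum_fiberwise_of_maps_to (fun k hk => Finset.mem_image_of_mem blk hk) _).symm

/-- contribution of the bad set -/
lemma bad_part {ζ a : ℝ} (hζ : 0 ≤ ζ) (ha : 0 < a) {I : ℕ}
    (hI : ∀ x : X d (n + 4), ‖pol S c x‖ ≤ a * 2 ^ I) (s : Fin d → ℕ) (hs : s ∈ S.image blk) :
    l2 (fun x => if x ∈ Bs (ζ ^ 4 / 384 ^ d) a I (pol (L := n + 4) S c) s
        then Dif s (pol (L := n + 4) S c) x else 0)
      ≤ ∑ s' ∈ S.image blk, ζ * 4 ^ d * ((al⁻¹) ^ (∑ j, (s' j - s j)) * (1 / 2) ^ (∑ j, (s j - s' j)))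
          * l2 (pol (L := n + 4) (S.filter (fun k => blk k = s')) c) := by
  classical
  have hal := al_pos
  set B := Bs (ζ ^ 4 / 384 ^ d) a I (pol (L := n + 4) S c) s with hB
  have h1 : (fun x => if x ∈ B then Dif s (pol (L := n + 4) S c) x else 0)
      = fun x => ∑ s' ∈ S.image blk, (if x ∈ B then
        pol (S.filter (fun k => blk k = s')) (fun k => c k * mul (n + 4) s k) x else 0) := by
    funext x
    split_ifs
    · rw [Dif_pol, pol_blocks]
    · simp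
  rw [h1]
  refine (l2_sum_le _ _).trans ?_
  apply Finset.sum_le_sum
  intro s' hs'
  have h2 := Bs_l2 hζ ha hI (hScale hS s hs).2 (hScale hS s' hs').2
    (S := S.filter (fun k => blk k = s')) (fun k hk => (Finset.mem_filter.mp hk).2)
    (fun k => c k * mul (n + 4) s k)
  refine h2.trans ?_
  have h3 := block_upper hS c s s' hs
  calc ζ * al⁻¹ ^ (∑ j, (s' j - s j)) *
        l2 (pol (L := n + 4) (S.filter (fun k => blk k = s')) (fun k => c k * mul (n + 4) s k))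
      ≤ ζ * al⁻¹ ^ (∑ j, (s' j - s j)) * (4 ^ d * (1 / 2) ^ (∑ j, (s j - s' j))
        * l2 (pol (L := n + 4) (S.filter (fun k => blk k = s')) c)) := by gcongr
    _ = _ := by ring

omit hS in
/-- contribution of the good set -/
lemma good_part {η a : ℝ} (ha : 0 < a) {I : ℕ} (s : Fin d → ℕ) :
    l2 (fun x => if x ∈ Bs η a I (pol (L := n + 4) S c) s
        then 0 else Dif s (pol (L := n + 4) S c) x)
      ≤ 2 ^ d * l2 (fun x => ((phi η a I (pol (L := n + 4) S c) s x : ℝ) : ℂ)) := by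
  classical
  set t := pol (L := n + 4) S c with ht
  have h1 : ∀ x, ‖(if x ∈ Bs η a I t s then 0 else Dif s t x)‖
      ≤ ‖∑ J ∈ (Finset.univ : Finset (Fin d)).powerset, ((phi η a I t s (x + sh (n + 4) s J) : ℝ) : ℂ)‖ := by
    intro x
    rw [← Complex.ofReal_sum, Complex.norm_real, Real.norm_eq_abs, abs_of_nonneg
      (Finset.sum_nonneg (fun J _ => phi_nonneg ha I t s _))]
    split_ifs with hx
    · rw [norm_zero]; exact Finset.sum_nonneg (fun J _ => phi_nonneg ha I t s _)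
    · unfold Dif
      refine (norm_sum_le _ _).trans ?_
      apply Finset.sum_le_sum
      intro J hJ
      simp only [Bs, Finset.mem_filter, Finset.mem_univ, true_and, not_exists, not_and] at hx
      have h2 := hx J hJ
      simp only [B0, Finset.mem_filter, Finset.mem_univ, true_and, not_lt] at h2
      rw [norm_mul]
      have h3 := sg_norm s J
      have h4 := norm_nonneg (t (x + sh (n + 4) s J))
      nlinarith [norm_nonneg (sg s J)]
  refine (l2_mono h1).trans ((l2_sum_le _ _).trans ?_)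
  have h2 : ∀ J ∈ (Finset.univ : Finset (Fin d)).powerset,
      l2 (fun x => ((phi η a I t s (x + sh (n + 4) s J) : ℝ) : ℂ)) = l2 (fun x => ((phi η a I t s x : ℝ) : ℂ)) := by
    intro J _
    exact l2_comp_equiv (Equiv.addRight (sh (n + 4) s J)) (fun x => ((phi η a I t s x : ℝ) : ℂ))
  rw [Finset.sum_congr rfl h2, Finset.sum_const, Finset.card_powerset, Finset.card_univ, Fintype.card_fin,
    nsmul_eq_mul]
  push_cast
  exact le_refl _

end Main

/-- l2 norm of the truncation -/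
lemma phi_l2 {d L : ℕ} {η a : ℝ} (ha : 0 < a) (I : ℕ) (t : X d L → ℂ) (s : Fin d → ℕ) :
    l2 (fun x => ((phi η a I t s x : ℝ) : ℂ))
      ≤ a * Real.sqrt ((2 ^ L) ^ d) + ∑ i ∈ Finset.range I,
        a * 2 ^ i * Real.sqrt (((dense η s (Lev t a i)).card : ℝ) * csz L s) := by
  classical
  have h1 : (fun x => ((phi η a I t s x : ℝ) : ℂ))
      = fun x : X d L => (a : ℂ) * 1 + ∑ i ∈ Finset.range I,
        (((a * 2 ^ i : ℝ) : ℂ) * (if x ∈ Lev t a i ∧ x ∈ Fs η s (Lev t a i) then 1 else 0)) := by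
    funext x
    unfold phi
    push_cast
    rw [mul_one]
    congr 1
    apply Finset.sum_congr rfl
    intro i _
    split_ifs <;> simp
  rw [h1]
  refine (l2_add_le _ _).trans ?_
  have h2 : l2 (fun _ : X d L => (a : ℂ) * 1) = a * Real.sqrt ((2 ^ L) ^ d) := by
    rw [l2_smul a ha.le (fun _ => 1)]
    congr 1
    unfold l2
    congr 1
    simp
  rw [h2]
  have h3 := l2_sum_le (Finset.range I) (fun i (x : X d L) =>
        (((a * 2 ^ i : ℝ) : ℂ) * (if x ∈ Lev t a i ∧ x ∈ Fs η s (Lev t a i) then 1 else 0)))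
  have h4 : ∀ i ∈ Finset.range I, l2 (fun x : X d L =>
      (((a * 2 ^ i : ℝ) : ℂ) * (if x ∈ Lev t a i ∧ x ∈ Fs η s (Lev t a i) then 1 else 0)))
      ≤ a * 2 ^ i * Real.sqrt (((dense η s (Lev t a i)).card : ℝ) * csz L s) := by
    intro i _
    rw [l2_smul (a * 2 ^ i) (by positivity)]
    apply mul_le_mul_of_nonneg_left _ (by positivity)
    unfold l2
    apply Real.sqrt_le_sqrt
    have h5 : ∑ x : X d L, ‖(if x ∈ Lev t a i ∧ x ∈ Fs η s (Lev t a i) then (1:ℂ) else 0)‖ ^ 2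
        = ((Finset.univ.filter (fun x => x ∈ Lev t a i ∧ x ∈ Fs η s (Lev t a i))).card : ℝ) := by
      have h6 : ∀ x : X d L, ‖(if x ∈ Lev t a i ∧ x ∈ Fs η s (Lev t a i) then (1:ℂ) else 0)‖ ^ 2
          = if x ∈ Lev t a i ∧ x ∈ Fs η s (Lev t a i) then (1:ℝ) else 0 := by
        intro x; split_ifs <;> simp
      simp_rw [h6]
      rw [← Finset.sum_filter, Finset.sum_const, nsmul_eq_mul, mul_one]
    rw [h5]
    have h6 : (Finset.univ.filter (fun x => x ∈ Lev t a i ∧ x ∈ Fs η s (Lev t a i))).card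
        ≤ (Fs η s (Lev t a i)).card := by
      apply Finset.card_le_card
      intro x hx
      exact (Finset.mem_filter.mp hx).2.2
    have h7 := h6.trans (Fs_card_le η s (Lev t a i))
    exact_mod_cast h7
  linarith [h3, Finset.sum_le_sum h4]

end Pool.Agent.Helper145.Hyp
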