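import Pool.Agent.Helper145.Hyp7

set_option autoImplicit false
open Finset

namespace Pool.Agent.Helper145.Hyp

lemma blk1_card (s : ℕ) (T : Finset ℤ) (hT : ∀ k ∈ T, Nat.size k.natAbs = s) : T.card ≤ 2 ^ s := by
  rcases Nat.eq_zero_or_pos s with h | h
  · subst h
    have : T ⊆ {0} := by
      intro k hk
      have := hT k hk
      rw [Nat.size_eq_zero] at this
      simpa using this
    exact (Finset.card_le_card this).trans (by simp)
  · have h1 : T ⊆ (Finset.Ico (2 ^ (s - 1)) (2 ^ s)).image (fun m : ℕ => (m : ℤ))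
        ∪ (Finset.Ico (2 ^ (s - 1)) (2 ^ s)).image (fun m : ℕ => (-(m : ℤ))) := by
      intro k hk
      have h2 := hT k hk
      have h3 : 2 ^ (s - 1) ≤ k.natAbs := by rw [← Nat.lt_size]; omega
      have h4 : k.natAbs < 2 ^ s := by rw [← h2]; exact Nat.lt_size_self _
      rw [Finset.mem_union, Finset.mem_image, Finset.mem_image]
      rcases Int.natAbs_eq k with h5 | h5
      · left; exact ⟨k.natAbs, Finset.mem_Ico.mpr ⟨h3, h4⟩, h5.symm⟩
      · right; exact ⟨k.natAbs, Finset.mem_Ico.mpr ⟨h3, h4⟩, h5.symm⟩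
    refine (Finset.card_le_card h1).trans ((Finset.card_union_le _ _).trans ?_)
    have h2 : ((Finset.Ico (2 ^ (s - 1)) (2 ^ s)).image (fun m : ℕ => (m : ℤ))).card ≤ 2 ^ s - 2 ^ (s - 1) :=
      Finset.card_image_le.trans (by rw [Nat.card_Ico])
    have h3 : ((Finset.Ico (2 ^ (s - 1)) (2 ^ s)).image (fun m : ℕ => (-(m : ℤ)))).card ≤ 2 ^ s - 2 ^ (s - 1) :=
      Finset.card_image_le.trans (by rw [Nat.card_Ico])
    have h4 : 2 ^ s = 2 * 2 ^ (s - 1) := by rw [← pow_succ']; congr 1; omega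
    omega

lemma blk_card {d : ℕ} (s : Fin d → ℕ) (T : Finset (Fin d → ℤ)) (hT : ∀ k ∈ T, blk k = s) :
    T.card ≤ 2 ^ (∑ j, s j) := by
  classical
  have h1 : T ⊆ Fintype.piFinset (fun j => T.image (fun k => k j)) := by
    intro k hk
    rw [Fintype.mem_piFinset]
    intro j
    exact Finset.mem_image.mpr ⟨k, hk, rfl⟩
  refine (Finset.card_le_card h1).trans ?_
  rw [Fintype.card_piFinset, ← Finset.prod_pow_eq_pow_sum]
  apply Finset.prod_le_prod (fun _ _ => Nat.zero_le _)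
  intro j _
  apply blk1_card
  intro z hz
  rw [Finset.mem_image] at hz
  obtain ⟨k, hk, rfl⟩ := hz
  exact congrFun (hT k hk) j

/-- small parameter -/
noncomputable def ze (d : ℕ) : ℝ := 1 / (2 * 4 ^ d * K1 ^ d)

lemma ze_pos (d : ℕ) : 0 < ze d := by unfold ze; have := K1_pos; positivity

/-- density threshold -/
noncomputable def et (d : ℕ) : ℝ := ze d ^ 4 / 384 ^ d

lemma et_pos (d : ℕ) : 0 < et d := by unfold et; have := ze_pos d; positivity

lemma sum_dense_le {d n : ℕ} {η : ℝ} (hη : 0 < η) (T : Finset (Fin d → ℕ))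
    (hT : ∀ s ∈ T, (∑ j, s j ≤ n) ∧ ∀ j, s j + 4 ≤ n + 4) (E : Finset (X d (n + 4))) :
    (∑ s ∈ T, Real.sqrt ((dense η s E).card : ℝ)) * (η ^ 2 * (2 ^ (n + 4)) ^ d)
      ≤ 2 * K1 ^ d * 2 ^ n * (E.card : ℝ) := by
  classical
  have h1 : ∑ s ∈ T, Real.sqrt ((dense η s E).card : ℝ)
      = ∑ m ∈ Finset.range (n + 1), ∑ s ∈ T.filter (fun s => ∑ j, s j = m),
        Real.sqrt ((dense η s E).card : ℝ) := by
    rw [Finset.sum_fiberwise_of_maps_to]
    intro s hs
    rw [Finset.mem_range]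
    exact Nat.lt_succ_of_le (hT s hs).1
  rw [h1, Finset.sum_mul]
  calc _ ≤ ∑ m ∈ Finset.range (n + 1), K1 ^ d * 2 ^ m * (E.card : ℝ) := by
        apply Finset.sum_le_sum
        intro m _
        apply geo_lemma hη
        · intro s hs; exact (Finset.mem_filter.mp hs).2
        · intro s hs j
          have := (hT s (Finset.mem_filter.mp hs).1).2 j
          omega
    _ = K1 ^ d * (2 ^ (n + 1) - 1) * (E.card : ℝ) := by
        rw [← Finset.sum_mul, ← Finset.mul_sum, sum_pow_two]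
    _ ≤ K1 ^ d * (2 * 2 ^ n) * (E.card : ℝ) := by
        have := K1_pos
        gcongr
        rw [pow_succ]; linarith
    _ = _ := by ring

lemma level_sum {d L : ℕ} {a : ℝ} (ha : 0 < a) (I : ℕ) (t : X d L → ℂ) :
    ∑ i ∈ Finset.range I, a * 2 ^ i * ((Lev t a i).card : ℝ) ≤ 2 * ∑ x, ‖t x‖ := by
  have h1 : ∀ i ∈ Finset.range I, a * 2 ^ i * ((Lev t a i).card : ℝ)
      = ∑ x : X d L, (if a * 2 ^ i < ‖t x‖ then a * 2 ^ i else 0) := by
    intro i _
    rw [← Finset.sum_filter, Finset.sum_const, nsmul_eq_mul, mul_comm]; rfl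
  rw [Finset.sum_congr rfl h1, Finset.sum_comm, Finset.mul_sum]
  exact Finset.sum_le_sum (fun x _ => level_le ha (norm_nonneg _) I)

lemma w_sqrt {d n : ℕ} {s : Fin d → ℕ} (hs : ∀ j, s j + 4 ≤ n + 4) (N : ℝ) (_hN : 0 ≤ N) :
    w s * Real.sqrt (N * csz (n + 4) s) = Real.sqrt ((2 ^ (n + 4)) ^ d) * Real.sqrt N := by
  have h1 : w s = Real.sqrt (2 ^ (∑ j, s j)) := by
    rw [← w_sq, Real.sqrt_sq (w_pos s).le]
  have h2 := csz_mul (L := n + 4) (s := s) (fun j => by have := hs j; omega)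
  have h3 : (csz (n + 4) s : ℝ) * 2 ^ (∑ j, s j) = (2 ^ (n + 4)) ^ d := by exact_mod_cast h2
  rw [h1, ← Real.sqrt_mul (by positivity), ← h3, ← Real.sqrt_mul (by positivity)]
  congr 1; ring

/-- the weighted block sum -/
noncomputable def YY {d : ℕ} (n : ℕ) (S : Finset (Fin d → ℤ)) (c : (Fin d → ℤ) → ℂ) : ℝ :=
  ∑ s ∈ S.image blk, w s * l2 (pol (L := n + 4) (S.filter (fun k => blk k = s)) c)

lemma YY_bound {d n : ℕ} {S : Finset (Fin d → ℤ)} (hS : ∀ k ∈ S, ∑ j, blk k j ≤ n)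
    (c : (Fin d → ℤ) → ℂ) {a : ℝ} (ha : 0 < a) {I : ℕ}
    (hI : ∀ x : X d (n + 4), ‖pol S c x‖ ≤ a * 2 ^ I) :
    YY n S c * ((2 ^ (n + 4)) ^ d * et d ^ 2) ≤ 2 ^ (d + 1) * Real.sqrt ((2 ^ (n + 4)) ^ d) *
      (a * (∑ s ∈ S.image blk, w s) * ((2 ^ (n + 4)) ^ d * et d ^ 2)
        + 4 * K1 ^ d * 2 ^ n * ∑ x : X d (n + 4), ‖pol S c x‖) := by
  classical
  set V : ℝ := (2 ^ (n + 4)) ^ d with hV
  have hVpos : 0 < V := by rw [hV]; positivity
  set t := pol (L := n + 4) S c with ht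
  set y : (Fin d → ℕ) → ℝ := fun s => l2 (pol (L := n + 4) (S.filter (fun k => blk k = s)) c) with hy
  have hy0 : ∀ s, 0 ≤ y s := fun s => l2_nonneg _
  have hK := K1_pos
  have hz := ze_pos d
  have hη := et_pos d
  set 𝒮 := S.image blk with h𝒮
  -- each block
  have h1 : ∀ s ∈ 𝒮, w s * y s ≤ w s * (2 ^ d * l2 (fun x => ((phi (et d) a I t s x : ℝ) : ℂ)))
      + w s * ∑ s' ∈ 𝒮, ze d * 4 ^ d * ((al⁻¹) ^ (∑ j, (s' j - s j)) * (1 / 2) ^ (∑ j, (s j - s' j))) * y s' := by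
    intro s hs
    rw [← mul_add]
    apply mul_le_mul_of_nonneg_left _ (w_pos s).le
    refine (block_lower hS c s hs).trans ?_
    have h2 : Dif s t = fun x => (if x ∈ Bs (et d) a I t s then 0 else Dif s t x)
        + (if x ∈ Bs (et d) a I t s then Dif s t x else 0) := by
      funext x; split_ifs <;> simp
    rw [h2]
    refine (l2_add_le _ _).trans ?_
    exact add_le_add (good_part c ha s) (bad_part hS c hz.le ha hI s hs)
  -- bad part total
  have hbad : ∑ s ∈ 𝒮, w s * ∑ s' ∈ 𝒮, ze d * 4 ^ d *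
      ((al⁻¹) ^ (∑ j, (s' j - s j)) * (1 / 2) ^ (∑ j, (s j - s' j))) * y s' ≤ (1 / 2) * YY n S c := by
    calc _ = ∑ s ∈ 𝒮, ∑ s' ∈ 𝒮, ze d * 4 ^ d * y s' *
          (w s * ((al⁻¹) ^ (∑ j, (s' j - s j)) * (1 / 2) ^ (∑ j, (s j - s' j)))) := by
          apply Finset.sum_congr rfl; intro s _
          rw [Finset.mul_sum]
          apply Finset.sum_congr rfl; intro s' _
          ring
      _ ≤ ∑ s ∈ 𝒮, ∑ s' ∈ 𝒮, ze d * 4 ^ d * y s' * (w s' * al ^ (dst s' s)) := by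
          apply Finset.sum_le_sum; intro s _
          apply Finset.sum_le_sum; intro s' _
          have h3 := weight_step s s'
          have h4 : dst s s' = dst s' s := by
            unfold dst; exact Finset.sum_congr rfl (fun j _ => add_comm _ _)
          rw [h4] at h3
          have := hy0 s'
          gcongr
      _ = ∑ s' ∈ 𝒮, ze d * 4 ^ d * y s' * (w s' * ∑ s ∈ 𝒮, al ^ (dst s' s)) := by
          rw [Finset.sum_comm]
          apply Finset.sum_congr rfl; intro s' _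
          rw [Finset.mul_sum, Finset.mul_sum]
      _ ≤ ∑ s' ∈ 𝒮, ze d * 4 ^ d * y s' * (w s' * K1 ^ d) := by
          apply Finset.sum_le_sum; intro s' _
          have h5 := sum_dst_le (n + 1) 𝒮 (fun s hs j => by
            have := (hScale hS s hs).2 j; omega) s'
          have := hy0 s'
          have := w_pos s'
          gcongr
      _ = (ze d * 4 ^ d * K1 ^ d) * YY n S c := by
          unfold YY
          rw [Finset.mul_sum]
          apply Finset.sum_congr rfl; intro s' _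
          simp only [hy]
          ring
      _ = (1 / 2) * YY n S c := by
          congr 1
          unfold ze
          field_simp
  -- good part total
  have hgood : (∑ s ∈ 𝒮, w s * (2 ^ d * l2 (fun x => ((phi (et d) a I t s x : ℝ) : ℂ)))) * (V * et d ^ 2)
      ≤ 2 ^ d * Real.sqrt V * (a * (∑ s ∈ 𝒮, w s) * (V * et d ^ 2)
        + 4 * K1 ^ d * 2 ^ n * ∑ x : X d (n + 4), ‖t x‖) := by
    have h2 : ∀ s ∈ 𝒮, w s * (2 ^ d * l2 (fun x => ((phi (et d) a I t s x : ℝ) : ℂ)))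
        ≤ 2 ^ d * Real.sqrt V * (a * w s + ∑ i ∈ Finset.range I,
          a * 2 ^ i * Real.sqrt ((dense (et d) s (Lev t a i)).card : ℝ)) := by
      intro s hs
      have h3 := phi_l2 (η := et d) ha I t s
      have hw := w_pos s
      calc w s * (2 ^ d * l2 (fun x => ((phi (et d) a I t s x : ℝ) : ℂ)))
          ≤ w s * (2 ^ d * (a * Real.sqrt V + ∑ i ∈ Finset.range I,
            a * 2 ^ i * Real.sqrt (((dense (et d) s (Lev t a i)).card : ℝ) * csz (n + 4) s))) := by gcongr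
        _ = 2 ^ d * (a * w s * Real.sqrt V + ∑ i ∈ Finset.range I,
            a * 2 ^ i * (w s * Real.sqrt (((dense (et d) s (Lev t a i)).card : ℝ) * csz (n + 4) s))) := by
            have h4 : ∑ i ∈ Finset.range I,
              a * 2 ^ i * (w s * Real.sqrt (((dense (et d) s (Lev t a i)).card : ℝ) * csz (n + 4) s))
              = w s * ∑ i ∈ Finset.range I,
              a * 2 ^ i * Real.sqrt (((dense (et d) s (Lev t a i)).card : ℝ) * csz (n + 4) s) := by
              rw [Finset.mul_sum]; apply Finset.sum_congr rfl; intro i _; ring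
            rw [h4]; ring
        _ = _ := by
            have h4 : ∀ i ∈ Finset.range I,
              a * 2 ^ i * (w s * Real.sqrt (((dense (et d) s (Lev t a i)).card : ℝ) * csz (n + 4) s))
              = Real.sqrt V * (a * 2 ^ i * Real.sqrt ((dense (et d) s (Lev t a i)).card : ℝ)) := by
              intro i _
              rw [w_sqrt (hScale hS s hs).2 _ (Nat.cast_nonneg _)]; ring
            rw [Finset.sum_congr rfl h4, ← Finset.mul_sum]; ring
    calc _ ≤ (∑ s ∈ 𝒮, 2 ^ d * Real.sqrt V * (a * w s + ∑ i ∈ Finset.range I,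
          a * 2 ^ i * Real.sqrt ((dense (et d) s (Lev t a i)).card : ℝ))) * (V * et d ^ 2) := by
          apply mul_le_mul_of_nonneg_right (Finset.sum_le_sum h2) (by positivity)
      _ = 2 ^ d * Real.sqrt V * (a * (∑ s ∈ 𝒮, w s) * (V * et d ^ 2)
          + ∑ i ∈ Finset.range I, a * 2 ^ i *
            ((∑ s ∈ 𝒮, Real.sqrt ((dense (et d) s (Lev t a i)).card : ℝ)) * (et d ^ 2 * V))) := by
          rw [← Finset.mul_sum, Finset.sum_add_distrib, Finset.sum_comm, ← Finset.mul_sum]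
          have h5 : ∑ i ∈ Finset.range I, a * 2 ^ i *
            ((∑ s ∈ 𝒮, Real.sqrt ((dense (et d) s (Lev t a i)).card : ℝ)) * (et d ^ 2 * V))
            = (∑ i ∈ Finset.range I, ∑ s ∈ 𝒮, a * 2 ^ i * Real.sqrt ((dense (et d) s (Lev t a i)).card : ℝ))
              * (V * et d ^ 2) := by
            rw [Finset.sum_mul]
            apply Finset.sum_congr rfl; intro i _
            rw [← Finset.mul_sum]; ring
          rw [h5]; ring
      _ ≤ 2 ^ d * Real.sqrt V * (a * (∑ s ∈ 𝒮, w s) * (V * et d ^ 2)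
          + ∑ i ∈ Finset.range I, a * 2 ^ i * (2 * K1 ^ d * 2 ^ n * ((Lev t a i).card : ℝ))) := by
          have h6 : ∀ i ∈ Finset.range I, a * 2 ^ i *
            ((∑ s ∈ 𝒮, Real.sqrt ((dense (et d) s (Lev t a i)).card : ℝ)) * (et d ^ 2 * V))
            ≤ a * 2 ^ i * (2 * K1 ^ d * 2 ^ n * ((Lev t a i).card : ℝ)) := by
            intro i _
            apply mul_le_mul_of_nonneg_left _ (by positivity)
            exact sum_dense_le hη 𝒮 (hScale hS) (Lev t a i)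
          have h7 := Finset.sum_le_sum h6
          gcongr
      _ ≤ _ := by
          have h8 : ∑ i ∈ Finset.range I, a * 2 ^ i * (2 * K1 ^ d * 2 ^ n * ((Lev t a i).card : ℝ))
              = 2 * K1 ^ d * 2 ^ n * ∑ i ∈ Finset.range I, a * 2 ^ i * ((Lev t a i).card : ℝ) := by
            rw [Finset.mul_sum]; apply Finset.sum_congr rfl; intro i _; ring
          rw [h8]
          have h9 := level_sum ha I t
          have h10 : 2 * K1 ^ d * 2 ^ n * ∑ i ∈ Finset.range I, a * 2 ^ i * ((Lev t a i).card : ℝ)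
              ≤ 4 * K1 ^ d * 2 ^ n * ∑ x : X d (n + 4), ‖t x‖ := by
            calc _ ≤ 2 * K1 ^ d * 2 ^ n * (2 * ∑ x, ‖t x‖) := by gcongr
              _ = _ := by ring
          gcongr
  have h2 : YY n S c ≤ (∑ s ∈ 𝒮, w s * (2 ^ d * l2 (fun x => ((phi (et d) a I t s x : ℝ) : ℂ))))
      + (1 / 2) * YY n S c := by
    have h3 : YY n S c = ∑ s ∈ 𝒮, w s * y s := rfl
    calc YY n S c = ∑ s ∈ 𝒮, w s * y s := h3
      _ ≤ ∑ s ∈ 𝒮, (w s * (2 ^ d * l2 (fun x => ((phi (et d) a I t s x : ℝ) : ℂ)))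
        + w s * ∑ s' ∈ 𝒮, ze d * 4 ^ d * ((al⁻¹) ^ (∑ j, (s' j - s j)) * (1 / 2) ^ (∑ j, (s j - s' j))) * y s') :=
          Finset.sum_le_sum h1
      _ ≤ _ := by rw [Finset.sum_add_distrib]; linarith
  have h3 : YY n S c ≤ 2 * (∑ s ∈ 𝒮, w s * (2 ^ d * l2 (fun x => ((phi (et d) a I t s x : ℝ) : ℂ)))) := by
    linarith
  calc YY n S c * (V * et d ^ 2) ≤ (2 * (∑ s ∈ 𝒮, w s * (2 ^ d *
        l2 (fun x => ((phi (et d) a I t s x : ℝ) : ℂ))))) * (V * et d ^ 2) := by gcongr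
    _ = 2 * ((∑ s ∈ 𝒮, w s * (2 ^ d * l2 (fun x => ((phi (et d) a I t s x : ℝ) : ℂ)))) * (V * et d ^ 2)) := by ring
    _ ≤ 2 * (2 ^ d * Real.sqrt V * (a * (∑ s ∈ 𝒮, w s) * (V * et d ^ 2)
        + 4 * K1 ^ d * 2 ^ n * ∑ x : X d (n + 4), ‖t x‖)) := by gcongr
    _ = _ := by rw [pow_succ]; ring

lemma coef_le_YY {d n : ℕ} {S : Finset (Fin d → ℤ)} (hS : ∀ k ∈ S, ∑ j, blk k j ≤ n)
    (c : (Fin d → ℤ) → ℂ) :
    Real.sqrt ((2 ^ (n + 4)) ^ d) * ∑ k ∈ S, ‖c k‖ ≤ YY n S c := by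
  classical
  have h1 : ∑ k ∈ S, ‖c k‖ = ∑ s ∈ S.image blk, ∑ k ∈ S.filter (fun k => blk k = s), ‖c k‖ :=
    (Finset.sum_fiberwise_of_maps_to (fun k hk => Finset.mem_image_of_mem blk hk) _).symm
  rw [h1, Finset.mul_sum]
  unfold YY
  apply Finset.sum_le_sum
  intro s _
  rw [l2_pol_sq (fun k hk => hS2 hS k (Finset.mem_of_mem_filter k hk)), Real.sqrt_mul (by positivity)]
  have h2 : ∑ k ∈ S.filter (fun k => blk k = s), ‖c k‖
      ≤ w s * Real.sqrt (∑ k ∈ S.filter (fun k => blk k = s), ‖c k‖ ^ 2) := by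
    apply le_of_sq_le_sq _ (mul_nonneg (w_pos s).le (Real.sqrt_nonneg _))
    rw [mul_pow, Real.sq_sqrt (Finset.sum_nonneg (fun _ _ => by positivity)), w_sq]
    refine sq_sum_le_card_mul_sum_sq.trans ?_
    have h3 := blk_card s (S.filter (fun k => blk k = s)) (fun k hk => (Finset.mem_filter.mp hk).2)
    have h4 : ((S.filter (fun k => blk k = s)).card : ℝ) ≤ 2 ^ (∑ j, s j) := by exact_mod_cast h3
    gcongr
  calc _ ≤ Real.sqrt ((2 ^ (n + 4)) ^ d) * (w s * Real.sqrt (∑ k ∈ S.filter (fun k => blk k = s), ‖c k‖ ^ 2)) := by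
        gcongr
    _ = _ := by ring

/-- the finite group form of the main inequality -/
theorem finite_main (d : ℕ) : ∃ C : ℝ, 0 < C ∧ ∀ (n : ℕ) (S : Finset (Fin d → ℤ)),
    (∀ k ∈ S, ∑ j, blk k j ≤ n) → ∀ c : (Fin d → ℤ) → ℂ,
    ∑ k ∈ S, ‖c k‖ ≤ C * 2 ^ n * ((((2:ℝ) ^ (n + 4)) ^ d)⁻¹ * ∑ x : X d (n + 4), ‖pol S c x‖) := by
  have hK := K1_pos
  have hη := et_pos d
  refine ⟨2 ^ (d + 1) * (4 * K1 ^ d) / et d ^ 2, by positivity, ?_⟩
  intro n S hS c
  set V : ℝ := (2 ^ (n + 4)) ^ d with hV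
  have hVpos : 0 < V := by rw [hV]; positivity
  set A : ℝ := ∑ x : X d (n + 4), ‖pol S c x‖ with hA
  have hA0 : 0 ≤ A := Finset.sum_nonneg (fun _ _ => norm_nonneg _)
  set W : ℝ := ∑ s ∈ S.image blk, w s with hW
  have hW0 : 0 ≤ W := Finset.sum_nonneg (fun s _ => (w_pos s).le)
  -- inequality for each small a
  have h1 : ∀ a : ℝ, 0 < a → ∑ k ∈ S, ‖c k‖ ≤ 2 ^ (d + 1) * W * a
      + 2 ^ (d + 1) * (4 * K1 ^ d) / et d ^ 2 * 2 ^ n * (V⁻¹ * A) := by
    intro a ha
    obtain ⟨I, hI⟩ : ∃ I : ℕ, A ≤ a * 2 ^ I := by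
      obtain ⟨I, hI⟩ := pow_unbounded_of_one_lt (A / a) (show (1:ℝ) < 2 by norm_num)
      exact ⟨I, by rw [div_lt_iff₀ ha] at hI; linarith⟩
    have hI2 : ∀ x : X d (n + 4), ‖pol S c x‖ ≤ a * 2 ^ I := by
      intro x
      refine le_trans ?_ hI
      exact Finset.single_le_sum (f := fun x : X d (n + 4) => ‖pol S c x‖)
        (fun _ _ => norm_nonneg _) (Finset.mem_univ x)
    have h2 := YY_bound hS c ha hI2
    have h3 := coef_le_YY hS c
    rw [← hV, ← hA, ← hW] at h2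
    rw [← hV] at h3
    have hsq : 0 < Real.sqrt V := Real.sqrt_pos.mpr hVpos
    have h4 : Real.sqrt V * (∑ k ∈ S, ‖c k‖) * (V * et d ^ 2)
        ≤ Real.sqrt V * (2 ^ (d + 1) * (a * W * (V * et d ^ 2) + 4 * K1 ^ d * 2 ^ n * A)) := by
      calc _ ≤ YY n S c * (V * et d ^ 2) := by gcongr
        _ ≤ _ := h2
        _ = _ := by ring
    have h5 : (∑ k ∈ S, ‖c k‖) * (V * et d ^ 2)
        ≤ 2 ^ (d + 1) * (a * W * (V * et d ^ 2) + 4 * K1 ^ d * 2 ^ n * A) := by
      rw [mul_assoc] at h4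
      exact le_of_mul_le_mul_left h4 hsq
    have h6 : 0 < V * et d ^ 2 := by positivity
    rw [← le_div_iff₀ h6] at h5
    refine h5.trans (le_of_eq ?_)
    field_simp
  -- let a tend to zero
  apply le_of_forall_pos_le_add
  intro ε hε
  have hM : 0 < 2 ^ (d + 1) * W + 1 := by positivity
  have h2 := h1 (ε / (2 ^ (d + 1) * W + 1)) (by positivity)
  have h3 : 2 ^ (d + 1) * W * (ε / (2 ^ (d + 1) * W + 1)) ≤ ε := by
    rw [← mul_div_assoc, div_le_iff₀ hM]
    nlinarith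
  linarith

end Pool.Agent.Helper145.Hyp
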