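import Pool.Agent.Helper145.Hyp8

set_option autoImplicit false
open Finset MeasureTheory

namespace Pool.Agent.Helper145.Hyp

instance fact2pi : Fact (0 < 2 * Real.pi) := ⟨Real.two_pi_pos⟩

/-- the torus -/
abbrev Tor (d : ℕ) : Type := Fin d → AddCircle (2 * Real.pi)

/-- character on the torus -/
noncomputable def tch {d : ℕ} (k : Fin d → ℤ) (z : Tor d) : ℂ := ∏ j, fourier (k j) (z j)

/-- trigonometric polynomial on the torus -/
noncomputable def tpol {d : ℕ} (S : Finset (Fin d → ℤ)) (c : (Fin d → ℤ) → ℂ) (z : Tor d) : ℂ :=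
  ∑ k ∈ S, c k * tch k z

lemma tch_norm {d : ℕ} (k : Fin d → ℤ) (z : Tor d) : ‖tch k z‖ = 1 := by
  unfold tch
  rw [norm_prod]
  apply Finset.prod_eq_one
  intro j _
  exact Circle.norm_coe _

lemma tch_add {d : ℕ} (k : Fin d → ℤ) (z h : Tor d) : tch k (z + h) = tch k z * tch k h := by
  unfold tch
  rw [← Finset.prod_mul_distrib]
  apply Finset.prod_congr rfl
  intro j _
  simp only [Pi.add_apply, fourier_apply, smul_add, AddCircle.toCircle_add, Circle.coe_mul]

lemma tpol_cont {d : ℕ} (S : Finset (Fin d → ℤ)) (c : (Fin d → ℤ) → ℂ) : Continuous (tpol S c) := by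
  unfold tpol tch
  fun_prop

/-- the grid point of the torus -/
noncomputable def gp {d L : ℕ} (a : X d L) : Tor d :=
  fun j => ((2 * Real.pi * ((a j).val : ℝ) / 2 ^ L : ℝ) : AddCircle (2 * Real.pi))

lemma tch_gp {d L : ℕ} (k : Fin d → ℤ) (a : X d L) : tch k (gp a) = chi k a := by
  unfold tch chi gp
  apply Finset.prod_congr rfl
  intro j _
  have h1 : a j = (((a j).val : ℕ) : ZMod (2 ^ L)) := (ZMod.natCast_zmod_val (a j)).symm
  conv_rhs => rw [h1]
  rw [ps_eq_exp, fourier_coe_apply]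
  congr 1
  have : ((2 * Real.pi : ℝ) : ℂ) ≠ 0 := by exact_mod_cast Real.two_pi_pos.ne'
  rw [div_eq_iff this]
  push_cast
  ring

lemma tpol_shift {d L : ℕ} (S : Finset (Fin d → ℤ)) (c : (Fin d → ℤ) → ℂ) (z : Tor d) (a : X d L) :
    tpol S c (z + gp a) = pol S (fun k => c k * tch k z) a := by
  unfold tpol pol
  apply Finset.sum_congr rfl
  intro k _
  rw [tch_add, tch_gp]; ring

/-- averaging identity -/
lemma avg_identity {d : ℕ} (L : ℕ) (S : Finset (Fin d → ℤ)) (c : (Fin d → ℤ) → ℂ) :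
    ∫ z : Tor d, ‖tpol S c z‖
      = ∫ z : Tor d, (((2:ℝ) ^ L) ^ d)⁻¹ * ∑ a : X d L, ‖pol S (fun k => c k * tch k z) a‖ := by
  have hcont : Continuous (fun z : Tor d => ‖tpol S c z‖) := (tpol_cont S c).norm
  have hint : Integrable (fun z : Tor d => ‖tpol S c z‖) :=
    hcont.integrable_of_hasCompactSupport (HasCompactSupport.of_compactSpace _)
  rw [integral_const_mul]
  have h1 : ∀ a : X d L, ∫ z : Tor d, ‖pol S (fun k => c k * tch k z) a‖ = ∫ z : Tor d, ‖tpol S c z‖ := by
    intro a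
    rw [← integral_add_right_eq_self (fun z : Tor d => ‖tpol S c z‖) (gp a)]
    simp_rw [tpol_shift]
  rw [integral_finsetSum]
  · simp_rw [h1]
    rw [Finset.sum_const, Finset.card_univ, nsmul_eq_mul]
    have : ((Fintype.card (X d L) : ℕ) : ℝ) = (2 ^ L) ^ d := by
      simp [X, ZMod.card]
    rw [this, ← mul_assoc, inv_mul_cancel₀ (by positivity), one_mul]
  · intro a _
    have : (fun z : Tor d => ‖pol S (fun k => c k * tch k z) a‖) = fun z => ‖tpol S c (z + gp a)‖ := by
      funext z; rw [tpol_shift]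
    rw [this]
    exact hint.comp_add_right (gp a)

/-- total mass of the torus -/
lemma tor_mass (d : ℕ) : (volume : Measure (Tor d)).real Set.univ = (2 * Real.pi) ^ d := by
  have : (Set.univ : Set (Tor d)) = Set.pi Set.univ (fun _ => Set.univ) := by simp
  rw [Measure.real, this, volume_pi, Measure.pi_pi]
  simp only [AddCircle.measure_univ, Finset.prod_const, Finset.card_univ, Fintype.card_fin]
  rw [ENNReal.toReal_pow, ENNReal.toReal_ofReal Real.two_pi_pos.le]

/-- main inequality on the torus -/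
theorem torus_main (d : ℕ) : ∃ C : ℝ, 0 < C ∧ ∀ (n : ℕ) (S : Finset (Fin d → ℤ)),
    (∀ k ∈ S, ∑ j, blk k j ≤ n) → ∀ c : (Fin d → ℤ) → ℂ,
    (2 * Real.pi) ^ d * ∑ k ∈ S, ‖c k‖ ≤ C * 2 ^ n * ∫ z : Tor d, ‖tpol S c z‖ := by
  obtain ⟨C, hC, h⟩ := finite_main d
  refine ⟨C, hC, fun n S hS c => ?_⟩
  rw [avg_identity (n + 4)]
  rw [← integral_const_mul, ← tor_mass]
  have h1 : ∫ _ : Tor d, (∑ k ∈ S, ‖c k‖) = (volume : Measure (Tor d)).real Set.univ * ∑ k ∈ S, ‖c k‖ := by
    rw [integral_const, smul_eq_mul]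
  rw [← h1]
  apply integral_mono
  · exact integrable_const _
  · have h2 : Continuous (fun z : Tor d => C * 2 ^ n * ((((2:ℝ) ^ (n + 4)) ^ d)⁻¹ *
        ∑ a : X d (n + 4), ‖pol S (fun k => c k * tch k z) a‖)) := by
      have h3 : ∀ a : X d (n + 4), Continuous (fun z : Tor d => ‖pol S (fun k => c k * tch k z) a‖) := by
        intro a
        have : (fun z : Tor d => ‖pol S (fun k => c k * tch k z) a‖) = fun z => ‖tpol S c (z + gp a)‖ := by
          funext z; rw [tpol_shift]
        rw [this]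
        exact ((tpol_cont S c).comp (continuous_id.add continuous_const)).norm
      exact continuous_const.mul (continuous_const.mul (continuous_finsetSum _ (fun a _ => h3 a)))
    exact h2.integrable_of_hasCompactSupport (HasCompactSupport.of_compactSpace _)
  · intro z
    have h3 := h n S hS (fun k => c k * tch k z)
    simp only [norm_mul, tch_norm, mul_one] at h3
    exact h3

/-- the box integral is the torus integral -/
lemma box_eq_torus {d : ℕ} (S : Finset (Fin d → ℤ)) (c : (Fin d → ℤ) → ℂ) :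
    ∫ x in Set.Icc (0 : Fin d → ℝ) (fun _ => 2 * Real.pi),
      ‖∑ k ∈ S, c k * Complex.exp (Complex.I * ∑ j, (k j : ℂ) * (x j : ℂ))‖ = ∫ z : Tor d, ‖tpol S c z‖ := by
  have hmp : MeasurePreserving (fun (x : Fin d → ℝ) (j : Fin d) => ((x j : ℝ) : AddCircle (2 * Real.pi)))
      (Measure.pi (fun _ : Fin d => (volume : Measure ℝ).restrict (Set.Ioc 0 (0 + 2 * Real.pi))))
      (Measure.pi (fun _ : Fin d => (volume : Measure (AddCircle (2 * Real.pi))))) :=
    measurePreserving_pi _ _ (fun _ => AddCircle.measurePreserving_mk (2 * Real.pi) 0)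
  have h1 : ∀ x : Fin d → ℝ, ‖∑ k ∈ S, c k * Complex.exp (Complex.I * ∑ j, (k j : ℂ) * (x j : ℂ))‖
      = ‖tpol S c (fun j => ((x j : ℝ) : AddCircle (2 * Real.pi)))‖ := by
    intro x
    congr 1
    unfold tpol tch
    apply Finset.sum_congr rfl
    intro k _
    congr 1
    rw [Finset.mul_sum, Complex.exp_sum]
    apply Finset.prod_congr rfl
    intro j _
    rw [fourier_coe_apply]
    congr 1
    have : ((2 * Real.pi : ℝ) : ℂ) ≠ 0 := by exact_mod_cast Real.two_pi_pos.ne'
    rw [eq_div_iff this]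
    push_cast
    ring
  simp_rw [h1]
  have h2 : Set.Icc (0 : Fin d → ℝ) (fun _ => 2 * Real.pi)
      =ᵐ[volume] Set.pi Set.univ (fun _ : Fin d => Set.Ioc (0:ℝ) (0 + 2 * Real.pi)) := by
    rw [zero_add]
    exact (Measure.univ_pi_Ioc_ae_eq_Icc (f := (0 : Fin d → ℝ)) (g := fun _ => 2 * Real.pi)).symm
  rw [setIntegral_congr_set h2, volume_pi, Measure.restrict_pi_pi, volume_pi, ← hmp.map_eq]
  rw [integral_map hmp.measurable.aemeasurable]
  exact (tpol_cont S c).norm.aestronglyMeasurable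


/-! ### lower bound: Fejer kernel -/

/-- frequency in one direction -/
def kk {d : ℕ} (i : Fin d) (m : ℤ) : Fin d → ℤ := fun j => if j = i then m else 0

lemma kk_inj {d : ℕ} (i : Fin d) {m m' : ℤ} (h : kk i m = kk i m') : m = m' := by
  have := congrFun h i
  simpa [kk] using this

lemma tch_sub {d : ℕ} (i : Fin d) (a b : ℤ) (z : Tor d) :
    tch (kk i (a - b)) z = tch (kk i a) z * (starRingEnd ℂ) (tch (kk i b) z) := by
  unfold tch
  rw [map_prod, ← Finset.prod_mul_distrib]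
  apply Finset.prod_congr rfl
  intro j _
  unfold kk
  split_ifs
  · rw [sub_eq_add_neg, fourier_add, fourier_neg]
  · simp

/-- L1 norm of the Fejer kernel on the torus -/
lemma fejer_L1 {d : ℕ} (i : Fin d) (M : ℕ) :
    ∫ z : Tor d, ‖∑ a ∈ Finset.range (M + 1), ∑ b ∈ Finset.range (M + 1),
      tch (kk i ((a : ℤ) - b)) z‖ = (2 * Real.pi) ^ d * (M + 1) := by
  classical
  set S : Finset (Fin d → ℤ) := (Finset.range (M + 1)).image (fun a : ℕ => kk i (a : ℤ)) with hS
  have hinj : Set.InjOn (fun a : ℕ => kk i (a : ℤ)) (Finset.range (M + 1) : Set ℕ) := by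
    intro a _ b _ hab
    exact_mod_cast kk_inj i hab
  have h1 : ∀ z : Tor d, ‖∑ a ∈ Finset.range (M + 1), ∑ b ∈ Finset.range (M + 1),
      tch (kk i ((a : ℤ) - b)) z‖ = ‖tpol S (fun _ => 1) z‖ ^ 2 := by
    intro z
    have h2 : ∑ a ∈ Finset.range (M + 1), ∑ b ∈ Finset.range (M + 1), tch (kk i ((a : ℤ) - b)) z
        = tpol S (fun _ => 1) z * (starRingEnd ℂ) (tpol S (fun _ => 1) z) := by
      unfold tpol
      rw [hS, Finset.sum_image hinj, map_sum, Finset.sum_mul_sum]
      apply Finset.sum_congr rfl; intro a _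
      apply Finset.sum_congr rfl; intro b _
      rw [tch_sub]; simp
    rw [h2, Complex.mul_conj']
    rw [norm_pow, Complex.norm_real, norm_norm]
  simp_rw [h1]
  -- choose a large group
  obtain ⟨L, hL⟩ : ∃ L : ℕ, 2 * (M + 1) < 2 ^ L := ⟨2 * (M + 1), Nat.lt_two_pow_self⟩
  have hSL : ∀ k ∈ S, ∀ j, 2 * (k j).natAbs < 2 ^ L := by
    intro k hk j
    rw [hS, Finset.mem_image] at hk
    obtain ⟨a, ha, rfl⟩ := hk
    rw [Finset.mem_range] at ha
    unfold kk
    split_ifs
    · simp only [Int.natAbs_natCast]; omega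
    · simp
  have hcard : (S.card : ℝ) = M + 1 := by
    rw [hS, Finset.card_image_of_injOn hinj]; simp
  have hcont : Continuous (fun z : Tor d => ‖tpol S (fun _ => 1) z‖ ^ 2) := (tpol_cont S _).norm.pow 2
  have hint : Integrable (fun z : Tor d => ‖tpol S (fun _ => 1) z‖ ^ 2) :=
    hcont.integrable_of_hasCompactSupport (HasCompactSupport.of_compactSpace _)
  have h3 : ∀ a : X d L, ∫ z : Tor d, ‖pol S (fun k => 1 * tch k z) a‖ ^ 2
      = ∫ z : Tor d, ‖tpol S (fun _ => 1) z‖ ^ 2 := by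
    intro a
    rw [← integral_add_right_eq_self (fun z : Tor d => ‖tpol S (fun _ => 1) z‖ ^ 2) (gp a)]
    simp_rw [tpol_shift]
  have h4 : ∑ a : X d L, ∫ z : Tor d, ‖pol S (fun k => 1 * tch k z) a‖ ^ 2
      = (2 ^ L) ^ d * ∫ z : Tor d, ‖tpol S (fun _ => 1) z‖ ^ 2 := by
    rw [Finset.sum_congr rfl (fun a _ => h3 a), Finset.sum_const, Finset.card_univ, nsmul_eq_mul]
    congr 1
    simp [X, ZMod.card]
  have h5 : ∑ a : X d L, ∫ z : Tor d, ‖pol S (fun k => 1 * tch k z) a‖ ^ 2
      = (2 * Real.pi) ^ d * ((2 ^ L) ^ d * (M + 1)) := by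
    rw [← integral_finsetSum]
    · have h6 : ∀ z : Tor d, ∑ a : X d L, ‖pol S (fun k => 1 * tch k z) a‖ ^ 2 = (2 ^ L) ^ d * (M + 1) := by
        intro z
        rw [parseval hSL]
        congr 1
        simp only [one_mul, tch_norm, one_pow, Finset.sum_const, nsmul_eq_mul, mul_one]
        exact hcard
      simp_rw [h6]
      rw [integral_const, smul_eq_mul, tor_mass]
    · intro a _
      have : (fun z : Tor d => ‖pol S (fun k => 1 * tch k z) a‖ ^ 2)
          = fun z => ‖tpol S (fun _ => 1) (z + gp a)‖ ^ 2 := by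
        funext z; rw [tpol_shift]
      rw [this]
      exact hint.comp_add_right (gp a)
  rw [h4] at h5
  have h7 : (0:ℝ) < (2 ^ L) ^ d := by positivity
  have h8 : (2 ^ L : ℝ) ^ d * ∫ z : Tor d, ‖tpol S (fun _ => 1) z‖ ^ 2
      = (2 ^ L : ℝ) ^ d * ((2 * Real.pi) ^ d * (M + 1)) := by rw [h5]; ring
  exact mul_left_cancel₀ h7.ne' h8

end Pool.Agent.Helper145.Hyp
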