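import Mathlib

set_option autoImplicit false
open Real

namespace Pool.Agent.Helper145.NullPair

/-- rapidly growing odd numbers -/
def Q (k : ℕ) : ℕ := 9 ^ (k ^ 2)

lemma Q_pos (k : ℕ) : 0 < Q k := by unfold Q; positivity

lemma Q_odd (k : ℕ) : Odd (Q k) := by unfold Q; exact Odd.pow (by decide)

lemma Q_succ (k : ℕ) : Q (k + 1) = Q k * 9 ^ (2 * k + 1) := by
  unfold Q; rw [← pow_add]; congr 1; ring

lemma Q_factor {i j : ℕ} (h : i ≤ j) : ∃ m, Odd m ∧ Q j = Q i * m := by
  refine ⟨9 ^ (j ^ 2 - i ^ 2), Odd.pow (by decide), ?_⟩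
  unfold Q; rw [← pow_add]; congr 1
  have : i ^ 2 ≤ j ^ 2 := Nat.pow_le_pow_left h 2
  omega

/-- base points on the line -/
noncomputable def y (j : ℕ) : ℝ := π / (2 * (Q (j + 2) : ℝ))

/-- first frequency of pair `p` -/
def B (p : ℕ) : ℕ := 4 * Q (Nat.log 9 p + 2) * p + 2 * Q (Nat.log 9 p + 1) + Q (Nat.log 9 p)

/-- second frequency of pair `p` -/
def A (p : ℕ) : ℕ := 4 * Q (Nat.log 9 p + 2) * p + 2 * Q (Nat.log 9 p + 2) + Q (Nat.log 9 p + 1)

lemma Q_mono {i j : ℕ} (h : i ≤ j) : Q i ≤ Q j := by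
  unfold Q; exact Nat.pow_le_pow_right (by norm_num) (Nat.pow_le_pow_left h 2)

lemma Q_lt (k : ℕ) : 9 * Q k ≤ Q (k + 1) := by
  rw [Q_succ, mul_comm]
  exact Nat.mul_le_mul_left _ (by
    calc 9 = 9 ^ 1 := by norm_num
      _ ≤ 9 ^ (2 * k + 1) := Nat.pow_le_pow_right (by norm_num) (by omega))

lemma B_lt_A (p : ℕ) : B p < A p := by
  unfold A B
  have h1 := Q_lt (Nat.log 9 p)
  have h2 := Q_lt (Nat.log 9 p + 1)
  have h3 := Q_pos (Nat.log 9 p)
  have h4 : Nat.log 9 p + 1 + 1 = Nat.log 9 p + 2 := rfl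
  rw [h4] at h2
  omega

lemma A_lt_B (p : ℕ) : A p < B (p + 1) := by
  have hlog : Nat.log 9 p ≤ Nat.log 9 (p + 1) := Nat.log_mono_right (Nat.le_succ p)
  have h1 := Q_lt (Nat.log 9 p + 1)
  have h4 : Nat.log 9 p + 1 + 1 = Nat.log 9 p + 2 := rfl
  rw [h4] at h1
  have h2 : Q (Nat.log 9 p + 2) ≤ Q (Nat.log 9 (p + 1) + 2) := Q_mono (by omega)
  have h3 := Q_pos (Nat.log 9 p + 1)
  unfold A B
  have h5 : 4 * Q (Nat.log 9 p + 2) * (p + 1) ≤ 4 * Q (Nat.log 9 (p + 1) + 2) * (p + 1) := by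
    gcongr
  nlinarith [Nat.zero_le (Q (Nat.log 9 (p+1) + 1)), Nat.zero_le (Q (Nat.log 9 (p+1)))]

lemma B_pos (p : ℕ) : 1 ≤ B p := by
  unfold B; have := Q_pos (Nat.log 9 p); omega

lemma cos_zero_of_odd {n j : ℕ} (m : ℕ) (hm : Odd m) (h : n = Q (j + 2) * m) :
    cos (n * y j) = 0 := by
  obtain ⟨l, rfl⟩ := hm
  rw [Real.cos_eq_zero_iff]
  refine ⟨l, ?_⟩
  have hq : (Q (j + 2) : ℝ) ≠ 0 := by exact_mod_cast (Q_pos _).ne'
  rw [h, y]; push_cast; field_simp

lemma cos_B_zero {p j : ℕ} (h : j + 2 ≤ Nat.log 9 p) : cos (B p * y j) = 0 := by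
  obtain ⟨m0, h0, e0⟩ := Q_factor h
  obtain ⟨m1, h1, e1⟩ := Q_factor (show j + 2 ≤ Nat.log 9 p + 1 by omega)
  obtain ⟨m2, h2, e2⟩ := Q_factor (show j + 2 ≤ Nat.log 9 p + 2 by omega)
  refine cos_zero_of_odd (4 * m2 * p + 2 * m1 + m0) ?_ ?_
  · have : Even (4 * m2 * p + 2 * m1) := ⟨2 * m2 * p + m1, by ring⟩
    exact this.add_odd h0
  · unfold B; rw [e0, e1, e2]; ring

lemma cos_A_zero {p j : ℕ} (h : j + 1 ≤ Nat.log 9 p) : cos (A p * y j) = 0 := by
  obtain ⟨m1, h1, e1⟩ := Q_factor (show j + 2 ≤ Nat.log 9 p + 1 by omega)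
  obtain ⟨m2, h2, e2⟩ := Q_factor (show j + 2 ≤ Nat.log 9 p + 2 by omega)
  refine cos_zero_of_odd (4 * m2 * p + 2 * m2 + m1) ?_ ?_
  · have : Even (4 * m2 * p + 2 * m2) := ⟨2 * m2 * p + m2, by ring⟩
    exact this.add_odd h1
  · unfold A; rw [e1, e2]; ring

/-- small angle -/
noncomputable def e (k : ℕ) : ℝ := π / 2 / 9 ^ (2 * k + 1)

lemma e_pos (k : ℕ) : 0 < e k := by unfold e; positivity

lemma e_le (k : ℕ) : e k ≤ π / 2 / 9 := by
  unfold e
  gcongr
  calc (9:ℝ) = 9 ^ 1 := by norm_num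
    _ ≤ 9 ^ (2 * k + 1) := pow_le_pow_right₀ (by norm_num) (by omega)

lemma e_anti (k : ℕ) : e (k + 1) ≤ e k := by
  unfold e
  gcongr
  · norm_num
  · omega

/-- cos of B at the point with index `k-1` -/
lemma cos_B_prev {p k : ℕ} (h : Nat.log 9 p = k + 1) : cos (B p * y k) = - cos (e (k + 1)) := by
  have hq : (Q (k + 2) : ℝ) ≠ 0 := by exact_mod_cast (Q_pos _).ne'
  have hq1 : (Q (k + 1) : ℝ) ≠ 0 := by exact_mod_cast (Q_pos _).ne'
  have e1 : (Q (k + 2) : ℝ) = Q (k + 1) * 9 ^ (2 * (k + 1) + 1) := by exact_mod_cast Q_succ (k + 1)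
  have e2 : (Q (k + 3) : ℝ) = Q (k + 2) * 9 ^ (2 * (k + 2) + 1) := by exact_mod_cast Q_succ (k + 2)
  have key : (B p : ℝ) * y k = (e (k + 1) + π) + ((9 ^ (2 * (k + 2) + 1) * p : ℕ) : ℝ) * (2 * π) := by
    unfold B y e
    rw [h]
    push_cast
    rw [show k + 1 + 2 = k + 3 from rfl, show k + 1 + 1 = k + 2 from rfl, e2, e1]
    field_simp
    ring
  rw [key, Real.cos_add_nat_mul_two_pi, Real.cos_add_pi]

/-- angle for `B` at its top point -/
noncomputable def e' (k : ℕ) : ℝ := π / 2 * (2 / 9 ^ (2 * k + 3) + 1 / 9 ^ (4 * k + 4))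

lemma e'_pos (k : ℕ) : 0 < e' k := by unfold e'; positivity

lemma e'_le (k : ℕ) : e' k ≤ e k := by
  unfold e' e
  have h1 : (2:ℝ) / 9 ^ (2 * k + 3) + 1 / 9 ^ (4 * k + 4) ≤ 1 / 9 ^ (2 * k + 1) := by
    have h2 : (1:ℝ) / 9 ^ (4 * k + 4) ≤ 1 / 9 ^ (2 * k + 3) := by
      apply one_div_le_one_div_of_le (by positivity)
      exact pow_le_pow_right₀ (by norm_num) (by omega)
    have h3 : (1:ℝ) / 9 ^ (2 * k + 1) = 81 * (1 / 9 ^ (2 * k + 3)) := by
      rw [show 2 * k + 3 = (2 * k + 1) + 2 from rfl, pow_add _ (2 * k + 1) 2]; field_simp; norm_num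
    rw [h3]
    have h4 : (0:ℝ) < 1 / 9 ^ (2 * k + 3) := by positivity
    have h5 : (2:ℝ) / 9 ^ (2 * k + 3) = 2 * (1 / 9 ^ (2 * k + 3)) := by ring
    rw [h5]; linarith
  calc π / 2 * (2 / 9 ^ (2 * k + 3) + 1 / 9 ^ (4 * k + 4)) ≤ π / 2 * (1 / 9 ^ (2 * k + 1)) := by
        gcongr
    _ = π / 2 / 9 ^ (2 * k + 1) := by ring

lemma cos_B_top {p k : ℕ} (h : Nat.log 9 p = k) : cos (B p * y k) = cos (e' k) := by
  have hq : (Q k : ℝ) ≠ 0 := by exact_mod_cast (Q_pos _).ne'
  have e1 : (Q (k + 1) : ℝ) = Q k * 9 ^ (2 * k + 1) := by exact_mod_cast Q_succ k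
  have e2 : (Q (k + 2) : ℝ) = Q k * 9 ^ (4 * k + 4) := by
    have := Q_succ (k + 1)
    rw [Q_succ k, mul_assoc, ← pow_add] at this
    have h2 : 2 * k + 1 + (2 * (k + 1) + 1) = 4 * k + 4 := by ring
    rw [h2] at this
    exact_mod_cast this
  have e3 : (9:ℝ) ^ (4 * k + 4) = 9 ^ (2 * k + 1) * 9 ^ (2 * k + 3) := by rw [← pow_add]; congr 1; ring
  have key : (B p : ℝ) * y k = e' k + (p : ℝ) * (2 * π) := by
    unfold B y e'
    rw [h]
    push_cast
    rw [e1, e2, e3]
    field_simp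
    ring
  rw [key, Real.cos_add_nat_mul_two_pi]

lemma cos_A_top {p k : ℕ} (h : Nat.log 9 p = k) : cos (A p * y k) = - cos (e (k + 1)) := by
  have hq : (Q (k + 1) : ℝ) ≠ 0 := by exact_mod_cast (Q_pos _).ne'
  have e1 : (Q (k + 2) : ℝ) = Q (k + 1) * 9 ^ (2 * (k + 1) + 1) := by exact_mod_cast Q_succ (k + 1)
  have key : (A p : ℝ) * y k = (e (k + 1) + π) + (p : ℝ) * (2 * π) := by
    unfold A y e
    rw [h]
    push_cast
    rw [e1]
    field_simp
    ring
  rw [key, Real.cos_add_nat_mul_two_pi, Real.cos_add_pi]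

lemma lt_pow_log (p : ℕ) : p + 1 ≤ 9 ^ (Nat.log 9 p + 1) := Nat.lt_pow_succ_log_self (by norm_num) p

/-- beyond the top point the frequency angle is tiny -/
lemma A_le {p j : ℕ} (h : Nat.log 9 p < j) :
    (A p : ℝ) * y j ≤ 2 * π / 9 ^ (Nat.log 9 p + 4) := by
  set k := Nat.log 9 p with hk
  have h1 : A p ≤ 4 * Q (k + 2) * 9 ^ (k + 1) := by
    have h2 : A p ≤ 4 * Q (k + 2) * (p + 1) := by
      have := Q_lt (k + 1)
      have h4 : k + 1 + 1 = k + 2 := rfl
      rw [h4] at this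
      unfold A; rw [← hk]; nlinarith
    exact h2.trans (Nat.mul_le_mul_left _ (lt_pow_log p))
  have h5 : Q (k + 3) ≤ Q (j + 2) := Q_mono (by omega)
  have h6 : (Q (k + 3) : ℝ) = Q (k + 2) * 9 ^ (2 * k + 5) := by
    have := Q_succ (k + 2)
    exact_mod_cast this
  have hq : (0:ℝ) < Q (k + 2) := by exact_mod_cast (Q_pos _)
  have hq3 : (0:ℝ) < Q (k + 3) := by exact_mod_cast (Q_pos _)
  have h7 : (A p : ℝ) ≤ 4 * Q (k + 2) * 9 ^ (k + 1) := by exact_mod_cast h1
  have h8 : y j ≤ π / (2 * (Q (k + 3) : ℝ)) := by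
    unfold y
    have : (Q (k + 3) : ℝ) ≤ Q (j + 2) := by exact_mod_cast h5
    gcongr
  calc (A p : ℝ) * y j ≤ (4 * Q (k + 2) * 9 ^ (k + 1)) * (π / (2 * (Q (k + 3) : ℝ))) := by
        apply mul_le_mul h7 h8
        · unfold y; positivity
        · positivity
    _ = 2 * π / 9 ^ (k + 4) := by
        rw [h6]
        have : (9:ℝ) ^ (2 * k + 5) = 9 ^ (k + 1) * 9 ^ (k + 4) := by rw [← pow_add]; congr 1; ring
        rw [this]
        field_simp
        norm_num

lemma y_pos (j : ℕ) : 0 < y j := by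
  unfold y; have := Q_pos (j + 2); positivity

lemma B_le {p j : ℕ} (h : Nat.log 9 p < j) :
    (B p : ℝ) * y j ≤ 2 * π / 9 ^ (Nat.log 9 p + 4) := by
  refine le_trans ?_ (A_le h)
  have := y_pos j
  have h2 : (B p : ℝ) ≤ A p := by exact_mod_cast (B_lt_A p).le
  gcongr

lemma small_le_pi (k : ℕ) : 2 * π / 9 ^ (k + 4) ≤ π := by
  rw [div_le_iff₀ (by positivity)]
  have : (2:ℝ) ≤ 9 ^ (k + 4) := by
    calc (2:ℝ) ≤ 9 ^ 1 := by norm_num
      _ ≤ 9 ^ (k + 4) := pow_le_pow_right₀ (by norm_num) (by omega)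
  nlinarith [Real.pi_pos]

/-- difference of cosines -/
noncomputable def D (p j : ℕ) : ℝ := cos (B p * y j) - cos (A p * y j)

lemma D_zero {p j : ℕ} (h : j + 2 ≤ Nat.log 9 p) : D p j = 0 := by
  unfold D; rw [cos_B_zero h, cos_A_zero (by omega)]; ring

lemma D_prev {p k : ℕ} (h : Nat.log 9 p = k + 1) : D p k = - cos (e (k + 1)) := by
  unfold D; rw [cos_B_prev h, cos_A_zero (by omega)]; ring

lemma cos_e_ge (k : ℕ) : 1 / 2 ≤ cos (e k) := by
  have h1 : cos (π / 3) ≤ cos (e k) := by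
    apply Real.cos_le_cos_of_nonneg_of_le_pi (e_pos k).le
    · linarith [Real.pi_pos]
    · have := e_le k; linarith [Real.pi_pos]
  rwa [Real.cos_pi_div_three] at h1

lemma D_top {p k : ℕ} (h : Nat.log 9 p = k) : D p k = cos (e' k) + cos (e (k + 1)) := by
  unfold D; rw [cos_B_top h, cos_A_top h]; ring

lemma cos_e_mono (k : ℕ) : cos (e k) ≤ cos (e (k + 1)) := by
  apply Real.cos_le_cos_of_nonneg_of_le_pi (e_pos _).le
  · have := e_le k; linarith [Real.pi_pos]
  · exact e_anti k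

lemma cos_e'_ge (k : ℕ) : cos (e k) ≤ cos (e' k) := by
  apply Real.cos_le_cos_of_nonneg_of_le_pi (e'_pos _).le
  · have := e_le k; linarith [Real.pi_pos]
  · exact e'_le k

lemma D_far {p j : ℕ} (h : Nat.log 9 p < j) : 0 ≤ D p j := by
  unfold D
  have := y_pos j
  have h2 : (B p : ℝ) ≤ A p := by exact_mod_cast (B_lt_A p).le
  have h3 : cos (A p * y j) ≤ cos (B p * y j) := by
    apply Real.cos_le_cos_of_nonneg_of_le_pi
    · positivity
    · exact (A_le h).trans (small_le_pi _)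
    · gcongr
  linarith

lemma D_nonneg {p j : ℕ} (h : Nat.log 9 p ≤ j) : 0 ≤ D p j := by
  rcases h.lt_or_eq with h | h
  · exact D_far h
  · rw [D_top h]
    have h1 := cos_e_ge (j + 1)
    have h2 := cos_e_ge j
    have h3 := cos_e'_ge j
    linarith

lemma D_le (p j : ℕ) : D p j ≤ 2 := by
  unfold D
  have := Real.cos_le_one (B p * y j)
  have := Real.neg_one_le_cos (A p * y j)
  linarith


/-- block coefficients, defined so that the sum at each point `y j` vanishes -/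
noncomputable def rho : ℕ → ℝ
  | 0 => 1
  | (j + 1) => (∑ p : Fin (9 ^ (j + 1)), rho (Nat.log 9 p.1) * D p.1 j) /
      (8 * 9 ^ (j + 1) * cos (e (j + 1)))
decreasing_by
  rcases Nat.eq_zero_or_pos p.1 with h | h
  · rw [h]; simp
  · exact Nat.log_lt_of_lt_pow h.ne' p.2

/-- coefficient of the pair `p` -/
noncomputable def r (p : ℕ) : ℝ := rho (Nat.log 9 p)

/-- partial sums over pairs -/
noncomputable def T (P j : ℕ) : ℝ := ∑ p ∈ Finset.range P, r p * D p j

lemma rho_succ (j : ℕ) : rho (j + 1) = T (9 ^ (j + 1)) j / (8 * 9 ^ (j + 1) * cos (e (j + 1))) := by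
  rw [rho, T, Finset.sum_range]
  rfl

lemma log_eq {k p : ℕ} (h1 : 9 ^ k ≤ p) (h2 : p < 9 ^ (k + 1)) : Nat.log 9 p = k :=
  Nat.log_eq_of_pow_le_of_lt_pow h1 h2

lemma sum_block (f : ℕ → ℝ) (k : ℕ) :
    ∑ p ∈ Finset.range (9 ^ (k + 1)), f p
      = ∑ p ∈ Finset.range (9 ^ k), f p + ∑ p ∈ Finset.Ico (9 ^ k) (9 ^ (k + 1)), f p := by
  rw [Finset.range_eq_Ico, Finset.range_eq_Ico,
    Finset.sum_Ico_consecutive _ (Nat.zero_le _) (Nat.pow_le_pow_right (by norm_num) (Nat.le_succ k))]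

lemma card_block (k : ℕ) : ((Finset.Ico (9 ^ k) (9 ^ (k + 1))).card : ℝ) = 8 * 9 ^ k := by
  rw [Nat.card_Ico, Nat.cast_sub (Nat.pow_le_pow_right (by norm_num) (Nat.le_succ k))]
  push_cast; rw [Nat.succ_eq_add_one, pow_succ]; ring

lemma T_end (j : ℕ) : T (9 ^ (j + 2)) j = 0 := by
  have h : ∑ p ∈ Finset.Ico (9 ^ (j + 1)) (9 ^ (j + 2)), r p * D p j
      = ∑ p ∈ Finset.Ico (9 ^ (j + 1)) (9 ^ (j + 2)), rho (j + 1) * (- cos (e (j + 1))) := by
    apply Finset.sum_congr rfl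
    intro p hp
    rw [Finset.mem_Ico] at hp
    have hl : Nat.log 9 p = j + 1 := log_eq hp.1 hp.2
    rw [D_prev hl, r, hl]
  rw [T, sum_block, h, Finset.sum_const, nsmul_eq_mul, card_block, rho_succ, T]
  have h1 := cos_e_ge (j + 1)
  have h2 : cos (e (j + 1)) ≠ 0 := by linarith
  field_simp
  ring

lemma T_eventually {P j : ℕ} (h : 9 ^ (j + 2) ≤ P) : T P j = 0 := by
  induction P, h using Nat.le_induction with
  | base => exact T_end j
  | succ n hn ih =>
    rw [T, Finset.sum_range_succ, ← T, ih, D_zero]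
    · simp
    · exact (Nat.le_log_iff_pow_le (by norm_num) (by
        have : 0 < 9 ^ (j + 2) := by positivity
        omega)).mpr hn

lemma rho_nonneg (k : ℕ) : 0 ≤ rho k := by
  induction k using Nat.strong_induction_on with
  | _ k ih =>
    match k with
    | 0 => rw [rho]; norm_num
    | (j + 1) =>
      rw [rho_succ]
      have h1 := cos_e_ge (j + 1)
      apply div_nonneg
      · rw [T]
        apply Finset.sum_nonneg
        intro p hp
        rw [Finset.mem_range] at hp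
        have hl : Nat.log 9 p < j + 1 := by
          rcases Nat.eq_zero_or_pos p with h | h
          · rw [h]; simp
          · exact Nat.log_lt_of_lt_pow h.ne' hp
        exact mul_nonneg (ih _ hl) (D_nonneg (by omega))
      · positivity

lemma r_nonneg (p : ℕ) : 0 ≤ r p := rho_nonneg _

/-- total coefficient mass -/
noncomputable def X (j : ℕ) : ℝ := ∑ p ∈ Finset.range (9 ^ (j + 1)), r p

lemma rho_le_X (j : ℕ) : 8 * 9 ^ (j + 1) * rho (j + 1) ≤ 4 * X j := by
  have h1 := cos_e_ge (j + 1)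
  have h2 : T (9 ^ (j + 1)) j ≤ 2 * X j := by
    rw [T, X, Finset.mul_sum]
    apply Finset.sum_le_sum
    intro p _
    have := D_le p j
    have := r_nonneg p
    nlinarith
  have h3 : rho (j + 1) * (8 * 9 ^ (j + 1) * cos (e (j + 1))) = T (9 ^ (j + 1)) j := by
    rw [rho_succ]; field_simp
  have h4 : 0 ≤ rho (j + 1) := rho_nonneg _
  have h5 : 0 ≤ 8 * 9 ^ (j + 1) * rho (j + 1) := by positivity
  nlinarith

lemma X_le (j : ℕ) : X j ≤ 9 * 5 ^ j := by
  induction j with
  | zero =>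
    rw [X]
    have : ∀ p ∈ Finset.range (9 ^ (0 + 1)), r p = 1 := by
      intro p hp
      rw [Finset.mem_range] at hp
      have : Nat.log 9 p = 0 := by
        rw [Nat.log_eq_zero_iff]; left; simpa using hp
      rw [r, this, rho]
    rw [Finset.sum_congr rfl this]; simp
  | succ j ih =>
    have h : ∑ p ∈ Finset.Ico (9 ^ (j + 1)) (9 ^ (j + 2)), r p
      = ∑ p ∈ Finset.Ico (9 ^ (j + 1)) (9 ^ (j + 2)), rho (j + 1) := by
      apply Finset.sum_congr rfl
      intro p hp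
      rw [Finset.mem_Ico] at hp
      rw [r, log_eq hp.1 hp.2]
    rw [X, sum_block, h, Finset.sum_const, nsmul_eq_mul, card_block, ← X]
    have := rho_le_X j
    have h5 : (5:ℝ) ^ (j + 1) = 5 * 5 ^ j := by ring
    rw [h5]
    linarith

lemma rho_le (j : ℕ) : rho (j + 1) ≤ (5 / 9) ^ j := by
  have h1 := rho_le_X j
  have h2 := X_le j
  have h3 : 8 * 9 ^ (j + 1) * rho (j + 1) ≤ 36 * 5 ^ j := by linarith
  have h4 : rho (j + 1) ≤ 36 * 5 ^ j / (8 * 9 ^ (j + 1)) := by
    rw [le_div_iff₀ (by positivity)]; linarith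
  refine h4.trans ?_
  rw [div_pow, pow_succ, div_le_div_iff₀ (by positivity) (by positivity)]
  have : (0:ℝ) < 5 ^ j * 9 ^ j := by positivity
  nlinarith

lemma rho_le_one (k : ℕ) : rho k ≤ 1 := by
  match k with
  | 0 => rw [rho]
  | (j + 1) => exact (rho_le j).trans (pow_le_one₀ (by norm_num) (by norm_num))

lemma rho_tendsto : Filter.Tendsto rho Filter.atTop (nhds 0) := by
  rw [← Filter.tendsto_add_atTop_iff_nat 1]
  refine squeeze_zero (fun n => rho_nonneg _) rho_le ?_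
  exact tendsto_pow_atTop_nhds_zero_of_lt_one (by norm_num) (by norm_num)

lemma r_tendsto : Filter.Tendsto r Filter.atTop (nhds 0) := by
  have : Filter.Tendsto (Nat.log 9) Filter.atTop Filter.atTop := by
    apply Filter.tendsto_atTop_atTop.mpr
    intro b
    refine ⟨9 ^ b, fun a ha => ?_⟩
    calc b = Nat.log 9 (9 ^ b) := (Nat.log_pow (by norm_num) b).symm
      _ ≤ Nat.log 9 a := Nat.log_mono_right ha
  exact rho_tendsto.comp this

/-! ### Fourier transform of the measure -/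

/-- half of the Fourier coefficient of the measure at frequency `n` -/
noncomputable def M (n : ℕ) : ℝ := ∑' j : ℕ, (1 / 2 : ℝ) ^ j * cos (n * y j)

lemma M_summable (n : ℕ) : Summable (fun j : ℕ => (1 / 2 : ℝ) ^ j * cos (n * y j)) := by
  refine Summable.of_norm_bounded summable_geometric_two ?_
  intro j
  rw [norm_mul, Real.norm_eq_abs, Real.norm_eq_abs, abs_of_nonneg (by positivity)]
  have := Real.abs_cos_le_one (n * y j)
  have : (0:ℝ) < (1/2) ^ j := by positivity
  nlinarith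

lemma tail_sum (k : ℕ) : ∑' j : ℕ, (1 / 2 : ℝ) ^ (j + (k + 1)) = (1 / 2) ^ k := by
  simp_rw [pow_add]
  rw [tsum_mul_right, tsum_geometric_two]
  rw [pow_succ]; ring

lemma M_bound {n k : ℕ} {ε : ℝ} (hz : ∀ j < k, cos (n * y j) = 0)
    (hk : |1 + cos (n * y k)| ≤ ε) (hf : ∀ j, k < j → |1 - cos (n * y j)| ≤ ε) :
    |M n| ≤ 2 * ε := by
  have h0 : 0 ≤ ε := (abs_nonneg _).trans hk
  have h1 : M n = (1 / 2) ^ k * cos (n * y k)
      + ∑' j : ℕ, (1 / 2 : ℝ) ^ (j + (k + 1)) * cos (n * y (j + (k + 1))) := by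
    rw [M, ← (M_summable n).sum_add_tsum_nat_add (k + 1), Finset.sum_range_succ]
    rw [Finset.sum_eq_zero]
    · simp
    · intro j hj
      rw [Finset.mem_range] at hj
      rw [hz j hj]; simp
  have hs1 : Summable (fun j : ℕ => (1 / 2 : ℝ) ^ (j + (k + 1))) :=
    (summable_nat_add_iff (k + 1)).mpr summable_geometric_two
  have hs2 : Summable (fun j : ℕ => (1 / 2 : ℝ) ^ (j + (k + 1)) * cos (n * y (j + (k + 1)))) :=
    (summable_nat_add_iff (f := fun j : ℕ => (1 / 2 : ℝ) ^ j * cos (n * y j)) (k + 1)).mpr (M_summable n)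
  have h2 : M n = (1 / 2) ^ k * (1 + cos (n * y k))
      - ∑' j : ℕ, (1 / 2 : ℝ) ^ (j + (k + 1)) * (1 - cos (n * y (j + (k + 1)))) := by
    have h3 : ∑' j : ℕ, (1 / 2 : ℝ) ^ (j + (k + 1)) * (1 - cos (n * y (j + (k + 1))))
        = ∑' j : ℕ, (1 / 2 : ℝ) ^ (j + (k + 1))
          - ∑' j : ℕ, (1 / 2 : ℝ) ^ (j + (k + 1)) * cos (n * y (j + (k + 1))) := by
      rw [← hs1.tsum_sub hs2]
      congr 1; ext j; ring
    rw [h3, tail_sum, h1]; ring
  have h4 : |∑' j : ℕ, (1 / 2 : ℝ) ^ (j + (k + 1)) * (1 - cos (n * y (j + (k + 1))))| ≤ (1 / 2) ^ k * ε := by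
    have hs3 : Summable (fun j : ℕ => (1 / 2 : ℝ) ^ (j + (k + 1)) * ε) := hs1.mul_right ε
    have hs4 : Summable (fun j : ℕ => ‖(1 / 2 : ℝ) ^ (j + (k + 1)) * (1 - cos (n * y (j + (k + 1))))‖) := by
      refine Summable.of_nonneg_of_le (fun _ => norm_nonneg _) (fun j => ?_) hs3
      rw [norm_mul, Real.norm_eq_abs, Real.norm_eq_abs, abs_of_nonneg (by positivity)]
      have := hf (j + (k + 1)) (by omega)
      gcongr
    calc |∑' j : ℕ, (1 / 2 : ℝ) ^ (j + (k + 1)) * (1 - cos (n * y (j + (k + 1))))|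
        ≤ ∑' j : ℕ, ‖(1 / 2 : ℝ) ^ (j + (k + 1)) * (1 - cos (n * y (j + (k + 1))))‖ :=
          norm_tsum_le_tsum_norm hs4
      _ ≤ ∑' j : ℕ, (1 / 2 : ℝ) ^ (j + (k + 1)) * ε := by
          refine hs4.tsum_le_tsum (fun j => ?_) hs3
          rw [norm_mul, Real.norm_eq_abs, Real.norm_eq_abs, abs_of_nonneg (by positivity)]
          have := hf (j + (k + 1)) (by omega)
          gcongr
      _ = (1 / 2) ^ k * ε := by rw [tsum_mul_right, tail_sum]
  have h5 : |(1 / 2 : ℝ) ^ k * (1 + cos (n * y k))| ≤ (1 / 2) ^ k * ε := by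
    rw [abs_mul, abs_of_nonneg (show (0:ℝ) ≤ (1 / 2) ^ k by positivity)]
    gcongr
  have h6 : (1 / 2 : ℝ) ^ k ≤ 1 := pow_le_one₀ (by norm_num) (by norm_num)
  rw [h2]
  calc _ ≤ |(1 / 2 : ℝ) ^ k * (1 + cos (n * y k))|
        + |∑' j : ℕ, (1 / 2 : ℝ) ^ (j + (k + 1)) * (1 - cos (n * y (j + (k + 1))))| := abs_sub _ _
    _ ≤ (1 / 2) ^ k * ε + (1 / 2) ^ k * ε := add_le_add h5 h4
    _ ≤ 2 * ε := by nlinarith


lemma abs_one_sub_cos_le {x : ℝ} {k : ℕ} (h0 : 0 ≤ x) (h : x ≤ 1 / 9 ^ k) :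
    |1 - cos x| ≤ 1 / 81 ^ k := by
  have h1 := Real.one_sub_sq_div_two_le_cos (x := x)
  have h2 := Real.cos_le_one x
  rw [abs_of_nonneg (by linarith)]
  have h3 : x ^ 2 ≤ (1 / 9 ^ k) ^ 2 := by gcongr
  have h4 : ((1:ℝ) / 9 ^ k) ^ 2 = 1 / 81 ^ k := by
    rw [div_pow, one_pow, ← pow_mul, mul_comm k 2, pow_mul]; norm_num
  rw [h4] at h3
  have : (0:ℝ) < 1 / 81 ^ k := by positivity
  linarith

lemma e_succ_le (k : ℕ) : e (k + 1) ≤ 1 / 9 ^ k := by
  unfold e
  rw [div_le_div_iff₀ (by positivity) (by positivity)]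
  have h1 : (9:ℝ) ^ (2 * (k + 1) + 1) = 9 ^ k * 9 ^ (k + 3) := by rw [← pow_add]; congr 1; ring
  rw [h1]
  have h2 : (9:ℝ) ≤ 9 ^ (k + 3) := by
    calc (9:ℝ) = 9 ^ 1 := by norm_num
      _ ≤ 9 ^ (k + 3) := pow_le_pow_right₀ (by norm_num) (by omega)
  have h3 : (0:ℝ) < 9 ^ k := by positivity
  have h4 := Real.pi_le_four
  nlinarith

lemma small_le (k : ℕ) : 2 * π / 9 ^ (k + 4) ≤ 1 / 9 ^ k := by
  rw [div_le_div_iff₀ (by positivity) (by positivity), pow_add]
  have h3 : (0:ℝ) < 9 ^ k := by positivity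
  have h4 := Real.pi_le_four
  nlinarith

lemma pow_bound (p : ℕ) : 1 / (81:ℝ) ^ (Nat.log 9 p) ≤ 81 / ((p:ℝ) + 1) ^ 2 := by
  rw [div_le_div_iff₀ (by positivity) (by positivity)]
  have h1 : ((p:ℝ) + 1) ≤ 9 ^ (Nat.log 9 p + 1) := by exact_mod_cast lt_pow_log p
  have h2 : ((p:ℝ) + 1) ^ 2 ≤ (9 ^ (Nat.log 9 p + 1)) ^ 2 := by gcongr
  have h3 : ((9:ℝ) ^ (Nat.log 9 p + 1)) ^ 2 = 81 * 81 ^ (Nat.log 9 p) := by
    rw [← pow_mul, mul_comm _ 2, pow_mul, pow_succ]; norm_num; ring
  rw [h3] at h2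
  linarith

lemma M_A_bound (p : ℕ) : |M (A p)| ≤ 13122 / ((p:ℝ) + 1) ^ 2 := by
  have h : |M (A p)| ≤ 2 * (1 / 81 ^ (Nat.log 9 p)) := by
    refine M_bound (k := Nat.log 9 p) (fun j hj => cos_A_zero hj) ?_ ?_
    · rw [cos_A_top rfl, ← sub_eq_add_neg]
      exact abs_one_sub_cos_le (e_pos _).le (e_succ_le _)
    · intro j hj
      refine abs_one_sub_cos_le ?_ ((A_le hj).trans (small_le _))
      have := y_pos j; positivity
  have h2 := pow_bound p
  refine h.trans ?_
  have : (13122:ℝ) / ((p:ℝ) + 1) ^ 2 = 162 * (81 / ((p:ℝ) + 1) ^ 2) := by ring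
  rw [this]
  have : 0 < 1 / (81:ℝ) ^ (Nat.log 9 p) := by positivity
  nlinarith

lemma M_abs_le (n : ℕ) : |M n| ≤ 2 := by
  rw [M]
  have h : Summable (fun j : ℕ => ‖(1 / 2 : ℝ) ^ j * cos (n * y j)‖) := (M_summable n).norm
  calc |∑' j : ℕ, (1 / 2 : ℝ) ^ j * cos (n * y j)| ≤ ∑' j : ℕ, ‖(1 / 2 : ℝ) ^ j * cos (n * y j)‖ :=
        norm_tsum_le_tsum_norm h
    _ ≤ ∑' j : ℕ, (1 / 2 : ℝ) ^ j := by
        refine h.tsum_le_tsum (fun j => ?_) summable_geometric_two
        rw [norm_mul, Real.norm_eq_abs, Real.norm_eq_abs, abs_of_nonneg (by positivity)]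
        have := Real.abs_cos_le_one (n * y j)
        have : (0:ℝ) < (1/2) ^ j := by positivity
        nlinarith
    _ = 2 := tsum_geometric_two

lemma M_B_bound (p : ℕ) : |M (B p)| ≤ 13122 / ((p:ℝ) + 1) ^ 2 := by
  rcases Nat.eq_zero_or_pos (Nat.log 9 p) with hl | hl
  · have h2 := pow_bound p
    rw [hl] at h2
    have h3 := M_abs_le (B p)
    refine h3.trans ?_
    have : (13122:ℝ) / ((p:ℝ) + 1) ^ 2 = 162 * (81 / ((p:ℝ) + 1) ^ 2) := by ring
    rw [this]
    norm_num at h2 ⊢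
    linarith
  · obtain ⟨k, hk⟩ : ∃ k, Nat.log 9 p = k + 1 := ⟨Nat.log 9 p - 1, by omega⟩
    have h : |M (B p)| ≤ 2 * (1 / 81 ^ k) := by
      refine M_bound (k := k) (fun j hj => cos_B_zero (by omega)) ?_ ?_
      · rw [cos_B_prev hk, ← sub_eq_add_neg]
        exact abs_one_sub_cos_le (e_pos _).le (e_succ_le _)
      · intro j hj
        rcases (Nat.succ_le_of_lt hj).eq_or_lt with h | h
        · rw [← h, cos_B_top (show Nat.log 9 p = k.succ from hk)]
          exact abs_one_sub_cos_le (e'_pos _).le ((e'_le _).trans (e_succ_le _))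
        · refine abs_one_sub_cos_le ?_ ((B_le (by omega)).trans ?_)
          · have := y_pos j; positivity
          · refine (small_le _).trans ?_
            rw [hk]
            apply one_div_le_one_div_of_le (by positivity)
            exact pow_le_pow_right₀ (by norm_num) (by omega)
    have h2 := pow_bound p
    rw [hk] at h2
    refine h.trans ?_
    have : (13122:ℝ) / ((p:ℝ) + 1) ^ 2 = 162 * (81 / ((p:ℝ) + 1) ^ 2) := by ring
    rw [this]
    have h4 : 1 / (81:ℝ) ^ k = 81 * (1 / 81 ^ (k + 1)) := by rw [pow_succ]; field_simp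
    rw [h4]
    linarith

lemma r_le_one (p : ℕ) : r p ≤ 1 := rho_le_one _

lemma summable_sq : Summable (fun p : ℕ => 13122 / ((p:ℝ) + 1) ^ 2) := by
  have h : Summable (fun p : ℕ => 1 / ((p:ℝ)) ^ 2) := Real.summable_one_div_nat_pow.mpr (by norm_num)
  have h2 := (summable_nat_add_iff 1).mpr h
  have h3 := h2.mul_left 13122
  refine h3.congr (fun p => ?_)
  push_cast; ring

lemma summable_B : Summable (fun p : ℕ => r p * |M (B p)|) := by
  refine Summable.of_nonneg_of_le (fun p => mul_nonneg (r_nonneg p) (abs_nonneg _)) (fun p => ?_) summable_sq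
  have h1 := M_B_bound p
  have h2 := r_le_one p
  have h3 := r_nonneg p
  have h4 := abs_nonneg (M (B p))
  nlinarith

lemma summable_A : Summable (fun p : ℕ => r p * |M (A p)|) := by
  refine Summable.of_nonneg_of_le (fun p => mul_nonneg (r_nonneg p) (abs_nonneg _)) (fun p => ?_) summable_sq
  have h1 := M_A_bound p
  have h2 := r_le_one p
  have h3 := r_nonneg p
  have h4 := abs_nonneg (M (A p))
  nlinarith

lemma M_sub (p : ℕ) : M (B p) - M (A p) = ∑' j : ℕ, (1 / 2 : ℝ) ^ j * D p j := by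
  rw [M, M, ← (M_summable (B p)).tsum_sub (M_summable (A p))]
  congr 1; ext j; unfold D; ring

lemma D_summable (p : ℕ) : Summable (fun j : ℕ => (1 / 2 : ℝ) ^ j * D p j) := by
  refine ((M_summable (B p)).sub (M_summable (A p))).congr (fun j => ?_)
  unfold D; ring

lemma M_sub_nonneg (p : ℕ) : 0 ≤ M (B p) - M (A p) := by
  rw [M_sub]
  rcases Nat.eq_zero_or_pos (Nat.log 9 p) with hl | hl
  · exact tsum_nonneg (fun j => mul_nonneg (by positivity) (D_nonneg (by omega)))
  · obtain ⟨k, hk⟩ : ∃ k, Nat.log 9 p = k + 1 := ⟨Nat.log 9 p - 1, by omega⟩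
    have h1 : ∑ j ∈ Finset.range (k + 2), (1 / 2 : ℝ) ^ j * D p j ≤ ∑' j : ℕ, (1 / 2 : ℝ) ^ j * D p j := by
      refine (D_summable p).sum_le_tsum _ (fun j hj => ?_)
      rw [Finset.mem_range, not_lt] at hj
      exact mul_nonneg (by positivity) (D_nonneg (by omega))
    refine le_trans ?_ h1
    rw [Finset.sum_range_succ, Finset.sum_range_succ, Finset.sum_eq_zero, D_prev hk, D_top hk]
    · have h2 := cos_e_mono (k + 1)
      have h3 := cos_e'_ge (k + 1)
      have h4 : (0:ℝ) < (1 / 2) ^ k := by positivity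
      rw [pow_succ]
      nlinarith
    · intro j hj
      rw [Finset.mem_range] at hj
      rw [D_zero (by omega)]; simp

lemma M_sub_pos : 0 < M (B 0) - M (A 0) := by
  rw [M_sub]
  refine (D_summable 0).tsum_pos (fun j => mul_nonneg (by positivity) (D_nonneg (by simp))) 0 ?_
  rw [D_top (by simp)]
  have h1 := cos_e_ge (0 + 1)
  have h2 := cos_e_ge 0
  have h3 := cos_e'_ge 0
  simp only [pow_zero, one_mul]
  linarith

/-! ### One strictly increasing list of frequencies -/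

/-- all frequencies in increasing order -/
def nu (l : ℕ) : ℕ := if l % 2 = 0 then B (l / 2) else A (l / 2)

/-- the coefficients -/
noncomputable def b (l : ℕ) : ℝ := if l % 2 = 0 then r (l / 2) else - r (l / 2)

lemma nu_even (p : ℕ) : nu (2 * p) = B p := by unfold nu; simp
lemma nu_odd (p : ℕ) : nu (2 * p + 1) = A p := by
  unfold nu
  rw [if_neg (by omega)]; congr 1; omega
lemma b_even (p : ℕ) : b (2 * p) = r p := by unfold b; simp
lemma b_odd (p : ℕ) : b (2 * p + 1) = - r p := by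
  unfold b
  rw [if_neg (by omega)]; congr 2; omega

lemma nu_strictMono : StrictMono nu := by
  apply strictMono_nat_of_lt_succ
  intro l
  rcases Nat.even_or_odd' l with ⟨p, h | h⟩
  · rw [h, nu_even, nu_odd]; exact B_lt_A p
  · rw [h, nu_odd, show 2 * p + 1 + 1 = 2 * (p + 1) by ring, nu_even]; exact A_lt_B p

lemma nu_pos (l : ℕ) : 1 ≤ nu l := by
  rcases Nat.even_or_odd' l with ⟨p, h | h⟩
  · rw [h, nu_even]; exact B_pos p
  · rw [h, nu_odd]; exact (B_pos p).trans (B_lt_A p).le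

lemma abs_b (l : ℕ) : |b l| = r (l / 2) := by
  unfold b
  split_ifs
  · exact abs_of_nonneg (r_nonneg _)
  · rw [abs_neg]; exact abs_of_nonneg (r_nonneg _)

lemma r_half_tendsto : Filter.Tendsto (fun l => r (l / 2)) Filter.atTop (nhds 0) := by
  have : Filter.Tendsto (fun l : ℕ => l / 2) Filter.atTop Filter.atTop :=
    Nat.tendsto_div_const_atTop (by norm_num)
  exact r_tendsto.comp this

lemma b_tendsto : Filter.Tendsto b Filter.atTop (nhds 0) := by
  apply squeeze_zero_norm (a := fun l => r (l / 2)) _ r_half_tendsto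
  intro l
  rw [Real.norm_eq_abs, abs_b]

/-- partial sums over the list -/
lemma partial_even (x : ℝ) (P : ℕ) : ∑ l ∈ Finset.range (2 * P), b l * cos (nu l * x)
    = ∑ p ∈ Finset.range P, r p * (cos (B p * x) - cos (A p * x)) := by
  induction P with
  | zero => simp
  | succ P ih =>
    rw [show 2 * (P + 1) = 2 * P + 1 + 1 by ring, Finset.sum_range_succ, Finset.sum_range_succ, ih,
      Finset.sum_range_succ, nu_even, nu_odd, b_even, b_odd]
    ring

lemma partial_tendsto {x : ℝ}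
    (h : Filter.Tendsto (fun P => ∑ p ∈ Finset.range P, r p * (cos (B p * x) - cos (A p * x)))
      Filter.atTop (nhds 0)) :
    Filter.Tendsto (fun L => ∑ l ∈ Finset.range L, b l * cos (nu l * x)) Filter.atTop (nhds 0) := by
  have hdiv : Filter.Tendsto (fun l : ℕ => l / 2) Filter.atTop Filter.atTop :=
    Nat.tendsto_div_const_atTop (by norm_num)
  have h1 := h.comp hdiv
  have h2 : Filter.Tendsto (fun L => ∑ l ∈ Finset.range L, b l * cos (nu l * x)
      - ∑ p ∈ Finset.range (L / 2), r p * (cos (B p * x) - cos (A p * x))) Filter.atTop (nhds 0) := by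
    apply squeeze_zero_norm (a := fun l => r (l / 2)) _ r_half_tendsto
    intro L
    rcases Nat.even_or_odd' L with ⟨P, hP | hP⟩
    · have h3 : L / 2 = P := by omega
      rw [h3, hP, partial_even, sub_self, norm_zero]
      exact r_nonneg _
    · have h3 : L / 2 = P := by omega
      rw [h3, hP, Finset.sum_range_succ, partial_even, b_even, nu_even]
      have h4 := Real.abs_cos_le_one (B P * x)
      have h5 := r_nonneg P
      rw [add_sub_cancel_left, Real.norm_eq_abs, abs_mul, abs_of_nonneg h5]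
      nlinarith
  have h3 := h2.add h1
  simp only [add_zero] at h3
  refine h3.congr (fun L => ?_)
  simp only [Function.comp]
  ring

lemma y_tendsto_sum (j : ℕ) :
    Filter.Tendsto (fun L => ∑ l ∈ Finset.range L, b l * cos (nu l * y j)) Filter.atTop (nhds 0) := by
  apply partial_tendsto
  apply tendsto_const_nhds.congr'
  filter_upwards [Filter.eventually_ge_atTop (9 ^ (j + 2))] with P hP
  exact (T_eventually hP).symm

lemma zero_tendsto_sum :
    Filter.Tendsto (fun L => ∑ l ∈ Finset.range L, b l * cos (nu l * 0)) Filter.atTop (nhds 0) := by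
  apply partial_tendsto
  simp


/-! ### The series on the integers -/

/-- coefficient at the natural frequency `n` of the cosine series -/
noncomputable def h (n : ℕ) : ℝ := Function.extend nu b 0 n

lemma h_nu (l : ℕ) : h (nu l) = b l := by
  unfold h; exact nu_strictMono.injective.extend_apply b (0 : ℕ → ℝ) l

lemma h_of_not {n : ℕ} (hn : n ∉ Set.range nu) : h n = 0 := by
  unfold h; exact Function.extend_apply' b (0 : ℕ → ℝ) n (by simpa using hn)

lemma h_zero : h 0 = 0 := by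
  apply h_of_not
  rintro ⟨l, hl⟩
  have := nu_pos l
  omega

/-- number of frequencies below `N` -/
noncomputable def cnt (N : ℕ) : ℕ :=
  Nat.find (⟨N, nu_strictMono.le_apply⟩ : ∃ l, N ≤ nu l)

lemma lt_cnt_iff {N l : ℕ} : l < cnt N ↔ nu l < N := by
  constructor
  · intro h
    exact not_le.mp (Nat.find_min (⟨N, nu_strictMono.le_apply⟩ : ∃ l, N ≤ nu l) h)
  · intro h
    by_contra hc
    rw [not_lt] at hc
    have h1 : N ≤ nu (cnt N) := Nat.find_spec (⟨N, nu_strictMono.le_apply⟩ : ∃ l, N ≤ nu l)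
    have h2 := nu_strictMono.monotone hc
    omega

lemma cnt_tendsto : Filter.Tendsto cnt Filter.atTop Filter.atTop := by
  apply Filter.tendsto_atTop_atTop.mpr
  intro L
  refine ⟨nu L + 1, fun N hN => ?_⟩
  exact (lt_cnt_iff.mpr (by omega : nu L < N)).le

lemma sum_h (c : ℕ → ℝ) (N : ℕ) :
    ∑ n ∈ Finset.range N, h n * c n = ∑ l ∈ Finset.range (cnt N), b l * c (nu l) := by
  symm
  have h1 : ∑ l ∈ Finset.range (cnt N), b l * c (nu l)
      = ∑ n ∈ (Finset.range (cnt N)).image nu, h n * c n := by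
    rw [Finset.sum_image (fun x _ y _ hxy => nu_strictMono.injective hxy)]
    exact Finset.sum_congr rfl (fun l _ => by rw [h_nu])
  rw [h1]
  apply Finset.sum_subset
  · intro n hn
    simp only [Finset.mem_image, Finset.mem_range] at hn ⊢
    obtain ⟨l, hl, rfl⟩ := hn
    exact lt_cnt_iff.mp hl
  · intro n hn hn2
    rw [h_of_not, zero_mul]
    rintro ⟨l, rfl⟩
    apply hn2
    simp only [Finset.mem_image, Finset.mem_range] at hn ⊢
    exact ⟨l, lt_cnt_iff.mpr hn, rfl⟩

/-- the coefficients of the trigonometric series -/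
noncomputable def a (n : ℤ) : ℂ := ((h n.natAbs : ℝ) : ℂ) / 2

lemma a_neg (n : ℤ) : a (-n) = a n := by unfold a; rw [Int.natAbs_neg]

lemma fourier_pair (n : ℤ) (x : ℝ) :
    fourier n ((x : ℝ) : AddCircle (2 * π)) + fourier (-n) ((x : ℝ) : AddCircle (2 * π))
      = ((2 * cos (n * x) : ℝ) : ℂ) := by
  rw [fourier_coe_apply, fourier_coe_apply]
  have hpi : ((2 * π : ℝ) : ℂ) ≠ 0 := by exact_mod_cast Real.two_pi_pos.ne'
  have e1 : 2 * (π : ℂ) * Complex.I * (n : ℂ) * (x : ℂ) / ((2 * π : ℝ) : ℂ) = ((n : ℂ) * x) * Complex.I := by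
    rw [div_eq_iff hpi]; push_cast; ring
  have e2 : 2 * (π : ℂ) * Complex.I * ((-n : ℤ) : ℂ) * (x : ℂ) / ((2 * π : ℝ) : ℂ)
      = (-((n : ℂ) * x)) * Complex.I := by
    rw [div_eq_iff hpi]; push_cast; ring
  rw [e1, e2]
  push_cast
  rw [Complex.two_cos]

lemma sum_Icc (x : ℝ) (N : ℕ) :
    ∑ n ∈ Finset.Icc (-(N : ℤ)) (N : ℤ), a n * fourier n ((x : ℝ) : AddCircle (2 * π))
      = ((∑ n ∈ Finset.range (N + 1), h n * cos (n * x) : ℝ) : ℂ) := by
  induction N with
  | zero => simp [a, h_zero]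
  | succ N ih =>
    have hI : Finset.Icc (-((N + 1 : ℕ) : ℤ)) ((N + 1 : ℕ) : ℤ)
        = insert ((N : ℤ) + 1) (insert (-((N : ℤ) + 1)) (Finset.Icc (-(N : ℤ)) (N : ℤ))) := by
      ext z; simp only [Finset.mem_Icc, Finset.mem_insert]; push_cast; omega
    rw [hI, Finset.sum_insert, Finset.sum_insert, ih, Finset.sum_range_succ _ (N + 1), a_neg,
      ← add_assoc, ← mul_add, fourier_pair]
    · have : a ((N : ℤ) + 1) = ((h (N + 1) : ℝ) : ℂ) / 2 := by
        unfold a; congr 3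
      rw [this]
      push_cast
      ring
    · simp only [Finset.mem_Icc]; omega
    · simp only [Finset.mem_Icc, Finset.mem_insert]; omega

lemma S_tendsto {x : ℝ}
    (hx : Filter.Tendsto (fun L => ∑ l ∈ Finset.range L, b l * cos (nu l * x)) Filter.atTop (nhds 0)) :
    Filter.Tendsto (fun N : ℕ =>
      ∑ n ∈ Finset.Icc (-(N : ℤ)) (N : ℤ), a n * fourier n ((x : ℝ) : AddCircle (2 * π)))
      Filter.atTop (nhds 0) := by
  have h1 : Filter.Tendsto (fun N : ℕ => cnt (N + 1)) Filter.atTop Filter.atTop :=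
    cnt_tendsto.comp (Filter.tendsto_add_atTop_nat 1)
  have h2 := hx.comp h1
  have h3 : Filter.Tendsto (fun N : ℕ => ((∑ n ∈ Finset.range (N + 1), h n * cos (n * x) : ℝ) : ℂ))
      Filter.atTop (nhds 0) := by
    rw [← Complex.ofReal_zero]
    refine (Complex.continuous_ofReal.tendsto 0).comp ?_
    refine h2.congr (fun N => ?_)
    simp only [Function.comp]
    rw [sum_h (fun n => cos (n * x))]
  refine h3.congr (fun N => ?_)
  rw [sum_Icc]

lemma S_tendsto_neg {x : ℝ}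
    (hx : Filter.Tendsto (fun L => ∑ l ∈ Finset.range L, b l * cos (nu l * x)) Filter.atTop (nhds 0)) :
    Filter.Tendsto (fun N : ℕ =>
      ∑ n ∈ Finset.Icc (-(N : ℤ)) (N : ℤ), a n * fourier n (((-x : ℝ)) : AddCircle (2 * π)))
      Filter.atTop (nhds 0) := by
  apply S_tendsto
  refine hx.congr (fun L => ?_)
  apply Finset.sum_congr rfl
  intro l _
  rw [mul_neg, Real.cos_neg]

lemma a_tendsto : Filter.Tendsto a Filter.cofinite (nhds 0) := by
  rw [Metric.tendsto_nhds]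
  intro ε hε
  rw [Filter.eventually_cofinite]
  have hb := b_tendsto
  rw [Metric.tendsto_atTop] at hb
  obtain ⟨L, hL⟩ := hb ε hε
  refine (Set.finite_Icc (-(nu L : ℤ)) (nu L : ℤ)).subset ?_
  intro n hn
  simp only [Set.mem_ofPred_eq, dist_zero_right, not_lt] at hn
  by_contra hc
  have hlarge : nu L < n.natAbs := by
    simp only [Set.mem_Icc, not_and_or, not_le] at hc
    omega
  by_cases hr : n.natAbs ∈ Set.range nu
  · obtain ⟨l, hl⟩ := hr
    have h1 : L < l := by
      rw [← hl] at hlarge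
      exact nu_strictMono.lt_iff_lt.mp hlarge
    have h2 := hL l h1.le
    rw [a, ← hl, h_nu, norm_div] at hn
    simp only [Complex.norm_real, Complex.norm_ofNat] at hn
    rw [Real.dist_0_eq_abs] at h2
    rw [Real.norm_eq_abs] at hn
    have := abs_nonneg (b l)
    linarith
  · rw [a, h_of_not hr] at hn
    simp at hn
    linarith

/-! ### The set and the measure -/

/-- the points on the circle -/
noncomputable def z (j : ℕ) : AddCircle (2 * π) := ((y j : ℝ) : AddCircle (2 * π))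

/-- mirror points -/
noncomputable def z' (j : ℕ) : AddCircle (2 * π) := ((-(y j) : ℝ) : AddCircle (2 * π))

/-- the closed set -/
noncomputable def F : Set (AddCircle (2 * π)) :=
  insert ((0 : ℝ) : AddCircle (2 * π)) (Set.range z) ∪ insert ((0 : ℝ) : AddCircle (2 * π)) (Set.range z')

lemma y_tendsto : Filter.Tendsto y Filter.atTop (nhds 0) := by
  refine squeeze_zero (fun j => (y_pos j).le) (g := fun j : ℕ => π / 2 * (1 / ((j : ℝ) + 1))) ?_ ?_
  · intro j
    unfold y
    have h1 : (j : ℝ) + 1 ≤ Q (j + 2) := by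
      have : j + 1 ≤ Q (j + 2) := by
        unfold Q
        calc j + 1 ≤ (j + 2) ^ 2 := by nlinarith
          _ ≤ 9 ^ ((j + 2) ^ 2) := (Nat.lt_pow_self (by norm_num)).le
      exact_mod_cast this
    have h2 : π / (2 * (Q (j + 2) : ℝ)) = π / 2 * (1 / Q (j + 2)) := by field_simp
    rw [h2]
    gcongr
  · have := tendsto_one_div_add_atTop_nhds_zero_nat (𝕜 := ℝ)
    simpa using this.const_mul (π / 2)

lemma F_closed : IsClosed F := by
  have hc : Continuous (fun x : ℝ => (x : AddCircle (2 * π))) := AddCircle.continuous_mk' _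
  have h1 : Filter.Tendsto z Filter.atTop (nhds ((0 : ℝ) : AddCircle (2 * π))) :=
    (hc.tendsto 0).comp y_tendsto
  have h2 : Filter.Tendsto z' Filter.atTop (nhds ((0 : ℝ) : AddCircle (2 * π))) := by
    have : Filter.Tendsto (fun j => - y j) Filter.atTop (nhds 0) := by simpa using y_tendsto.neg
    exact (hc.tendsto 0).comp this
  exact (h1.isCompact_insert_range.union h2.isCompact_insert_range).isClosed

/-- the measure -/
noncomputable def mu : MeasureTheory.Measure (AddCircle (2 * π)) :=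
  MeasureTheory.Measure.sum (fun j : ℕ =>
    ((1 / 2 : ENNReal) ^ j) • (MeasureTheory.Measure.dirac (z j) + MeasureTheory.Measure.dirac (z' j)))

instance mu_finite : MeasureTheory.IsFiniteMeasure mu := by
  constructor
  rw [mu, MeasureTheory.Measure.sum_apply _ MeasurableSet.univ]
  have : ∀ j : ℕ, (((1 / 2 : ENNReal) ^ j) • (MeasureTheory.Measure.dirac (z j)
      + MeasureTheory.Measure.dirac (z' j))) Set.univ = (1 / 2 : ENNReal) ^ j * 2 := by
    intro j
    simp only [MeasureTheory.Measure.smul_apply, MeasureTheory.Measure.add_apply, smul_eq_mul,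
      MeasureTheory.measure_univ]
    norm_num
  simp_rw [this]
  rw [ENNReal.tsum_mul_right, ENNReal.tsum_geometric]
  norm_num

lemma mu_compl : mu Fᶜ = 0 := by
  rw [mu, MeasureTheory.Measure.sum_apply _ F_closed.measurableSet.compl]
  rw [ENNReal.tsum_eq_zero]
  intro j
  have h1 : z j ∉ Fᶜ := by
    simp only [Set.mem_compl_iff, not_not]
    left; right; exact ⟨j, rfl⟩
  have h2 : z' j ∉ Fᶜ := by
    simp only [Set.mem_compl_iff, not_not]
    right; right; exact ⟨j, rfl⟩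
  simp only [MeasureTheory.Measure.smul_apply, MeasureTheory.Measure.add_apply, smul_eq_mul,
    MeasureTheory.Measure.dirac_apply' _ F_closed.measurableSet.compl, Set.indicator_of_notMem h1,
    Set.indicator_of_notMem h2]
  simp

instance fact_two_pi : Fact (0 < 2 * π) := ⟨Real.two_pi_pos⟩

lemma mu_fourier (n : ℤ) : ∫ t, fourier (-n) t ∂mu = ((2 * M n.natAbs : ℝ) : ℂ) := by
  have hint : ∀ μ' : MeasureTheory.Measure (AddCircle (2 * π)), MeasureTheory.IsFiniteMeasure μ' →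
      MeasureTheory.Integrable (fun t => (fourier (-n) t : ℂ)) μ' := by
    intro μ' _
    exact (fourier (-n)).continuous.integrable_of_hasCompactSupport
      (HasCompactSupport.of_compactSpace _)
  have h1 := MeasureTheory.hasSum_integral_measure (hint mu inferInstance)
  have h2 : ∀ j : ℕ, ∫ t, fourier (-n) t ∂(((1 / 2 : ENNReal) ^ j) •
      (MeasureTheory.Measure.dirac (z j) + MeasureTheory.Measure.dirac (z' j)))
      = (((1 / 2 : ℝ) ^ j * cos (n.natAbs * y j) : ℝ) : ℂ) * 2 := by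
    intro j
    rw [MeasureTheory.integral_smul_measure, MeasureTheory.integral_add_measure (hint _ inferInstance)
      (hint _ inferInstance), MeasureTheory.integral_dirac, MeasureTheory.integral_dirac]
    have h3 : (fourier (-n) (z j) : ℂ) + fourier (-n) (z' j) = ((2 * cos (n * y j) : ℝ) : ℂ) := by
      have h4 : (fourier (-n) (z' j) : ℂ) = fourier n (z j) := by
        rw [z, z', fourier_coe_apply, fourier_coe_apply]; congr 1; push_cast; ring
      rw [h4, add_comm]
      exact fourier_pair n (y j)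
    rw [h3]
    have h5 : cos (n.natAbs * y j) = cos (n * y j) := by
      rcases Int.natAbs_eq n with h | h
      · conv_rhs => rw [h]
        simp
      · conv_rhs => rw [h]
        simp
    rw [h5, ENNReal.toReal_pow]
    simp only [one_div, ENNReal.toReal_inv, ENNReal.toReal_ofNat]
    rw [Complex.real_smul]
    push_cast
    ring
  simp_rw [h2] at h1
  have h3 : HasSum (fun j : ℕ => (((1 / 2 : ℝ) ^ j * cos (n.natAbs * y j) : ℝ) : ℂ) * 2)
      (((M n.natAbs : ℝ) : ℂ) * 2) := by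
    apply HasSum.mul_right
    exact_mod_cast (M_summable n.natAbs).hasSum
  have h4 := h1.unique h3
  rw [mu, h4]; push_cast; ring


/-! ### Final assembly -/

lemma hasSum_pairing :
    HasSum (fun l : ℕ => b l * M (nu l)) (∑' p : ℕ, r p * (M (B p) - M (A p))) := by
  have hB : Summable (fun p : ℕ => r p * M (B p)) := by
    refine Summable.of_norm (summable_B.congr (fun p => ?_))
    rw [norm_mul, Real.norm_eq_abs, Real.norm_eq_abs, abs_of_nonneg (r_nonneg p)]
  have hA : Summable (fun p : ℕ => r p * M (A p)) := by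
    refine Summable.of_norm (summable_A.congr (fun p => ?_))
    rw [norm_mul, Real.norm_eq_abs, Real.norm_eq_abs, abs_of_nonneg (r_nonneg p)]
  have h1 : HasSum (fun p : ℕ => b (2 * p) * M (nu (2 * p))) (∑' p, r p * M (B p)) := by
    simp_rw [b_even, nu_even]; exact hB.hasSum
  have h2 : HasSum (fun p : ℕ => b (2 * p + 1) * M (nu (2 * p + 1))) (-(∑' p, r p * M (A p))) := by
    simp_rw [b_odd, nu_odd, neg_mul]; exact hA.hasSum.neg
  have h3 := HasSum.even_add_odd (f := fun l : ℕ => b l * M (nu l)) h1 h2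
  have h4 : ∑' p : ℕ, r p * (M (B p) - M (A p))
      = ∑' p, r p * M (B p) + -(∑' p, r p * M (A p)) := by
    rw [← sub_eq_add_neg, ← hB.tsum_sub hA]
    congr 1; ext p; ring
  rw [h4]
  exact h3

lemma summable_list : Summable (fun l : ℕ => |b l| * |M (nu l)|) := by
  have h1 : HasSum (fun p : ℕ => |b (2 * p)| * |M (nu (2 * p))|) (∑' p, r p * |M (B p)|) := by
    simp_rw [b_even, nu_even, abs_of_nonneg (r_nonneg _)]; exact summable_B.hasSum
  have h2 : HasSum (fun p : ℕ => |b (2 * p + 1)| * |M (nu (2 * p + 1))|) (∑' p, r p * |M (A p)|) := by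
    simp_rw [b_odd, nu_odd, abs_neg, abs_of_nonneg (r_nonneg _)]; exact summable_A.hasSum
  exact (HasSum.even_add_odd (f := fun l : ℕ => |b l| * |M (nu l)|) h1 h2).summable

lemma pairing_pos : 0 < ∑' p : ℕ, r p * (M (B p) - M (A p)) := by
  have hB : Summable (fun p : ℕ => r p * M (B p)) := by
    refine Summable.of_norm (summable_B.congr (fun p => ?_))
    rw [norm_mul, Real.norm_eq_abs, Real.norm_eq_abs, abs_of_nonneg (r_nonneg p)]
  have hA : Summable (fun p : ℕ => r p * M (A p)) := by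
    refine Summable.of_norm (summable_A.congr (fun p => ?_))
    rw [norm_mul, Real.norm_eq_abs, Real.norm_eq_abs, abs_of_nonneg (r_nonneg p)]
  have hs : Summable (fun p : ℕ => r p * (M (B p) - M (A p))) := by
    refine (hB.sub hA).congr (fun p => ?_); ring
  refine hs.tsum_pos (fun p => mul_nonneg (r_nonneg p) (M_sub_nonneg p)) 0 ?_
  have : r 0 = 1 := by unfold r; simp [rho]
  rw [this, one_mul]
  exact M_sub_pos

/-- summability over the naturals of the pairing -/
lemma hasSum_nat : HasSum (fun n : ℕ => h n * M n) (∑' p : ℕ, r p * (M (B p) - M (A p))) := by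
  rw [← nu_strictMono.injective.hasSum_iff]
  · have : (fun n : ℕ => h n * M n) ∘ nu = fun l : ℕ => b l * M (nu l) := by
      ext l; simp only [Function.comp, h_nu]
    rw [this]
    exact hasSum_pairing
  · intro n hn
    rw [h_of_not hn, zero_mul]

lemma summable_nat : Summable (fun n : ℕ => |h n| * |M n|) := by
  rw [← nu_strictMono.injective.summable_iff]
  · refine summable_list.congr ?_
    intro l
    simp only [Function.comp, h_nu]
  · intro n hn
    rw [h_of_not hn, abs_zero, zero_mul]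


lemma h_mul_natAbs_neg (n : ℤ) (f : ℕ → ℝ) : f (-n).natAbs = f n.natAbs := by rw [Int.natAbs_neg]

lemma term_eq (n : ℤ) : (∫ t, fourier (-n) t ∂mu) * a (-n) = ((h n.natAbs * M n.natAbs : ℝ) : ℂ) := by
  rw [mu_fourier, a_neg, a]; push_cast; ring

lemma term_norm (n : ℤ) : ‖∫ t, fourier (-n) t ∂mu‖ * ‖a (-n)‖ = |h n.natAbs| * |M n.natAbs| := by
  rw [← norm_mul, term_eq, Complex.norm_real, Real.norm_eq_abs, abs_mul]

lemma final_summable : Summable (fun n : ℤ => ‖∫ t, fourier (-n) t ∂mu‖ * ‖a (-n)‖) := by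
  have h1 : (fun n : ℤ => ‖∫ t, fourier (-n) t ∂mu‖ * ‖a (-n)‖)
      = fun n : ℤ => |h n.natAbs| * |M n.natAbs| := by ext n; exact term_norm n
  rw [h1]
  apply Summable.of_nat_of_neg
  · simpa using summable_nat
  · simpa using summable_nat

lemma final_tsum : ∑' n : ℤ, (∫ t, fourier (-n) t ∂mu) * a (-n)
    = ((2 * ∑' p : ℕ, r p * (M (B p) - M (A p)) : ℝ) : ℂ) := by
  have h1 : (fun n : ℤ => (∫ t, fourier (-n) t ∂mu) * a (-n))
      = fun n : ℤ => ((h n.natAbs * M n.natAbs : ℝ) : ℂ) := by ext n; exact term_eq n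
  rw [h1]
  have h2 : HasSum (fun n : ℤ => h n.natAbs * M n.natAbs)
      (∑' p : ℕ, r p * (M (B p) - M (A p)) + ∑' p : ℕ, r p * (M (B p) - M (A p))
        - h (0 : ℤ).natAbs * M (0 : ℤ).natAbs) := by
    apply HasSum.of_nat_of_neg (f := fun n : ℤ => h n.natAbs * M n.natAbs)
    · simpa using hasSum_nat
    · simpa using hasSum_nat
  have h3 := (Complex.hasSum_ofReal.mpr h2).tsum_eq
  rw [h3]
  simp only [Int.natAbs_zero, h_zero]
  push_cast; ring

theorem main : ¬ (∀ (a : ℤ → ℂ) (F : Set (AddCircle (2 * π))) (μ : MeasureTheory.Measure (AddCircle (2 * π))),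
      Filter.Tendsto a Filter.cofinite (nhds 0) →
      IsClosed F →
      (∀ t ∈ F, Filter.Tendsto
        (fun N : ℕ => ∑ n ∈ Finset.Icc (-(N : ℤ)) (N : ℤ), a n * fourier n t)
        Filter.atTop (nhds 0)) →
      MeasureTheory.IsFiniteMeasure μ →
      μ Fᶜ = 0 →
      Summable (fun n : ℤ => ‖∫ t, fourier (-n) t ∂μ‖ * ‖a (-n)‖) →
      ∑' n : ℤ, (∫ t, fourier (-n) t ∂μ) * a (-n) = 0) := by
  intro H
  have h0 := H a F mu a_tendsto F_closed ?_ mu_finite mu_compl final_summable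
  · rw [final_tsum] at h0
    have h1 := pairing_pos
    have h2 : (2 * ∑' p : ℕ, r p * (M (B p) - M (A p)) : ℝ) = 0 := by exact_mod_cast h0
    linarith
  · intro t ht
    rcases ht with ht | ht
    · rcases ht with rfl | ⟨j, rfl⟩
      · exact S_tendsto zero_tendsto_sum
      · exact S_tendsto (y_tendsto_sum j)
    · rcases ht with rfl | ⟨j, rfl⟩
      · exact S_tendsto zero_tendsto_sum
      · exact S_tendsto_neg (y_tendsto_sum j)

end Pool.Agent.Helper145.NullPair
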