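import Mathlib

set_option autoImplicit false

open Finset

namespace Pool.Agent.Helper145.Toep

/-- the basic quantity at scale `n` -/
noncomputable def XX (n : ℕ) (w : ℂ) : ℝ := ‖1 - w ^ (2 * n)‖ * (‖∑ r ∈ range n, w ^ r‖ / n) ^ 2

lemma XX_nonneg (n : ℕ) (w : ℂ) : 0 ≤ XX n w := by unfold XX; positivity

lemma geom_norm_le {w : ℂ} (hw : ‖w‖ = 1) (n : ℕ) : ‖∑ r ∈ range n, w ^ r‖ ≤ n := by
  calc ‖∑ r ∈ range n, w ^ r‖ ≤ ∑ r ∈ range n, ‖w ^ r‖ := norm_sum_le _ _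
    _ = n := by simp [norm_pow, hw]

lemma one_sub_pow_norm (w : ℂ) (n : ℕ) : ‖1 - w ^ n‖ = ‖1 - w‖ * ‖∑ r ∈ range n, w ^ r‖ := by
  rw [← norm_mul]
  congr 1
  have := geom_sum_mul w n
  linear_combination this

lemma one_sub_norm_le {w : ℂ} (hw : ‖w‖ = 1) : ‖1 - w‖ ≤ 2 := by
  calc ‖1 - w‖ ≤ ‖(1:ℂ)‖ + ‖w‖ := norm_sub_le _ _
    _ = 2 := by rw [hw, norm_one]; norm_num

lemma XX_le1 {w : ℂ} (hw : ‖w‖ = 1) {n : ℕ} (hn : 0 < n) : XX n w ≤ 2 * (n * ‖1 - w‖) := by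
  have hn' : (0:ℝ) < n := by exact_mod_cast hn
  unfold XX
  have h1 : ‖1 - w ^ (2 * n)‖ ≤ 2 * (n * ‖1 - w‖) := by
    rw [one_sub_pow_norm]
    have := geom_norm_le hw (2 * n)
    push_cast at this
    nlinarith [norm_nonneg (1 - w)]
  have h2 : ‖∑ r ∈ range n, w ^ r‖ / n ≤ 1 := by
    rw [div_le_one hn']; exact geom_norm_le hw n
  have h3 : 0 ≤ ‖∑ r ∈ range n, w ^ r‖ / n := by positivity
  have h4 : (‖∑ r ∈ range n, w ^ r‖ / n) ^ 2 ≤ 1 := by nlinarith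
  calc _ ≤ ‖1 - w ^ (2 * n)‖ * 1 := by gcongr
    _ ≤ _ := by rw [mul_one]; exact h1

lemma XX_le2 {w : ℂ} (hw : ‖w‖ = 1) {n : ℕ} (hn : 0 < n) : XX n w * (n * ‖1 - w‖) ^ 2 ≤ 8 := by
  have hn' : (0:ℝ) < n := by exact_mod_cast hn
  unfold XX
  have h1 : ‖1 - w ^ (2 * n)‖ ≤ 2 := one_sub_norm_le (by rw [norm_pow, hw, one_pow])
  have h2 : ‖1 - w ^ n‖ ≤ 2 := one_sub_norm_le (by rw [norm_pow, hw, one_pow])
  have h3 : (‖∑ r ∈ range n, w ^ r‖ / n) ^ 2 * (n * ‖1 - w‖) ^ 2 = ‖1 - w ^ n‖ ^ 2 := by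
    rw [one_sub_pow_norm w n]; field_simp
  calc ‖1 - w ^ (2 * n)‖ * (‖∑ r ∈ range n, w ^ r‖ / n) ^ 2 * (n * ‖1 - w‖) ^ 2
      = ‖1 - w ^ (2 * n)‖ * ((‖∑ r ∈ range n, w ^ r‖ / n) ^ 2 * (n * ‖1 - w‖) ^ 2) := by ring
    _ = ‖1 - w ^ (2 * n)‖ * ‖1 - w ^ n‖ ^ 2 := by rw [h3]
    _ ≤ 2 * 2 ^ 2 := by gcongr
    _ = 8 := by norm_num

/-- the telescoping function -/
noncomputable def gg (x : ℝ) : ℝ := 48 * (x / (1 + x))

lemma gg_step {x X : ℝ} (hx : 0 ≤ x) (_hX : 0 ≤ X) (h1 : X ≤ 2 * x) (h2 : X * x ^ 2 ≤ 8) :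
    X ≤ gg (2 * x) - gg x := by
  have e : gg (2 * x) - gg x = 48 * x / ((1 + x) * (1 + 2 * x)) := by
    unfold gg
    have : (1 + x) ≠ 0 := by positivity
    have : (1 + 2 * x) ≠ 0 := by positivity
    field_simp
    ring
  rw [e, le_div_iff₀ (by positivity)]
  by_cases h : x ≤ 2
  · nlinarith [mul_nonneg _hX hx, mul_nonneg hx hx, mul_nonneg (mul_nonneg hx hx) _hX,
      mul_nonneg hx (sub_nonneg.2 h), mul_nonneg (mul_nonneg hx hx) (sub_nonneg.2 h),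
      mul_nonneg (mul_nonneg hx hx) (sub_nonneg.2 h1), mul_nonneg hx (sub_nonneg.2 h1)]
  · rw [not_le] at h
    have h3 : X * x ≤ 4 := by nlinarith
    have h4 : X ≤ 2 := by nlinarith
    nlinarith

lemma XX_sum {w : ℂ} (hw : ‖w‖ = 1) (J : ℕ) : ∑ j ∈ range J, XX (2 ^ j) w ≤ 48 := by
  have h1 : ∑ j ∈ range J, XX (2 ^ j) w ≤ gg (2 ^ J * ‖1 - w‖) - gg (2 ^ 0 * ‖1 - w‖) := by
    rw [← Finset.sum_range_sub (fun j => gg (2 ^ j * ‖1 - w‖))]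
    apply Finset.sum_le_sum
    intro j _
    have hn : 0 < 2 ^ j := by positivity
    have h1 := XX_le1 hw hn
    have h2 := XX_le2 hw hn
    push_cast at h1 h2
    have h3 := gg_step (x := 2 ^ j * ‖1 - w‖) (by positivity) (XX_nonneg (2 ^ j) w) h1 h2
    rw [pow_succ, show (2:ℝ) ^ j * 2 * ‖1 - w‖ = 2 * (2 ^ j * ‖1 - w‖) by ring]
    exact h3
  have h2 : gg (2 ^ J * ‖1 - w‖) ≤ 48 := by
    unfold gg
    have h3 : (0:ℝ) ≤ 2 ^ J * ‖1 - w‖ := by positivity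
    have h4 : (2 ^ J * ‖1 - w‖) / (1 + 2 ^ J * ‖1 - w‖) ≤ 1 := by
      rw [div_le_one (by positivity)]; linarith
    linarith
  have h3 : 0 ≤ gg (2 ^ 0 * ‖1 - w‖) := by unfold gg; positivity
  linarith

/-- phase factors -/
noncomputable def ph (k l : ℤ) (A B : ℝ) : ℂ := Complex.exp (Complex.I * (((k:ℝ) * A + (l:ℝ) * B : ℝ) : ℂ))

lemma ph_norm (k l : ℤ) (A B : ℝ) : ‖ph k l A B‖ = 1 := by
  unfold ph; rw [mul_comm]; exact Complex.norm_exp_ofReal_mul_I _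

lemma ph_mul (k l k' l' : ℤ) (A B : ℝ) : ph k l A B * ph k' l' A B = ph (k + k') (l + l') A B := by
  unfold ph
  rw [← Complex.exp_add]
  congr 1
  push_cast
  ring

/-- the unit complex number attached to `A - B` -/
noncomputable def ww (A B : ℝ) : ℂ := ph 1 (-1) A B

lemma ww_norm (A B : ℝ) : ‖ww A B‖ = 1 := ph_norm _ _ _ _

lemma ww_pow (A B : ℝ) (r : ℕ) : ww A B ^ r = ph r (-r) A B := by
  induction r with
  | zero => simp [ph]
  | succ r ih => rw [pow_succ, ih, ww, ph_mul]; push_cast; congr 1; ring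

lemma ph_neg (k l : ℤ) (A B : ℝ) : ph (-k) (-l) A B = (starRingEnd ℂ) (ph k l A B) := by
  unfold ph
  rw [← Complex.exp_conj, map_mul, Complex.conj_I, Complex.conj_ofReal]
  congr 1
  push_cast
  ring

lemma block_one (n : ℕ) (A B : ℝ) :
    ‖∑ r ∈ range n, ∑ s ∈ range n, (1 / (n:ℂ) ^ 2) *
      (ph (n + r - s) (n - r + s) A B - ph (3 * n + r - s) (-n - r + s) A B)‖ ≤ XX n (ww A B) := by
  have h1 : ∀ r ∈ range n, ∀ s ∈ range n, (1 / (n:ℂ) ^ 2) *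
      (ph (n + r - s) (n - r + s) A B - ph (3 * n + r - s) (-n - r + s) A B)
      = ph n n A B * (1 - ww A B ^ (2 * n)) * (1 / (n:ℂ) ^ 2) *
        (ww A B ^ r * (starRingEnd ℂ) (ww A B ^ s)) := by
    intro r _ s _
    have e1 : ph (n + r - s) (n - r + s) A B = ph n n A B * (ph r (-r) A B * ph (-s) s A B) := by
      rw [ph_mul, ph_mul]; congr 1 <;> ring
    have e2 : ph (3 * n + r - s) (-n - r + s) A B
        = ph n n A B * ph (2 * n : ℕ) (-(2 * n : ℕ)) A B * (ph r (-r) A B * ph (-s) s A B) := by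
      rw [ph_mul, ph_mul, ph_mul]; congr 1 <;> push_cast <;> ring
    have e3 : ph (-s) s A B = (starRingEnd ℂ) (ww A B ^ s) := by
      rw [ww_pow, ← ph_neg]; simp
    rw [e1, e2, e3, ← ww_pow, ← ww_pow]
    ring
  rw [Finset.sum_congr rfl (fun r hr => Finset.sum_congr rfl (h1 r hr))]
  have h2 : ∑ r ∈ range n, ∑ s ∈ range n, ph n n A B * (1 - ww A B ^ (2 * n)) * (1 / (n:ℂ) ^ 2) *
        (ww A B ^ r * (starRingEnd ℂ) (ww A B ^ s))
      = ph n n A B * (1 - ww A B ^ (2 * n)) * (1 / (n:ℂ) ^ 2) *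
        ((∑ r ∈ range n, ww A B ^ r) * (starRingEnd ℂ) (∑ s ∈ range n, ww A B ^ s)) := by
    rw [map_sum, Finset.sum_mul_sum, Finset.mul_sum]
    apply Finset.sum_congr rfl; intro r _
    rw [Finset.mul_sum]
  rw [h2, norm_mul, norm_mul, norm_mul, norm_mul, ph_norm, RCLike.norm_conj, norm_div, norm_pow, norm_one,
    Complex.norm_natCast]
  unfold XX
  apply le_of_eq
  ring

lemma XX_conj (n : ℕ) (w : ℂ) : XX n ((starRingEnd ℂ) w) = XX n w := by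
  unfold XX
  have h1 : (1 - (starRingEnd ℂ) w ^ (2 * n)) = (starRingEnd ℂ) (1 - w ^ (2 * n)) := by simp
  have h2 : ∑ r ∈ range n, (starRingEnd ℂ) w ^ r = (starRingEnd ℂ) (∑ r ∈ range n, w ^ r) := by simp
  rw [h1, h2, RCLike.norm_conj, RCLike.norm_conj]

lemma ph_swap (k l : ℤ) (A B : ℝ) : ph k l A B = ph l k B A := by
  unfold ph; congr 2; push_cast; ring

lemma ww_swap (A B : ℝ) : ww B A = (starRingEnd ℂ) (ww A B) := by
  unfold ww; rw [← ph_neg, ph_swap]; simp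

lemma block_two (n : ℕ) (A B : ℝ) :
    ‖∑ r ∈ range n, ∑ s ∈ range n, (1 / (n:ℂ) ^ 2) *
      (ph (n + r - s) (n - r + s) A B - ph (-n + r - s) (3 * n - r + s) A B)‖ ≤ XX n (ww A B) := by
  have h := block_one n B A
  rw [ww_swap, XX_conj, Finset.sum_comm] at h
  refine le_trans (le_of_eq ?_) h
  congr 1
  apply Finset.sum_congr rfl; intro r _
  apply Finset.sum_congr rfl; intro s _
  rw [ph_swap (n + r - s) (n - r + s), ph_swap (-n + r - s) (3 * n - r + s)]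
  congr 3 <;> ring

end Pool.Agent.Helper145.Toep
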