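import Pool.Agent.Helper145.Toep9

set_option autoImplicit false

open Finset MeasureTheory AddCircle
open scoped ENNReal NNReal Topology

namespace Pool.Agent.Helper145.Toep

/-- the value of the product at the test polynomial -/
lemma mom_prod (c : ℕ → ℂ) (P Q : ℕ → ℤ →₀ ℂ) (hP : ∀ i, ok (P i)) (hQ : ∀ i, ok (Q i))
    (hc : Summable fun i => ‖c i‖) (h : Polynomial ℂ) (j : ℕ)
    (hoff : ∀ i l, ¬ (i = j ∧ l = j) → evalW (corr (P i) (corr (Q l) del)) h = 0) :
    fourierCoeff (fun θ => (ser c P θ * ser c Q θ) * bdry h θ) 0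
      = c j * (c j * evalW (corr (P j) (corr (Q j) del)) h) := by
  have hmQ : ∀ l, mom (tp (Q l)) = corr (Q l) del := by
    intro l
    have := mom_tp (Q l) (G := fun _ => 1) continuous_const
    rw [mom_one] at this
    simpa using this
  have h0 : ∀ i l, mom (fun θ => tp (Q l) θ * (tp (P i) θ * bdry h θ)) 0
      = evalW (corr (P i) (corr (Q l) del)) h := by
    intro i l
    have e : (fun θ => tp (Q l) θ * (tp (P i) θ * bdry h θ)) = fun θ => (tp (P i) θ * tp (Q l) θ) * bdry h θ := by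
      funext θ; ring
    have hPQc : Continuous (fun θ => tp (P i) θ * tp (Q l) θ) := (tp_cont _).mul (tp_cont _)
    rw [e, mom_bdry hPQc]
    apply evalW_congr
    intro m
    rw [add_zero, mom_tp _ (tp_cont _), hmQ]
  have h1 : ∀ i, mom (fun θ => tp (P i) θ * (ser c Q θ * bdry h θ)) 0
      = if i = j then c j * evalW (corr (P j) (corr (Q j) del)) h else 0 := by
    intro i
    have e : (fun θ => tp (P i) θ * (ser c Q θ * bdry h θ)) = fun θ => ser c Q θ * (tp (P i) θ * bdry h θ) := by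
      funext θ; ring
    rw [e]
    have hPc : Continuous (fun θ => tp (P i) θ * bdry h θ) := (tp_cont _).mul (bdry_cont _)
    have hs := mom_ser hQ hc hPc 0
    by_cases hij : i = j
    · subst hij
      rw [if_pos rfl]
      refine hs.unique ?_
      have := hasSum_single (f := fun l => c l * mom (fun θ => tp (Q l) θ * (tp (P i) θ * bdry h θ)) 0) i (by
        intro l hl
        rw [h0, hoff i l (fun hh => hl hh.2), mul_zero])
      rwa [h0 i i] at this
    · rw [if_neg hij]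
      refine hs.unique ?_
      have e2 : (fun l => c l * mom (fun θ => tp (Q l) θ * (tp (P i) θ * bdry h θ)) 0) = fun _ => 0 := by
        funext l
        rw [h0, hoff i l (fun hh => hij hh.1), mul_zero]
      rw [e2]
      exact hasSum_zero
  rw [fourierCoeff_eq_mom, neg_zero]
  have e : (fun θ => (ser c P θ * ser c Q θ) * bdry h θ) = fun θ => ser c P θ * (ser c Q θ * bdry h θ) := by
    funext θ; ring
  rw [e]
  have hQc : Continuous (fun θ => ser c Q θ * bdry h θ) := (ser_cont hQ hc).mul (bdry_cont _)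
  have hs := mom_ser hP hc hQc 0
  refine hs.unique ?_
  have := hasSum_single (f := fun i => c i * mom (fun θ => tp (P i) θ * (ser c Q θ * bdry h θ)) 0) j (by
    intro i hi
    rw [h1, if_neg hi, mul_zero])
  rwa [h1 j, if_pos rfl] at this

/-- the final data -/
theorem final_data : ∃ (S : Sys) (f g : UnitAddCircle → ℂ), Continuous f ∧ Continuous g ∧
    (∃ A : S.Xs →L[ℂ] S.Xs, ∀ (p : Polynomial ℂ) (n : ℕ), S.coef n (A (S.pol p))
      = fourierCoeff (fun θ => f θ * bdry p θ) (n:ℤ)) ∧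
    (∃ A : S.Xs →L[ℂ] S.Xs, ∀ (p : Polynomial ℂ) (n : ℕ), S.coef n (A (S.pol p))
      = fourierCoeff (fun θ => g θ * bdry p θ) (n:ℤ)) ∧
    ¬ (∃ A : S.Xs →L[ℂ] S.Xs, ∀ (p : Polynomial ℂ), S.coef 0 (A (S.pol p))
      = fourierCoeff (fun θ => (f θ * g θ) * bdry p θ) 0) := by
  obtain ⟨M, K, Λ, d, P, Q, h, Hs, hK, hG, hlt⟩ := global_data
  obtain ⟨S, hSK, hSP, hSQ⟩ : ∃ S : Sys, S.K = K ∧ S.P = P ∧ S.Q = Q :=
    ⟨⟨K, P, Q, hK, fun j => (hG j).okP, fun j => (hG j).okQ⟩, rfl, rfl, rfl⟩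
  have hKpos : ∀ i, (0:ℝ) < K i := fun i => by
    have := hK i
    exact_mod_cast (by omega : 0 < K i)
  have hK1 : ∀ i, (1:ℝ) ≤ K i := fun i => by
    have := hK i
    exact_mod_cast (by omega : 1 ≤ K i)
  obtain ⟨c, hc⟩ : ∃ c : ℕ → ℂ, c = fun i => (((1 / 2 : ℝ) ^ i / K i : ℝ) : ℂ) := ⟨_, rfl⟩
  have hcn : ∀ i, ‖c i‖ = (1 / 2 : ℝ) ^ i / K i := by
    intro i
    rw [hc, Complex.norm_real, Real.norm_eq_abs, abs_of_nonneg (by positivity)]
  have hgeo : Summable fun i : ℕ => (1 / 2 : ℝ) ^ i := summable_geometric_of_lt_one (by norm_num) (by norm_num)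
  have hc1 : Summable fun i => ‖c i‖ := by
    apply Summable.of_nonneg_of_le (fun i => norm_nonneg _) _ hgeo
    intro i
    rw [hcn]
    exact div_le_self (by positivity) (hK1 i)
  have hcK : Summable fun i => ‖c i‖ * (K i : ℝ) := by
    refine hgeo.congr (fun i => ?_)
    rw [hcn, div_mul_cancel₀ _ (hKpos i).ne']
  have hokP : ∀ i, ok (P i) := fun i => (hG i).okP
  have hokQ : ∀ i, ok (Q i) := fun i => (hG i).okQ
  refine ⟨S, ser c P, ser c Q, ser_cont hokP hc1, ser_cont hokQ hc1, ?_, ?_, ?_⟩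
  · apply S.toep_bounded (lt := Lt.P) (φ := P)
    · intro i; rw [← hSP]; rfl
    · exact hc1
    · rw [← hSK] at hcK; exact hcK
  · apply S.toep_bounded (lt := Lt.Q) (φ := Q)
    · intro i; rw [← hSQ]; rfl
    · exact hc1
    · rw [← hSK] at hcK; exact hcK
  · rintro ⟨A, hA⟩
    have hbd : ∀ j : ℕ, (j:ℝ) ≤ ‖A‖ * 48 := by
      intro j
      have h1 := hA (h j)
      rw [mom_prod c P Q hokP hokQ hc1 (h j) j (fun i l hne => off_diag hG hlt i l j hne)] at h1
      have h2 : ‖S.coef 0 (A (S.pol (h j)))‖ ≤ ‖A (S.pol (h j))‖ := by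
        have := S.coef_norm_le 0 (A (S.pol (h j)))
        simpa using this
      have h3 : ‖A (S.pol (h j))‖ ≤ ‖A‖ * ‖S.pol (h j)‖ := A.le_opNorm _
      have h4 : ‖S.pol (h j)‖ ≤ 48 := by
        have : ‖S.emb (h j)‖ ≤ 48 := by
          apply lp.norm_le_of_forall_le (by norm_num)
          intro w
          rw [S.emb_apply, norm_div, Complex.norm_natCast]
          rw [div_le_iff₀ (S.cost_pos w)]
          exact main_bound hG hlt S hSK hSP hSQ w j
        exact this
      have h5 : (j:ℝ) ≤ ‖c j * (c j * evalW (corr (P j) (corr (Q j) del)) (h j))‖ := by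
        rw [norm_mul, norm_mul, hcn]
        have h6 := (hG j).big
        push_cast at h6
        have h8 : (K j : ℝ) ≠ 0 := (hKpos j).ne'
        have h9 : (1 / 2 : ℝ) ^ j * (1 / 2 : ℝ) ^ j * 4 ^ j = 1 := by
          rw [← mul_pow, ← mul_pow]; norm_num
        have h7 : (1 / 2 : ℝ) ^ j / K j * ((1 / 2 : ℝ) ^ j / K j * ((j:ℝ) * 4 ^ j * (K j : ℝ) ^ 2)) = (j:ℝ) := by
          have e1 : (1 / 2 : ℝ) ^ j / K j * ((1 / 2 : ℝ) ^ j / K j * ((j:ℝ) * 4 ^ j * (K j : ℝ) ^ 2))
              = ((1 / 2 : ℝ) ^ j * (1 / 2 : ℝ) ^ j * 4 ^ j) * (j:ℝ) := by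
            generalize (1 / 2 : ℝ) ^ j = u
            generalize (4 : ℝ) ^ j = v
            field_simp
          rw [e1, h9, one_mul]
        calc (j:ℝ) = (1 / 2 : ℝ) ^ j / K j * ((1 / 2 : ℝ) ^ j / K j * ((j:ℝ) * 4 ^ j * (K j : ℝ) ^ 2)) := h7.symm
          _ ≤ _ := by
            apply mul_le_mul_of_nonneg_left _ (by positivity)
            exact mul_le_mul_of_nonneg_left h6 (by positivity)
      rw [← h1] at h5
      have h10 : ‖A‖ * ‖S.pol (h j)‖ ≤ ‖A‖ * 48 := mul_le_mul_of_nonneg_left h4 (norm_nonneg A)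
      exact h5.trans (h2.trans (h3.trans h10))
    obtain ⟨j, hj⟩ := exists_nat_gt (‖A‖ * 48)
    have := hbd j
    linarith

end Pool.Agent.Helper145.Toep
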