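import Pool.Agent.Helper145.Toep1

set_option autoImplicit false

open Finset

namespace Pool.Agent.Helper145.Toep

/-- elementary operators: rotations and Toeplitz operators with a trigonometric polynomial symbol -/
inductive Op
  | rot (t : ℝ)
  | sym (φ : ℤ →₀ ℂ)

/-- correlation with a finitely supported sequence -/
noncomputable def corr (φ : ℤ →₀ ℂ) (r : ℤ → ℂ) (n : ℤ) : ℂ := φ.sum fun k v => v * r (n + k)

/-- action of an operator on row functionals -/
noncomputable def stp : Op → (ℤ → ℂ) → ℤ → ℂ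
  | Op.rot t, r, n => Complex.exp (Complex.I * ((n * t : ℝ) : ℂ)) * r n
  | Op.sym φ, r, n => if n < 0 then 0 else corr φ r n

/-- the functional `p ↦ (w p)(0)` evaluated at the monomials -/
noncomputable def rr : List Op → ℤ → ℂ
  | [], n => if n = 0 then 1 else 0
  | o :: w, n => stp o (rr w) n

/-- contractive symbols -/
def ok (φ : ℤ →₀ ℂ) : Prop := ∀ r : ℤ → ℂ, (∀ n, ‖r n‖ ≤ 1) → ∀ n, ‖corr φ r n‖ ≤ 1

def okOp : Op → Prop
  | Op.rot _ => True
  | Op.sym φ => ok φ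

lemma expI_norm (x : ℝ) : ‖Complex.exp (Complex.I * (x : ℂ))‖ = 1 := by
  rw [mul_comm]; exact Complex.norm_exp_ofReal_mul_I x

lemma rr_norm (w : List Op) (hw : ∀ o ∈ w, okOp o) : ∀ n, ‖rr w n‖ ≤ 1 := by
  induction w with
  | nil => intro n; unfold rr; split_ifs <;> simp
  | cons o w ih =>
    have ih' := ih (fun o ho => hw o (List.mem_cons_of_mem _ ho))
    intro n
    cases o with
    | rot t =>
      show ‖Complex.exp (Complex.I * ((n * t : ℝ) : ℂ)) * rr w n‖ ≤ 1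
      rw [norm_mul, expI_norm, one_mul]; exact ih' n
    | sym φ =>
      show ‖(if n < 0 then 0 else corr φ (rr w) n : ℂ)‖ ≤ 1
      split_ifs
      · simp
      · exact hw _ List.mem_cons_self (rr w) ih' n

lemma rr_neg (w : List Op) : ∀ n < 0, rr w n = 0 := by
  induction w with
  | nil => intro n hn; unfold rr; rw [if_neg (by omega)]
  | cons o w ih =>
    intro n hn
    cases o with
    | rot t =>
      show Complex.exp (Complex.I * ((n * t : ℝ) : ℂ)) * rr w n = 0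
      rw [ih n hn, mul_zero]
    | sym φ =>
      show (if n < 0 then 0 else corr φ (rr w) n : ℂ) = 0
      rw [if_pos hn]

lemma corr_ne {φ : ℤ →₀ ℂ} {r : ℤ → ℂ} {n : ℤ} (h : corr φ r n ≠ 0) :
    ∃ k ∈ φ.support, r (n + k) ≠ 0 := by
  unfold corr Finsupp.sum at h
  obtain ⟨k, hk, h2⟩ := Finset.exists_ne_zero_of_sum_ne_zero h
  exact ⟨k, hk, right_ne_zero_of_mul h2⟩

lemma ok_single (n : ℤ) : ok (Finsupp.single n 1) := by
  intro r hr m
  unfold corr
  rw [Finsupp.sum_single_index (by simp), one_mul]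
  exact hr _

/-! the big symbols -/

/-- the indices `1 + D k`, `|k| ≤ N` -/
noncomputable def As (D N : ℕ) : Finset ℤ := (Finset.Icc (-(N:ℤ)) N).image (fun k => 1 + (D:ℤ) * k)

lemma mem_As {D N : ℕ} {a : ℤ} : a ∈ As D N ↔ ∃ k : ℤ, -(N:ℤ) ≤ k ∧ k ≤ N ∧ a = 1 + D * k := by
  unfold As
  rw [Finset.mem_image]
  constructor
  · rintro ⟨k, hk, rfl⟩
    rw [Finset.mem_Icc] at hk
    exact ⟨k, hk.1, hk.2, rfl⟩
  · rintro ⟨k, h1, h2, rfl⟩
    exact ⟨k, Finset.mem_Icc.2 ⟨h1, h2⟩, rfl⟩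

lemma As_card {D N : ℕ} (hD : 0 < D) : (As D N).card = 2 * N + 1 := by
  unfold As
  rw [Finset.card_image_of_injective]
  · simp; omega
  · intro x y h
    have hD' : (D:ℤ) ≠ 0 := by exact_mod_cast hD.ne'
    have h' : 1 + (D:ℤ) * x = 1 + D * y := h
    exact mul_left_cancel₀ hD' (add_left_cancel h')

/-- the symbol `(1/L) ∑ z^(-α a)` -/
noncomputable def PP (D N : ℕ) (α : ℤ) : ℤ →₀ ℂ :=
  ∑ a ∈ As D N, Finsupp.single (-(α * a)) ((1 / (2 * N + 1) : ℝ) : ℂ)

lemma corr_PP (D N : ℕ) (α : ℤ) (r : ℤ → ℂ) (n : ℤ) :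
    corr (PP D N α) r n = ∑ a ∈ As D N, ((1 / (2 * N + 1) : ℝ) : ℂ) * r (n - α * a) := by
  unfold corr PP
  rw [← Finsupp.sum_finsetSum_index (fun _ => by simp) (fun _ _ _ => by ring)]
  apply Finset.sum_congr rfl
  intro a _
  rw [Finsupp.sum_single_index (by simp)]
  congr 2

lemma PP_support {D N : ℕ} {α : ℤ} {m : ℤ} (h : m ∈ (PP D N α).support) :
    ∃ a ∈ As D N, m = -(α * a) := by
  classical
  unfold PP at h
  have h1 := Finsupp.support_finsetSum h
  rw [Finset.mem_biUnion] at h1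
  obtain ⟨a, ha, h1⟩ := h1
  have h3 := Finsupp.support_single_subset h1
  rw [Finset.mem_singleton] at h3
  exact ⟨a, ha, h3⟩

lemma ok_PP {D N : ℕ} (hD : 0 < D) (α : ℤ) : ok (PP D N α) := by
  intro r hr n
  rw [corr_PP]
  calc ‖∑ a ∈ As D N, ((1 / (2 * N + 1) : ℝ) : ℂ) * r (n - α * a)‖
      ≤ ∑ a ∈ As D N, ‖((1 / (2 * N + 1) : ℝ) : ℂ) * r (n - α * a)‖ := norm_sum_le _ _
    _ ≤ ∑ _a ∈ As D N, (1 / (2 * N + 1) : ℝ) := by
        apply Finset.sum_le_sum
        intro a _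
        rw [norm_mul, Complex.norm_real, Real.norm_eq_abs, abs_of_nonneg (by positivity)]
        have := hr (n - α * a)
        have h2 : (0:ℝ) ≤ 1 / (2 * N + 1) := by positivity
        nlinarith
    _ = 1 := by
        rw [Finset.sum_const, As_card hD]
        simp only [nsmul_eq_mul]
        push_cast
        field_simp

/-! words and their costs -/

/-- words in rotations, shifts, small letters and the two big letters, with cost and counts -/
inductive Rep (M K : ℕ) (P Q : ℤ →₀ ℂ) : List Op → ℕ → ℕ → ℕ → Prop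
  | nil : Rep M K P Q [] 1 0 0
  | rot {w : List Op} {c p q : ℕ} (t : ℝ) : Rep M K P Q w c p q → Rep M K P Q (Op.rot t :: w) c p q
  | sh {w : List Op} {c p q : ℕ} (n : ℤ) : Rep M K P Q w c p q →
      Rep M K P Q (Op.sym (Finsupp.single n 1) :: w) ((n.natAbs + 1) * c) p q
  | sm {w : List Op} {c p q : ℕ} (φ : ℤ →₀ ℂ) (h1 : ok φ) (h2 : ∀ k ∈ φ.support, |k| ≤ M) :
      Rep M K P Q w c p q → Rep M K P Q (Op.sym φ :: w) (2 * c) p q
  | bigP {w : List Op} {c p q : ℕ} : Rep M K P Q w c p q → Rep M K P Q (Op.sym P :: w) (K * c) (p + 1) q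
  | bigQ {w : List Op} {c p q : ℕ} : Rep M K P Q w c p q → Rep M K P Q (Op.sym Q :: w) (K * c) p (q + 1)

lemma Rep.okw {M K : ℕ} {P Q : ℤ →₀ ℂ} (hP : ok P) (hQ : ok Q) {w : List Op} {c p q : ℕ}
    (h : Rep M K P Q w c p q) : ∀ o ∈ w, okOp o := by
  induction h with
  | nil => simp
  | rot t _ ih => intro o ho; rcases List.mem_cons.1 ho with rfl | ho; exacts [trivial, ih o ho]
  | sh n _ ih => intro o ho; rcases List.mem_cons.1 ho with rfl | ho; exacts [ok_single n, ih o ho]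
  | sm φ h1 h2 _ ih => intro o ho; rcases List.mem_cons.1 ho with rfl | ho; exacts [h1, ih o ho]
  | bigP _ ih => intro o ho; rcases List.mem_cons.1 ho with rfl | ho; exacts [hP, ih o ho]
  | bigQ _ ih => intro o ho; rcases List.mem_cons.1 ho with rfl | ho; exacts [hQ, ih o ho]

lemma Rep.cost {M K : ℕ} (hK : 2 ≤ K) {P Q : ℤ →₀ ℂ} {w : List Op} {c p q : ℕ}
    (h : Rep M K P Q w c p q) : 2 ^ p * 2 ^ q ≤ c := by
  induction h with
  | nil => simp
  | rot t _ ih => exact ih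
  | sh n _ ih => nlinarith [Nat.zero_le (n.natAbs)]
  | sm φ h1 h2 _ ih => omega
  | bigP _ ih => rw [pow_succ]; nlinarith
  | bigQ _ ih => rw [pow_succ]; nlinarith

lemma Rep.cost_pos {M K : ℕ} (hK : 2 ≤ K) {P Q : ℤ →₀ ℂ} {w : List Op} {c p q : ℕ}
    (h : Rep M K P Q w c p q) : 1 ≤ c := by
  have h1 := h.cost hK
  have h2 : 1 ≤ 2 ^ p * 2 ^ q := Nat.one_le_iff_ne_zero.2 (by positivity)
  omega

/-- supports of words -/
lemma Rep.supp {M K D N : ℕ} (hK : 2 ≤ K) {α β : ℤ} {w : List Op} {c p q : ℕ}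
    (h : Rep M K (PP D N α) (PP D N β) w c p q) : ∀ n, rr w n ≠ 0 →
      ∃ x y s : ℤ, n = α * x + β * y + s ∧ |s| ≤ (M + 1) * c ∧ |x| ≤ (1 + D * N) * p ∧
        |y| ≤ (1 + D * N) * q ∧ (D:ℤ) ∣ x - p ∧ (D:ℤ) ∣ y - q := by
  have key : ∀ (w : List Op) (c p q : ℕ) (φ : ℤ →₀ ℂ) (c' : ℕ) (m : ℤ), (∀ k ∈ φ.support, |k| ≤ m) →
      ((M:ℤ) + 1) * c + m ≤ ((M:ℤ) + 1) * c' →
      (∀ n, rr w n ≠ 0 →
      ∃ x y s : ℤ, n = α * x + β * y + s ∧ |s| ≤ (M + 1) * c ∧ |x| ≤ (1 + D * N) * p ∧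
        |y| ≤ (1 + D * N) * q ∧ (D:ℤ) ∣ x - p ∧ (D:ℤ) ∣ y - q) →
      (∀ n, rr (Op.sym φ :: w) n ≠ 0 →
      ∃ x y s : ℤ, n = α * x + β * y + s ∧ |s| ≤ (M + 1) * c' ∧ |x| ≤ (1 + D * N) * p ∧
        |y| ≤ (1 + D * N) * q ∧ (D:ℤ) ∣ x - p ∧ (D:ℤ) ∣ y - q) := by
    intro w c p q φ c' m hφ hm ih n hn
    have h1 : corr φ (rr w) n ≠ 0 := by
      intro h0; apply hn
      show (if n < 0 then 0 else corr φ (rr w) n : ℂ) = 0
      rw [h0, ite_self]
    obtain ⟨k, hk, hk2⟩ := corr_ne h1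
    obtain ⟨x, y, s, e, h2, h3, h4, h5, h6⟩ := ih _ hk2
    refine ⟨x, y, s - k, by linarith, ?_, h3, h4, h5, h6⟩
    have := hφ k hk
    rw [abs_le] at *
    constructor <;> linarith [this.1, this.2, h2.1, h2.2]
  have hA : ∀ a ∈ As D N, |a| ≤ 1 + (D:ℤ) * N ∧ (D:ℤ) ∣ a - 1 := by
    intro a ha
    obtain ⟨k, h1, h2, rfl⟩ := mem_As.1 ha
    refine ⟨?_, ⟨k, by ring⟩⟩
    have hD : (0:ℤ) ≤ D := Int.natCast_nonneg D
    rw [abs_le]; constructor <;> nlinarith
  induction h with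
  | nil =>
    intro n hn
    have : n = 0 := by
      by_contra h0
      apply hn
      show (if n = 0 then 1 else 0 : ℂ) = 0
      rw [if_neg h0]
    subst this
    exact ⟨0, 0, 0, by ring, by simp; positivity, by simp, by simp, by simp, by simp⟩
  | rot t _ ih =>
    intro n hn
    apply ih
    intro h0; apply hn
    show Complex.exp (Complex.I * ((n * t : ℝ) : ℂ)) * rr _ n = 0
    rw [h0, mul_zero]
  | @sh w c p q n h ih =>
    refine key _ c p q _ _ (n.natAbs : ℤ) ?_ ?_ ih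
    · intro k hk
      have := Finsupp.support_single_subset hk
      rw [Finset.mem_singleton] at this
      subst this
      rw [Int.abs_eq_natAbs]
    · have := h.cost_pos hK
      have h1 : (1:ℤ) ≤ c := by exact_mod_cast this
      generalize n.natAbs = u
      have h2 : (0:ℤ) ≤ (u : ℤ) := Int.natCast_nonneg _
      have h3 : (0:ℤ) ≤ M := Int.natCast_nonneg _
      push_cast
      have h4 : (0:ℤ) ≤ (u : ℤ) * (c - 1) := mul_nonneg h2 (by linarith)
      have h5 : (0:ℤ) ≤ (M:ℤ) * ((u : ℤ) * c) := by positivity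
      nlinarith
  | @sm w c p q φ h1 h2 h ih =>
    refine key _ c p q _ _ (M : ℤ) h2 ?_ ih
    have := h.cost_pos hK
    have h1 : (1:ℤ) ≤ c := by exact_mod_cast this
    have h3 : (0:ℤ) ≤ M := Int.natCast_nonneg _
    push_cast
    nlinarith
  | @bigP w c p q h ih =>
    intro n hn
    have h1 : corr (PP D N α) (rr w) n ≠ 0 := by
      intro h0; apply hn
      show (if n < 0 then 0 else corr (PP D N α) (rr w) n : ℂ) = 0
      rw [h0, ite_self]
    obtain ⟨k, hk, hk2⟩ := corr_ne h1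
    obtain ⟨a, ha, rfl⟩ := PP_support hk
    obtain ⟨x, y, s, e, h2, h3, h4, h5, h6⟩ := ih _ hk2
    obtain ⟨g1, g2⟩ := hA a ha
    refine ⟨x + a, y, s, by linarith, ?_, ?_, h4, ?_, h6⟩
    · refine h2.trans ?_
      push_cast
      have : (2:ℤ) ≤ K := by exact_mod_cast hK
      have h3 : (0:ℤ) ≤ (M + 1) * c := by positivity
      nlinarith
    · refine (abs_add_le _ _).trans ?_
      push_cast
      linarith
    · push_cast
      have := dvd_add h5 g2
      rwa [show x - (p:ℤ) + (a - 1) = x + a - (p + 1) by ring] at this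
  | @bigQ w c p q h ih =>
    intro n hn
    have h1 : corr (PP D N β) (rr w) n ≠ 0 := by
      intro h0; apply hn
      show (if n < 0 then 0 else corr (PP D N β) (rr w) n : ℂ) = 0
      rw [h0, ite_self]
    obtain ⟨k, hk, hk2⟩ := corr_ne h1
    obtain ⟨a, ha, rfl⟩ := PP_support hk
    obtain ⟨x, y, s, e, h2, h3, h4, h5, h6⟩ := ih _ hk2
    obtain ⟨g1, g2⟩ := hA a ha
    refine ⟨x, y + a, s, by linarith, ?_, h3, ?_, h5, ?_⟩
    · refine h2.trans ?_
      push_cast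
      have : (2:ℤ) ≤ K := by exact_mod_cast hK
      have h3 : (0:ℤ) ≤ (M + 1) * c := by positivity
      nlinarith
    · refine (abs_add_le _ _).trans ?_
      push_cast
      linarith
    · push_cast
      have := dvd_add h6 g2
      rwa [show y - (q:ℤ) + (a - 1) = y + a - (q + 1) by ring] at this

end Pool.Agent.Helper145.Toep
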