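import Pool.Agent.Helper145.Toep2

set_option autoImplicit false

open Finset

namespace Pool.Agent.Helper145.Toep

/-- shape near the edge -/
def Shape0 (f : ℤ) (r : ℤ → ℂ) : Prop := (∀ n, r n ≠ 0 → 0 ≤ n ∧ n ≤ f) ∧ ∀ n, ‖r n‖ ≤ 1

/-- shape away from the edge -/
def ShapeT (α β : ℤ) (T : Finset (ℤ × ℤ)) (lam : ℂ) (f : ℤ) (r : ℤ → ℂ) : Prop :=
  ∃ (κ : ℤ → ℂ) (Θ Θ' : ℝ), (∀ s, ‖κ s‖ ≤ 1) ∧ (∀ s, κ s ≠ 0 → |s| ≤ f) ∧
    ∀ n, r n = ∑ x ∈ T, lam * ph x.1 x.2 Θ Θ' * κ (n - α * x.1 - β * x.2)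

lemma Shape0.mono {f f' : ℤ} {r : ℤ → ℂ} (h : Shape0 f r) (hf : f ≤ f') : Shape0 f' r :=
  ⟨fun n hn => ⟨(h.1 n hn).1, (h.1 n hn).2.trans hf⟩, h.2⟩

lemma ShapeT.mono {α β : ℤ} {T : Finset (ℤ × ℤ)} {lam : ℂ} {f f' : ℤ} {r : ℤ → ℂ}
    (h : ShapeT α β T lam f r) (hf : f ≤ f') : ShapeT α β T lam f' r := by
  obtain ⟨κ, Θ, Θ', h1, h2, h3⟩ := h
  exact ⟨κ, Θ, Θ', h1, fun s hs => (h2 s hs).trans hf, h3⟩

lemma Shape0.rot {f : ℤ} {r : ℤ → ℂ} (h : Shape0 f r) (t : ℝ) : Shape0 f (stp (Op.rot t) r) := by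
  constructor
  · intro n hn
    exact h.1 n (right_ne_zero_of_mul hn)
  · intro n
    show ‖Complex.exp (Complex.I * ((n * t : ℝ) : ℂ)) * r n‖ ≤ 1
    rw [norm_mul, expI_norm, one_mul]; exact h.2 n

lemma Shape0.small {f f' m : ℤ} {r : ℤ → ℂ} (h : Shape0 f r) {φ : ℤ →₀ ℂ} (hφ : ok φ)
    (hm : ∀ k ∈ φ.support, |k| ≤ m) (hf : f + m ≤ f') : Shape0 f' (stp (Op.sym φ) r) := by
  constructor
  · intro n hn
    have hn' : (if n < 0 then 0 else corr φ r n : ℂ) ≠ 0 := hn
    by_cases h0 : n < 0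
    · rw [if_pos h0] at hn'; exact absurd rfl hn'
    · rw [if_neg h0] at hn'
      obtain ⟨k, hk, hk2⟩ := corr_ne hn'
      have h1 := (h.1 _ hk2).2
      have h2 := (abs_le.1 (hm k hk)).1
      exact ⟨by omega, by omega⟩
  · intro n
    show ‖(if n < 0 then 0 else corr φ r n : ℂ)‖ ≤ 1
    split_ifs
    · simp
    · exact hφ r h.2 n

lemma ShapeT.rot {α β : ℤ} {T : Finset (ℤ × ℤ)} {lam : ℂ} {f : ℤ} {r : ℤ → ℂ}
    (h : ShapeT α β T lam f r) (t : ℝ) : ShapeT α β T lam f (stp (Op.rot t) r) := by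
  obtain ⟨κ, Θ, Θ', h1, h2, h3⟩ := h
  refine ⟨fun s => Complex.exp (Complex.I * ((s * t : ℝ) : ℂ)) * κ s, Θ + α * t, Θ' + β * t, ?_, ?_, ?_⟩
  · intro s; rw [norm_mul, expI_norm, one_mul]; exact h1 s
  · intro s hs; exact h2 s (right_ne_zero_of_mul hs)
  · intro n
    show Complex.exp (Complex.I * ((n * t : ℝ) : ℂ)) * r n = _
    rw [h3 n, Finset.mul_sum]
    apply Finset.sum_congr rfl
    intro x _
    have e : Complex.exp (Complex.I * ((n * t : ℝ) : ℂ)) * ph x.1 x.2 Θ Θ'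
        = ph x.1 x.2 (Θ + α * t) (Θ' + β * t) *
          Complex.exp (Complex.I * (((n - α * x.1 - β * x.2 : ℤ) * t : ℝ) : ℂ)) := by
      unfold ph
      rw [← Complex.exp_add, ← Complex.exp_add]
      congr 1
      push_cast
      ring
    calc Complex.exp (Complex.I * ((n * t : ℝ) : ℂ)) * (lam * ph x.1 x.2 Θ Θ' * κ (n - α * x.1 - β * x.2))
        = lam * (Complex.exp (Complex.I * ((n * t : ℝ) : ℂ)) * ph x.1 x.2 Θ Θ') *
          κ (n - α * x.1 - β * x.2) := by ring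
      _ = _ := by rw [e]; ring

lemma ShapeT.small {α β : ℤ} {T : Finset (ℤ × ℤ)} {lam : ℂ} {f f' m : ℤ} {r : ℤ → ℂ}
    (h : ShapeT α β T lam f r) {φ : ℤ →₀ ℂ} (hφ : ok φ)
    (hm : ∀ k ∈ φ.support, |k| ≤ m) (hf : f + m ≤ f') (hT : ∀ x ∈ T, f' ≤ α * x.1 + β * x.2) :
    ShapeT α β T lam f' (stp (Op.sym φ) r) := by
  obtain ⟨κ, Θ, Θ', h1, h2, h3⟩ := h
  have hsupp : ∀ s, corr φ κ s ≠ 0 → |s| ≤ f' := by
    intro s hs
    obtain ⟨k, hk, hk2⟩ := corr_ne hs
    have g1 := abs_le.1 (h2 _ hk2)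
    have g2 := abs_le.1 (hm k hk)
    rw [abs_le]; constructor <;> omega
  refine ⟨corr φ κ, Θ, Θ', fun s => hφ κ h1 s, hsupp, ?_⟩
  intro n
  show (if n < 0 then 0 else corr φ r n : ℂ) = _
  by_cases h0 : n < 0
  · rw [if_pos h0]
    symm
    apply Finset.sum_eq_zero
    intro x hx
    have : corr φ κ (n - α * x.1 - β * x.2) = 0 := by
      by_contra hne
      have g1 := abs_le.1 (hsupp _ hne)
      have g2 := hT x hx
      omega
    rw [this, mul_zero]
  · rw [if_neg h0]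
    unfold corr Finsupp.sum
    simp_rw [h3, Finset.mul_sum]
    rw [Finset.sum_comm]
    apply Finset.sum_congr rfl; intro x _
    apply Finset.sum_congr rfl; intro k _
    rw [show n + k - α * x.1 - β * x.2 = n - α * x.1 - β * x.2 + k by ring]
    ring

/-- index sets after one and two big letters -/
noncomputable def T1 (D N : ℕ) : Finset (ℤ × ℤ) := ((As D N).filter (fun a => 0 ≤ a)) ×ˢ {0}
noncomputable def T2 (D N : ℕ) : Finset (ℤ × ℤ) :=
  ((As D N) ×ˢ (As D N)).filter (fun x => 0 ≤ x.1 ∧ 0 ≤ x.1 + x.2)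

noncomputable def lam (N : ℕ) : ℂ := ((1 / (2 * N + 1) : ℝ) : ℂ)

lemma Shape0.big {D N : ℕ} {f : ℤ} {r : ℤ → ℂ} (h : Shape0 f r) (α β : ℤ)
    (hneg : ∀ a ∈ As D N, a < 0 → α * a < -f) (hpos : ∀ a ∈ As D N, 0 ≤ a → 0 ≤ α * a) :
    ShapeT α β (T1 D N) (lam N) f (stp (Op.sym (PP D N α)) r) := by
  refine ⟨r, 0, 0, h.2, ?_, ?_⟩
  · intro s hs
    have := h.1 s hs
    rw [abs_le]; constructor <;> omega
  · intro n
    show (if n < 0 then 0 else corr (PP D N α) r n : ℂ) = _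
    unfold T1
    rw [Finset.sum_product, corr_PP]
    simp only [Finset.sum_singleton]
    rw [Finset.sum_filter]
    by_cases h0 : n < 0
    · rw [if_pos h0]
      symm
      apply Finset.sum_eq_zero
      intro a ha
      split_ifs with ha0
      · have : r (n - α * a - β * 0) = 0 := by
          by_contra hne
          have := h.1 _ hne
          have := hpos a ha ha0
          omega
        rw [this, mul_zero]
      · rfl
    · rw [if_neg h0]
      apply Finset.sum_congr rfl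
      intro a ha
      split_ifs with ha0
      · rw [show n - α * a - β * 0 = n - α * a by ring]
        have : ph a 0 0 0 = 1 := by simp [ph]
        rw [this, mul_one]; rfl
      · have : r (n - α * a) = 0 := by
          by_contra hne
          have := h.1 _ hne
          have := hneg a ha (not_le.1 ha0)
          omega
        rw [this, mul_zero]

lemma ShapeT.big {D N : ℕ} {f : ℤ} {r : ℤ → ℂ} {α β : ℤ}
    (h : ShapeT α β (T1 D N) (lam N) f r)
    (hneg : ∀ a ∈ As D N, ∀ b ∈ As D N, a + b < 0 → α * a + β * b < -f)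
    (hpos : ∀ a ∈ As D N, ∀ b ∈ As D N, 0 ≤ a + b → f ≤ α * a + β * b) :
    ShapeT α β (T2 D N) (lam N ^ 2) f (stp (Op.sym (PP D N β)) r) := by
  obtain ⟨κ, Θ, Θ', h1, h2, h3⟩ := h
  refine ⟨κ, Θ, 0, h1, h2, ?_⟩
  intro n
  show (if n < 0 then 0 else corr (PP D N β) r n : ℂ) = _
  unfold T2
  rw [Finset.sum_filter, Finset.sum_product, corr_PP]
  have e : ∀ b, r (n - β * b) = ∑ a ∈ As D N, if 0 ≤ a then lam N * ph a 0 Θ Θ' * κ (n - α * a - β * b) else 0 := by
    intro b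
    rw [h3]
    unfold T1
    rw [Finset.sum_product]
    simp only [Finset.sum_singleton]
    rw [Finset.sum_filter]
    apply Finset.sum_congr rfl
    intro a _
    rw [show n - β * b - α * a - β * 0 = n - α * a - β * b by ring]
  have e2 : ∀ a b, ph a 0 Θ Θ' = ph a b Θ 0 := by intro a b; simp [ph]
  by_cases h0 : n < 0
  · rw [if_pos h0]
    symm
    apply Finset.sum_eq_zero; intro a ha
    apply Finset.sum_eq_zero; intro b hb
    dsimp only
    split_ifs with hab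
    · have : κ (n - α * a - β * b) = 0 := by
        by_contra hne
        have g1 := abs_le.1 (h2 _ hne)
        have := hpos a ha b hb hab.2
        omega
      rw [this, mul_zero]
    · rfl
  · rw [if_neg h0]
    simp_rw [e, Finset.mul_sum]
    rw [Finset.sum_comm]
    apply Finset.sum_congr rfl; intro a ha
    apply Finset.sum_congr rfl; intro b hb
    by_cases ha0 : 0 ≤ a
    · rw [if_pos ha0]
      by_cases hab : 0 ≤ a + b
      · rw [if_pos ⟨ha0, hab⟩, e2 a b]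
        unfold lam; ring
      · rw [if_neg (fun hh => hab hh.2)]
        have : κ (n - α * a - β * b) = 0 := by
          by_contra hne
          have g1 := abs_le.1 (h2 _ hne)
          have := hneg a ha b hb (not_le.1 hab)
          omega
        rw [this]; ring
    · rw [if_neg ha0, if_neg (fun hh => ha0 hh.1)]; ring

/-- the standing numerical conditions -/
structure Cond (D N : ℕ) (α β F : ℤ) : Prop where
  p1 : ∀ a ∈ As D N, 0 ≤ a → F ≤ α * a
  p2 : ∀ a ∈ As D N, 0 ≤ a → F ≤ β * a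
  n1 : ∀ a ∈ As D N, a < 0 → α * a < -F
  n2 : ∀ a ∈ As D N, a < 0 → β * a < -F
  pos : ∀ a ∈ As D N, ∀ b ∈ As D N, 0 ≤ a + b → F ≤ α * a + β * b
  neg : ∀ a ∈ As D N, ∀ b ∈ As D N, a + b < 0 → α * a + β * b < -F

lemma Rep.shape {M K D N : ℕ} (hK : 2 ≤ K) {α β F : ℤ} (hc : Cond D N α β F) (hF : 0 ≤ F)
    {w : List Op} {c p q : ℕ}
    (h : Rep M K (PP D N α) (PP D N β) w c p q) : ((M:ℤ) + 1) * c ≤ F →
      (p = 0 → q = 0 → Shape0 ((M + 1) * c) (rr w)) ∧
      (p = 1 → q = 0 → ShapeT α β (T1 D N) (lam N) ((M + 1) * c) (rr w)) ∧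
      (p = 0 → q = 1 → ShapeT β α (T1 D N) (lam N) ((M + 1) * c) (rr w)) ∧
      (p = 1 → q = 1 → ShapeT α β (T2 D N) (lam N ^ 2) ((M + 1) * c) (rr w) ∨
        ShapeT β α (T2 D N) (lam N ^ 2) ((M + 1) * c) (rr w)) := by
  have hT1 : ∀ x ∈ T1 D N, F ≤ α * x.1 + β * x.2 ∧ F ≤ β * x.1 + α * x.2 := by
    intro x hx
    unfold T1 at hx
    rw [Finset.mem_product, Finset.mem_filter, Finset.mem_singleton] at hx
    obtain ⟨⟨h1, h2⟩, h3⟩ := hx
    rw [h3]
    have := hc.p1 _ h1 h2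
    have := hc.p2 _ h1 h2
    constructor <;> linarith
  have hT2 : ∀ x ∈ T2 D N, F ≤ α * x.1 + β * x.2 ∧ F ≤ β * x.1 + α * x.2 := by
    intro x hx
    unfold T2 at hx
    rw [Finset.mem_filter, Finset.mem_product] at hx
    obtain ⟨⟨h1, h2⟩, h3, h4⟩ := hx
    have := hc.pos _ h1 _ h2 h4
    have := hc.pos _ h2 _ h1 (by linarith)
    constructor <;> linarith
  -- small steps
  have key : ∀ (w : List Op) (c p q : ℕ) (φ : ℤ →₀ ℂ) (c' : ℕ) (m : ℤ), ok φ →
      (∀ k ∈ φ.support, |k| ≤ m) → 0 ≤ m →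
      ((M:ℤ) + 1) * c + m ≤ ((M:ℤ) + 1) * c' →
      (((M:ℤ) + 1) * c ≤ F →
      (p = 0 → q = 0 → Shape0 ((M + 1) * c) (rr w)) ∧
      (p = 1 → q = 0 → ShapeT α β (T1 D N) (lam N) ((M + 1) * c) (rr w)) ∧
      (p = 0 → q = 1 → ShapeT β α (T1 D N) (lam N) ((M + 1) * c) (rr w)) ∧
      (p = 1 → q = 1 → ShapeT α β (T2 D N) (lam N ^ 2) ((M + 1) * c) (rr w) ∨
        ShapeT β α (T2 D N) (lam N ^ 2) ((M + 1) * c) (rr w))) →
      (((M:ℤ) + 1) * c' ≤ F →
      (p = 0 → q = 0 → Shape0 ((M + 1) * c') (rr (Op.sym φ :: w))) ∧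
      (p = 1 → q = 0 → ShapeT α β (T1 D N) (lam N) ((M + 1) * c') (rr (Op.sym φ :: w))) ∧
      (p = 0 → q = 1 → ShapeT β α (T1 D N) (lam N) ((M + 1) * c') (rr (Op.sym φ :: w))) ∧
      (p = 1 → q = 1 → ShapeT α β (T2 D N) (lam N ^ 2) ((M + 1) * c') (rr (Op.sym φ :: w)) ∨
        ShapeT β α (T2 D N) (lam N ^ 2) ((M + 1) * c') (rr (Op.sym φ :: w)))) := by
    intro w c p q φ c' m h0 h1 h2 h3 ih hF'
    obtain ⟨g1, g2, g3, g4⟩ := ih (by linarith)
    refine ⟨fun a b => (g1 a b).small h0 h1 h3, fun a b => (g2 a b).small h0 h1 h3 ?_,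
      fun a b => (g3 a b).small h0 h1 h3 ?_, fun a b => (g4 a b).imp ?_ ?_⟩
    · intro x hx; have := (hT1 x hx).1; linarith
    · intro x hx; have := (hT1 x hx).2; linarith
    · intro hh; exact hh.small h0 h1 h3 (fun x hx => by have := (hT2 x hx).1; linarith)
    · intro hh; exact hh.small h0 h1 h3 (fun x hx => by have := (hT2 x hx).2; linarith)
  induction h with
  | nil =>
    intro _
    refine ⟨fun _ _ => ⟨?_, ?_⟩, fun h => absurd h (by norm_num), fun _ h => absurd h (by norm_num),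
      fun h => absurd h (by norm_num)⟩
    · intro n hn
      have : n = 0 := by
        by_contra h0
        apply hn
        show (if n = 0 then 1 else 0 : ℂ) = 0
        rw [if_neg h0]
      subst this
      exact ⟨le_rfl, by positivity⟩
    · intro n
      show ‖(if n = 0 then 1 else 0 : ℂ)‖ ≤ 1
      split_ifs <;> simp
  | rot t _ ih =>
    intro hF'
    obtain ⟨g1, g2, g3, g4⟩ := ih hF'
    exact ⟨fun a b => (g1 a b).rot t, fun a b => (g2 a b).rot t, fun a b => (g3 a b).rot t,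
      fun a b => (g4 a b).imp (fun h => h.rot t) (fun h => h.rot t)⟩
  | @sh w c p q n h ih =>
    refine key _ c p q _ _ (n.natAbs : ℤ) (ok_single n) ?_ (Int.natCast_nonneg _) ?_ ih
    · intro k hk
      have := Finsupp.support_single_subset hk
      rw [Finset.mem_singleton] at this
      subst this
      rw [Int.abs_eq_natAbs]
    · have := h.cost_pos hK
      have h1 : (1:ℤ) ≤ c := by exact_mod_cast this
      generalize n.natAbs = u
      have h2 : (0:ℤ) ≤ (u : ℤ) := Int.natCast_nonneg _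
      have h3 : (0:ℤ) ≤ M := Int.natCast_nonneg _
      push_cast
      have h4 : (0:ℤ) ≤ (u : ℤ) * (c - 1) := mul_nonneg h2 (by linarith)
      have h5 : (0:ℤ) ≤ (M:ℤ) * ((u : ℤ) * c) := by positivity
      nlinarith
  | @sm w c p q φ h1 h2 h ih =>
    refine key _ c p q _ _ (M : ℤ) h1 h2 (Int.natCast_nonneg _) ?_ ih
    have := h.cost_pos hK
    have h1 : (1:ℤ) ≤ c := by exact_mod_cast this
    have h3 : (0:ℤ) ≤ M := Int.natCast_nonneg _
    push_cast
    nlinarith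
  | @bigP w c p q h ih =>
    intro hF'
    have hcc : ((M:ℤ) + 1) * c ≤ ((M:ℤ) + 1) * ((K * c : ℕ) : ℤ) := by
      have : (2:ℤ) ≤ K := by exact_mod_cast hK
      have h3 : (0:ℤ) ≤ (M + 1) * c := by positivity
      push_cast
      nlinarith
    have hcF : ((M:ℤ) + 1) * c ≤ F := hcc.trans hF'
    obtain ⟨g1, g2, g3, g4⟩ := ih hcF
    refine ⟨fun h => absurd h (by omega), fun a b => ?_, fun h => absurd h (by omega), fun a b => Or.inr ?_⟩
    · refine ((g1 (by omega) b).big α β ?_ ?_).mono hcc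
      · intro a ha h0; have := hc.n1 a ha h0; linarith
      · intro a ha h0; have := hc.p1 a ha h0; linarith
    · refine ((g3 (by omega) b).big ?_ ?_).mono hcc
      · intro a ha b hb h0; have := hc.neg b hb a ha (by linarith); linarith
      · intro a ha b hb h0; have := hc.pos b hb a ha (by linarith); linarith
  | @bigQ w c p q h ih =>
    intro hF'
    have hcc : ((M:ℤ) + 1) * c ≤ ((M:ℤ) + 1) * ((K * c : ℕ) : ℤ) := by
      have : (2:ℤ) ≤ K := by exact_mod_cast hK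
      have h3 : (0:ℤ) ≤ (M + 1) * c := by positivity
      push_cast
      nlinarith
    have hcF : ((M:ℤ) + 1) * c ≤ F := hcc.trans hF'
    obtain ⟨g1, g2, g3, g4⟩ := ih hcF
    refine ⟨fun _ h => absurd h (by omega), fun _ h => absurd h (by omega), fun a b => ?_, fun a b => Or.inl ?_⟩
    · refine ((g1 a (by omega)).big β α ?_ ?_).mono hcc
      · intro a ha h0; have := hc.n2 a ha h0; linarith
      · intro a ha h0; have := hc.p2 a ha h0; linarith
    · refine ((g2 a (by omega)).big ?_ ?_).mono hcc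
      · intro a ha b hb h0; have := hc.neg a ha b hb h0; linarith
      · intro a ha b hb h0; have := hc.pos a ha b hb h0; linarith

end Pool.Agent.Helper145.Toep
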