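import Pool.Agent.Helper145.Toep3

set_option autoImplicit false

open Finset

namespace Pool.Agent.Helper145.Toep

/-- the functional with values `r n` at the monomials -/
noncomputable def evalW (r : ℤ → ℂ) : Polynomial ℂ →ₗ[ℂ] ℂ :=
  Polynomial.lsum (fun n => LinearMap.mulRight ℂ (r n))

lemma evalW_monomial (r : ℤ → ℂ) (n : ℕ) (v : ℂ) : evalW r (Polynomial.monomial n v) = v * r n := by
  unfold evalW
  rw [Polynomial.lsum_apply, Polynomial.sum_monomial_index]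
  · simp
  · simp

/-- the combination of values with Fejer weights -/
noncomputable def SS {V : Type*} [AddCommGroup V] [Module ℂ V] (J : ℕ) (G : ℤ → ℤ → V) : V :=
  ∑ j ∈ range J, ∑ r ∈ range (2 ^ j), ∑ s ∈ range (2 ^ j), (1 / (((2 ^ j : ℕ) : ℂ)) ^ 2) •
    (G (((2 ^ j : ℕ) : ℤ) + r - s) (((2 ^ j : ℕ) : ℤ) - r + s)
      - G (3 * ((2 ^ j : ℕ) : ℤ) + r - s) (-((2 ^ j : ℕ) : ℤ) - r + s)
      - G (-((2 ^ j : ℕ) : ℤ) + r - s) (3 * ((2 ^ j : ℕ) : ℤ) - r + s))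

lemma SS_map {V W : Type*} [AddCommGroup V] [Module ℂ V] [AddCommGroup W] [Module ℂ W] (T : V →ₗ[ℂ] W)
    (J : ℕ) (G : ℤ → ℤ → V) : T (SS J G) = SS J (fun k l => T (G k l)) := by
  unfold SS
  simp only [map_sum, map_smul, map_sub]

/-- index pairs that occur -/
def gi (J : ℕ) (k l : ℤ) : Prop :=
  -((2 ^ (J + 1) : ℕ) : ℤ) ≤ k ∧ k ≤ ((2 ^ (J + 1) : ℕ) : ℤ) ∧ -((2 ^ (J + 1) : ℕ) : ℤ) ≤ l ∧
    l ≤ ((2 ^ (J + 1) : ℕ) : ℤ) ∧ 0 ≤ k + l

lemma gi_all {J j r s : ℕ} (hj : j ∈ range J) (hr : r ∈ range (2 ^ j)) (hs : s ∈ range (2 ^ j)) :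
    gi J (((2 ^ j : ℕ) : ℤ) + r - s) (((2 ^ j : ℕ) : ℤ) - r + s) ∧
    gi J (3 * ((2 ^ j : ℕ) : ℤ) + r - s) (-((2 ^ j : ℕ) : ℤ) - r + s) ∧
    gi J (-((2 ^ j : ℕ) : ℤ) + r - s) (3 * ((2 ^ j : ℕ) : ℤ) - r + s) := by
  rw [Finset.mem_range] at hj hr hs
  have h1 : 4 * 2 ^ j ≤ 2 ^ (J + 1) := by
    calc 4 * 2 ^ j = 2 ^ (j + 2) := by rw [pow_add]; ring
      _ ≤ 2 ^ (J + 1) := Nat.pow_le_pow_right (by norm_num) (by omega)
  unfold gi
  generalize 2 ^ j = n at *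
  generalize 2 ^ (J + 1) = m at *
  refine ⟨⟨?_, ?_, ?_, ?_, ?_⟩, ⟨?_, ?_, ?_, ?_, ?_⟩, ⟨?_, ?_, ?_, ?_, ?_⟩⟩ <;> omega

lemma SS_congr {V : Type*} [AddCommGroup V] [Module ℂ V] {J : ℕ} {G G' : ℤ → ℤ → V}
    (h : ∀ k l, gi J k l → G k l = G' k l) : SS J G = SS J G' := by
  unfold SS
  apply Finset.sum_congr rfl; intro j hj
  apply Finset.sum_congr rfl; intro r hr
  apply Finset.sum_congr rfl; intro s hs
  obtain ⟨h1, h2, h3⟩ := gi_all hj hr hs
  rw [h _ _ h1, h _ _ h2, h _ _ h3]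

lemma SS_one (J : ℕ) : SS J (fun _ _ => (1:ℂ)) = -J := by
  unfold SS
  have h1 : ∀ j ∈ range J, ∑ r ∈ range (2 ^ j), ∑ s ∈ range (2 ^ j), (1 / (((2 ^ j : ℕ) : ℂ)) ^ 2) •
    ((1:ℂ) - 1 - 1) = -1 := by
    intro j _
    rw [Finset.sum_const, Finset.sum_const, Finset.card_range]
    simp only [smul_eq_mul, nsmul_eq_mul]
    have : (((2 ^ j : ℕ) : ℂ)) ≠ 0 := Nat.cast_ne_zero.2 (by positivity)
    field_simp
    ring
  rw [Finset.sum_congr rfl h1]
  simp

lemma SS_norm_le {J : ℕ} {G : ℤ → ℤ → ℂ} {C : ℝ} (h : ∀ k l, ‖G k l‖ ≤ C) : ‖SS J G‖ ≤ 3 * C * J := by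
  unfold SS
  calc _ ≤ ∑ j ∈ range J, ∑ r ∈ range (2 ^ j), ∑ s ∈ range (2 ^ j),
        (1 / (((2 ^ j : ℕ) : ℝ)) ^ 2) * (3 * C) := by
        refine (norm_sum_le _ _).trans (Finset.sum_le_sum fun j _ => ?_)
        refine (norm_sum_le _ _).trans (Finset.sum_le_sum fun r _ => ?_)
        refine (norm_sum_le _ _).trans (Finset.sum_le_sum fun s _ => ?_)
        rw [norm_smul, norm_div, norm_one, norm_pow, Complex.norm_natCast]
        apply mul_le_mul_of_nonneg_left _ (by positivity)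
        refine (norm_sub_le _ _).trans ?_
        have h3 := h (-((2 ^ j : ℕ) : ℤ) + r - s) (3 * ((2 ^ j : ℕ) : ℤ) - r + s)
        have h12 := norm_sub_le (G (((2 ^ j : ℕ) : ℤ) + r - s) (((2 ^ j : ℕ) : ℤ) - r + s))
          (G (3 * ((2 ^ j : ℕ) : ℤ) + r - s) (-((2 ^ j : ℕ) : ℤ) - r + s))
        have h1 := h (((2 ^ j : ℕ) : ℤ) + r - s) (((2 ^ j : ℕ) : ℤ) - r + s)
        have h2 := h (3 * ((2 ^ j : ℕ) : ℤ) + r - s) (-((2 ^ j : ℕ) : ℤ) - r + s)
        linarith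
    _ = ∑ _j ∈ range J, 3 * C := by
        apply Finset.sum_congr rfl
        intro j _
        rw [Finset.sum_const, Finset.sum_const, Finset.card_range]
        simp only [nsmul_eq_mul]
        have : (((2 ^ j : ℕ) : ℝ)) ≠ 0 := by positivity
        field_simp
    _ = 3 * C * J := by simp; ring

lemma SS_first (J : ℕ) (A B : ℝ) :
    ‖SS J (fun k l => if 0 ≤ k then ph k l A B else 0)‖ ≤ 48 := by
  unfold SS
  refine (norm_sum_le _ _).trans ?_
  refine le_trans (Finset.sum_le_sum fun j _ => ?_) (XX_sum (ww_norm A B) J)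
  refine le_trans (le_of_eq ?_) (block_one (2 ^ j) A B)
  congr 1
  apply Finset.sum_congr rfl; intro r hr
  apply Finset.sum_congr rfl; intro s hs
  rw [Finset.mem_range] at hr hs
  generalize 2 ^ j = n at *
  dsimp only
  rw [if_pos (by omega), if_pos (by omega), if_neg (by omega), smul_eq_mul, sub_zero]

lemma SS_second (J : ℕ) (A B : ℝ) :
    ‖SS J (fun k l => if 0 ≤ l then ph k l A B else 0)‖ ≤ 48 := by
  unfold SS
  refine (norm_sum_le _ _).trans ?_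
  refine le_trans (Finset.sum_le_sum fun j _ => ?_) (XX_sum (ww_norm A B) J)
  refine le_trans (le_of_eq ?_) (block_two (2 ^ j) A B)
  congr 1
  apply Finset.sum_congr rfl; intro r hr
  apply Finset.sum_congr rfl; intro s hs
  rw [Finset.mem_range] at hr hs
  generalize 2 ^ j = n at *
  dsimp only
  rw [if_pos (by omega), if_neg (by omega), if_pos (by omega), smul_eq_mul, sub_zero]

lemma SS_first' (J : ℕ) (D : ℕ) (Θ Θ' : ℝ) :
    ‖SS J (fun k l => if 0 ≤ k then ph (1 + D * k) (1 + D * l) Θ Θ' else 0)‖ ≤ 48 := by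
  have e : (fun k l : ℤ => if 0 ≤ k then ph (1 + D * k) (1 + D * l) Θ Θ' else 0)
      = fun k l => ((ph 1 1 Θ Θ') • (LinearMap.id : ℂ →ₗ[ℂ] ℂ)) (if 0 ≤ k then ph k l (D * Θ) (D * Θ') else 0) := by
    funext k l
    split_ifs
    · have : ph k l (D * Θ) (D * Θ') = ph (D * k) (D * l) Θ Θ' := by
        unfold ph; congr 2; push_cast; ring
      simp only [LinearMap.smul_apply, LinearMap.id_coe, id_eq, smul_eq_mul]
      rw [this, ph_mul]
    · simp
  rw [e, ← SS_map]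
  simp only [LinearMap.smul_apply, LinearMap.id_coe, id_eq, smul_eq_mul, norm_mul, ph_norm, one_mul]
  exact SS_first J _ _

lemma SS_second' (J : ℕ) (D : ℕ) (Θ Θ' : ℝ) :
    ‖SS J (fun k l => if 0 ≤ l then ph (1 + D * k) (1 + D * l) Θ Θ' else 0)‖ ≤ 48 := by
  have e : (fun k l : ℤ => if 0 ≤ l then ph (1 + D * k) (1 + D * l) Θ Θ' else 0)
      = fun k l => ((ph 1 1 Θ Θ') • (LinearMap.id : ℂ →ₗ[ℂ] ℂ)) (if 0 ≤ l then ph k l (D * Θ) (D * Θ') else 0) := by
    funext k l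
    split_ifs
    · have : ph k l (D * Θ) (D * Θ') = ph (D * k) (D * l) Θ Θ' := by
        unfold ph; congr 2; push_cast; ring
      simp only [LinearMap.smul_apply, LinearMap.id_coe, id_eq, smul_eq_mul]
      rw [this, ph_mul]
    · simp
  rw [e, ← SS_map]
  simp only [LinearMap.smul_apply, LinearMap.id_coe, id_eq, smul_eq_mul, norm_mul, ph_norm, one_mul]
  exact SS_second J _ _

/-- separation of the two big frequencies -/
lemma sep {F B α γ : ℤ} (hγ : γ = F + 1) (hα : α = γ * B + F + 1) (hF : 0 ≤ F) (hB : 0 ≤ B) :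
    (∀ x y : ℤ, |y| ≤ B → 1 ≤ x + y → F < α * x + (α + γ) * y) ∧
    (∀ x y : ℤ, |y| ≤ B → x + y ≤ -1 → α * x + (α + γ) * y < -F) ∧
    (∀ x y : ℤ, |y| ≤ B → |α * x + (α + γ) * y| ≤ F → x = 0 ∧ y = 0) := by
  have hγ0 : 0 < γ := by omega
  have hα0 : 0 < α := by nlinarith
  have c2 : ∀ x y : ℤ, |y| ≤ B → 1 ≤ x + y → F < α * x + (α + γ) * y := by
    intro x y hy hxy
    have h1 := (abs_le.1 hy).1
    have e : α * x + (α + γ) * y = α * (x + y) + γ * y := by ring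
    nlinarith
  have c3 : ∀ x y : ℤ, |y| ≤ B → x + y ≤ -1 → α * x + (α + γ) * y < -F := by
    intro x y hy hxy
    have := c2 (-x) (-y) (by rwa [abs_neg]) (by linarith)
    linarith
  refine ⟨c2, c3, ?_⟩
  intro x y hy h
  have h1 := abs_le.1 h
  have hxy : x + y = 0 := by
    by_contra hne
    rcases lt_or_gt_of_ne hne with h2 | h2
    · have := c3 x y hy (by omega); linarith
    · have := c2 x y hy (by omega); linarith
  have e : α * x + (α + γ) * y = γ * y := by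
    have : x = -y := by linarith
    rw [this]; ring
  rw [e, abs_mul, abs_of_pos hγ0] at h
  have hy0 : y = 0 := by
    by_contra hne
    have : 1 ≤ |y| := Int.one_le_abs hne
    nlinarith
  exact ⟨by linarith, hy0⟩

/-- value of the second shape at a test frequency -/
lemma ShapeT.value {α β F : ℤ} {D N : ℕ} {f : ℤ} {r : ℤ → ℂ} (hf : f ≤ F)
    (hU : ∀ a ∈ As D N, ∀ b ∈ As D N, ∀ a' ∈ As D N, ∀ b' ∈ As D N,
      |α * (a - a') + β * (b - b')| ≤ F → a = a' ∧ b = b')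
    (h : ShapeT α β (T2 D N) (lam N ^ 2) f r) :
    ∃ (κ0 : ℂ) (Θ Θ' : ℝ), ‖κ0‖ ≤ 1 ∧ ∀ a ∈ As D N, ∀ b ∈ As D N, 0 ≤ a + b →
      r (α * a + β * b) = lam N ^ 2 * (κ0 * (if 0 ≤ a then ph a b Θ Θ' else 0)) := by
  obtain ⟨κ, Θ, Θ', h1, h2, h3⟩ := h
  refine ⟨κ 0, Θ, Θ', h1 0, ?_⟩
  intro a ha b hb hab
  rw [h3]
  by_cases ha0 : 0 ≤ a
  · rw [if_pos ha0, Finset.sum_eq_single (a, b)]
    · dsimp only
      rw [show α * a + β * b - α * a - β * b = 0 by ring]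
      ring
    · intro x hx hne
      have : κ (α * a + β * b - α * x.1 - β * x.2) = 0 := by
        by_contra hk
        have g1 := (h2 _ hk).trans hf
        unfold T2 at hx
        rw [Finset.mem_filter, Finset.mem_product] at hx
        have g2 := hU a ha b hb x.1 hx.1.1 x.2 hx.1.2 (by
          rwa [show α * (a - x.1) + β * (b - x.2) = α * a + β * b - α * x.1 - β * x.2 by ring])
        exact hne (Prod.ext g2.1.symm g2.2.symm)
      rw [this, mul_zero]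
    · intro hn
      exfalso; apply hn
      unfold T2
      rw [Finset.mem_filter, Finset.mem_product]
      exact ⟨⟨ha, hb⟩, ha0, hab⟩
  · rw [if_neg ha0, mul_zero, mul_zero]
    apply Finset.sum_eq_zero
    intro x hx
    have : κ (α * a + β * b - α * x.1 - β * x.2) = 0 := by
      by_contra hk
      have g1 := (h2 _ hk).trans hf
      unfold T2 at hx
      rw [Finset.mem_filter, Finset.mem_product] at hx
      have g2 := hU a ha b hb x.1 hx.1.1 x.2 hx.1.2 (by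
        rwa [show α * (a - x.1) + β * (b - x.2) = α * a + β * b - α * x.1 - β * x.2 by ring])
      rw [g2.1] at ha0
      exact ha0 hx.2.1
    rw [this, mul_zero]

end Pool.Agent.Helper145.Toep
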