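import Pool.Agent.Helper145.Toep4

set_option autoImplicit false

open Finset

namespace Pool.Agent.Helper145.Toep

/-- delta function -/
noncomputable def del (n : ℤ) : ℂ := if n = 0 then 1 else 0

/-- the data produced at one scale -/
structure Good (M K R : ℕ) (P Q : ℤ →₀ ℂ) (h : Polynomial ℂ) (Hs : Set ℤ) (Λ d : ℕ) : Prop where
  okP : ok P
  okQ : ok Q
  sP : ∀ k ∈ P.support, 2 * (M:ℤ) < |k| ∧ |k| ≤ d
  sQ : ∀ k ∈ Q.support, 2 * (M:ℤ) < |k| ∧ |k| ≤ d
  sH : ∀ n ∈ Hs, 2 * (M:ℤ) < n ∧ n ≤ d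
  vH : ∀ r : ℤ → ℂ, (∀ n ∈ Hs, r n = 0) → evalW r h = 0
  bd : ∀ r : ℤ → ℂ, (∀ n, ‖r n‖ ≤ 1) → ‖evalW r h‖ ≤ Λ
  rep : ∀ w c p q, Rep M K P Q w c p q → ‖evalW (rr w) h‖ ≤ 48 * c
  big : (R:ℝ) ≤ ‖evalW (corr P (corr Q del)) h‖
  s1 : ∀ k ∈ P.support, ∀ n ∈ Hs, (M:ℤ) < |k + n|
  s1' : ∀ k ∈ Q.support, ∀ n ∈ Hs, (M:ℤ) < |k + n|
  s2 : ∀ k ∈ P.support, ∀ l ∈ Q.support, (M:ℤ) < |k + l|

lemma As_facts {D N : ℕ} (hD : 3 ≤ D) {a : ℤ} (ha : a ∈ As D N) :
    |a| ≤ 1 + (D:ℤ) * N ∧ (D:ℤ) ∣ a - 1 ∧ a ≠ 0 := by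
  obtain ⟨k, h1, h2, rfl⟩ := mem_As.1 ha
  have hD0 : (0:ℤ) ≤ D := Int.natCast_nonneg D
  have hD3 : (3:ℤ) ≤ D := by exact_mod_cast hD
  refine ⟨?_, ⟨k, by ring⟩, ?_⟩
  · rw [abs_le]; constructor <;> nlinarith
  · intro h0
    have h3 : (D:ℤ) ∣ 1 := ⟨-k, by linarith⟩
    have := Int.le_of_dvd (by norm_num) h3
    omega

lemma not_dvd {D : ℕ} (hD : 3 ≤ D) {x : ℤ} (h : (D:ℤ) ∣ x - 1) : x ≠ 0 := by
  have hD3 : (3:ℤ) ≤ D := by exact_mod_cast hD
  rintro rfl
  have h3 : (D:ℤ) ∣ 1 := by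
    have := (dvd_neg (α := ℤ)).2 h
    simpa using this
  have := Int.le_of_dvd (by norm_num) h3
  omega

lemma not_dvd2 {D : ℕ} (hD : 3 ≤ D) {x : ℤ} (h : (D:ℤ) ∣ x - 2) : x ≠ 0 := by
  have hD3 : (3:ℤ) ≤ D := by exact_mod_cast hD
  rintro rfl
  have h3 : (D:ℤ) ∣ 2 := by
    have := (dvd_neg (α := ℤ)).2 h
    simpa using this
  have := Int.le_of_dvd (by norm_num) h3
  omega

lemma aux1 {D k l : ℤ} (hD : 0 ≤ D) (h : 0 ≤ k + l) : 1 ≤ 1 + D * k + (1 + D * l) := by
  have := mul_nonneg hD h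
  linarith

lemma aux2 {α β A B : ℤ} (h1 : 0 ≤ α) (h2 : 0 ≤ β) (h : A ≤ B) (hB : 0 ≤ B) : α * A ≤ (α + β) * B := by
  nlinarith

lemma aux3 {α β A A' B : ℤ} (h1 : 0 ≤ α) (h2 : 0 ≤ β) (h : A ≤ B) (h' : A' ≤ B) :
    α * A + β * A' ≤ (α + β) * B := by
  nlinarith

lemma aux4 {a b c x y : ℕ} (h1 : a < x) (h2 : 1 ≤ y) (h3 : x * y ≤ b) (h4 : b < c) : a < c := by
  have : x ≤ x * y := Nat.le_mul_of_pos_right x h2
  omega

lemma aux5 {D k : ℤ} (hD : 3 ≤ D) : 0 ≤ 1 + D * k ↔ 0 ≤ k := by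
  constructor
  · intro h
    by_contra h0
    nlinarith
  · intro h; have := mul_nonneg (by linarith : 0 ≤ D) h; linarith

lemma aux6 {a b c : ℝ} (h1 : a ≤ 1) (h2 : b ≤ 48) (h3 : 0 ≤ b) (h4 : 1 ≤ c) : a * b ≤ 48 * c := by
  nlinarith

lemma aux7 {A Y B D1 X q : ℤ} (h1 : A ≤ X) (h2 : Y ≤ X * q) (h3 : q ≤ D1) (h4 : X * (D1 + 1) = B) (hX : 0 ≤ X) :
    A + Y ≤ B := by
  nlinarith

theorem one_scale (M K R : ℕ) (hK : 2 ≤ K) :
    ∃ (P Q : ℤ →₀ ℂ) (h : Polynomial ℂ) (Hs : Set ℤ) (Λ d : ℕ), Good M K R P Q h Hs Λ d := by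
  obtain ⟨N, hN⟩ : ∃ N : ℕ, N = 2 ^ (R + 1) := ⟨_, rfl⟩
  obtain ⟨Λ, hΛ⟩ : ∃ Λ : ℕ, Λ = 3 * R * (2 * N + 1) ^ 2 := ⟨_, rfl⟩
  obtain ⟨D, hD⟩ : ∃ D : ℕ, D = Λ + 3 := ⟨_, rfl⟩
  have hD3 : 3 ≤ D := by omega
  have hD0 : 0 < D := by omega
  obtain ⟨F, hF⟩ : ∃ F : ℕ, F = (M + 1) * Λ + 2 * M := ⟨_, rfl⟩
  obtain ⟨B, hB⟩ : ∃ B : ℕ, B = (1 + D * N) * (D + 1) := ⟨_, rfl⟩
  obtain ⟨γ, hγ⟩ : ∃ γ : ℕ, γ = F + 1 := ⟨_, rfl⟩
  obtain ⟨α, hα⟩ : ∃ α : ℕ, α = γ * B + F + 1 := ⟨_, rfl⟩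
  obtain ⟨β, hβ⟩ : ∃ β : ℕ, β = α + γ := ⟨_, rfl⟩
  obtain ⟨c2, c3, c1⟩ := sep (F := (F:ℤ)) (B := (B:ℤ)) (α := (α:ℤ)) (γ := (γ:ℤ))
    (by rw [hγ]; push_cast; ring) (by rw [hα]; push_cast; ring) (Int.natCast_nonneg _) (Int.natCast_nonneg _)
  have hβ' : (α:ℤ) + γ = β := by rw [hβ]; push_cast; ring
  rw [hβ'] at c1 c2 c3
  have hBA : (1 + (D:ℤ) * N) * (D + 1) = B := by rw [hB]; push_cast; ring
  have hDN0 : (0:ℤ) ≤ 1 + (D:ℤ) * N := by positivity
  have hDz : (3:ℤ) ≤ D := by exact_mod_cast hD3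
  have hB1 : 2 * (1 + (D:ℤ) * N) ≤ B := by rw [← hBA]; nlinarith
  have hF2 : 2 * (M:ℤ) ≤ F := by rw [hF]; push_cast; nlinarith [Int.natCast_nonneg M, Int.natCast_nonneg Λ, mul_nonneg (Int.natCast_nonneg M) (Int.natCast_nonneg Λ)]
  have hA : ∀ a ∈ As D N, |a| ≤ B := fun a ha => by
    have := (As_facts hD3 ha).1
    linarith
  have hsum : ∀ a ∈ As D N, ∀ b ∈ As D N, a + b ≠ 0 := by
    intro a ha b hb
    apply not_dvd2 hD3
    have := dvd_add (As_facts hD3 ha).2.1 (As_facts hD3 hb).2.1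
    rwa [show a - 1 + (b - 1) = a + b - 2 by ring] at this
  have hU : ∀ a ∈ As D N, ∀ b ∈ As D N, ∀ a' ∈ As D N, ∀ b' ∈ As D N,
      |(α:ℤ) * (a - a') + β * (b - b')| ≤ F → a = a' ∧ b = b' := by
    intro a ha b hb a' ha' b' hb' h
    have h1 : |b - b'| ≤ B := by
      have g1 := (As_facts hD3 hb).1
      have g2 := (As_facts hD3 hb').1
      have := abs_sub b b'
      linarith
    obtain ⟨g1, g2⟩ := c1 _ _ h1 h
    exact ⟨by linarith, by linarith⟩
  have hU' : ∀ a ∈ As D N, ∀ b ∈ As D N, ∀ a' ∈ As D N, ∀ b' ∈ As D N,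
      |(β:ℤ) * (a - a') + α * (b - b')| ≤ F → a = a' ∧ b = b' := by
    intro a ha b hb a' ha' b' hb' h
    have := hU b hb a ha b' hb' a' ha' (by rwa [add_comm])
    exact ⟨this.2, this.1⟩
  have hcond : Cond D N (α:ℤ) β F := by
    constructor
    · intro a ha h0
      have h1 := (As_facts hD3 ha).2.2
      have := c2 a 0 (by simp) (by omega)
      linarith
    · intro a ha h0
      have h1 := (As_facts hD3 ha).2.2
      have := c2 0 a (hA a ha) (by omega)
      linarith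
    · intro a ha h0
      have := c3 a 0 (by simp) (by omega)
      linarith
    · intro a ha h0
      have := c3 0 a (hA a ha) (by omega)
      linarith
    · intro a ha b hb h0
      have h1 := hsum a ha b hb
      have := c2 a b (hA b hb) (by omega)
      linarith
    · intro a ha b hb h0
      exact c3 a b (hA b hb) (by omega)
  -- the test polynomial
  have hmemA : ∀ k : ℤ, -((2 ^ (R + 1) : ℕ) : ℤ) ≤ k → k ≤ ((2 ^ (R + 1) : ℕ) : ℤ) → 1 + (D:ℤ) * k ∈ As D N := by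
    intro k h1 h2
    rw [← hN] at h1 h2
    exact mem_As.2 ⟨k, h1, h2, rfl⟩
  have hposk : ∀ k l : ℤ, gi R k l → (F:ℤ) < α * (1 + D * k) + β * (1 + D * l) := by
    intro k l h
    obtain ⟨h1, h2, h3, h4, h5⟩ := h
    apply c2 _ _ (hA _ (hmemA l h3 h4))
    exact aux1 (Int.natCast_nonneg D) h5
  obtain ⟨L2, hL2⟩ : ∃ L2 : ℂ, L2 = ((2 * N + 1 : ℕ) : ℂ) ^ 2 := ⟨_, rfl⟩
  obtain ⟨h, hh⟩ : ∃ h : Polynomial ℂ, h = L2 • SS R (fun k l : ℤ =>
    Polynomial.monomial ((α:ℤ) * (1 + D * k) + β * (1 + D * l)).toNat (1:ℂ)) := ⟨_, rfl⟩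
  have hev : ∀ r : ℤ → ℂ, evalW r h = L2 * SS R (fun k l : ℤ => r ((α:ℤ) * (1 + D * k) + β * (1 + D * l))) := by
    intro r
    rw [hh, map_smul, SS_map, smul_eq_mul]
    congr 1
    apply SS_congr
    intro k l hkl
    rw [evalW_monomial, one_mul]
    congr 1
    have := hposk k l hkl
    have h0 : (0:ℤ) ≤ F := Int.natCast_nonneg _
    exact Int.toNat_of_nonneg (by linarith)
  have hlamL : L2 * lam N ^ 2 = 1 := by
    rw [hL2]
    unfold lam
    have : ((2 * N + 1 : ℕ) : ℂ) ≠ 0 := Nat.cast_ne_zero.2 (by omega)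
    push_cast at this ⊢
    field_simp
  let Hs : Set ℤ := {n | ∃ k l : ℤ, gi R k l ∧ n = (α:ℤ) * (1 + D * k) + β * (1 + D * l)}
  obtain ⟨d, hd⟩ : ∃ d : ℕ, d = (α + β) * B := ⟨_, rfl⟩
  have hα0 : (0:ℤ) ≤ α := Int.natCast_nonneg _
  have hβ0 : (0:ℤ) ≤ β := Int.natCast_nonneg _
  have hbnd : ∀ r : ℤ → ℂ, (∀ n, ‖r n‖ ≤ 1) → ‖evalW r h‖ ≤ Λ := by
    intro r hr
    rw [hev, norm_mul]
    have h1 : ‖SS R (fun k l : ℤ => r ((α:ℤ) * (1 + D * k) + β * (1 + D * l)))‖ ≤ 3 * 1 * R :=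
      SS_norm_le (fun k l => hr _)
    have h2 : ‖L2‖ = (2 * N + 1 : ℝ) ^ 2 := by
      rw [hL2, norm_pow, Complex.norm_natCast]; push_cast; ring
    rw [h2, hΛ]
    push_cast
    have h3 : (0:ℝ) ≤ (2 * N + 1 : ℝ) ^ 2 := by positivity
    nlinarith
  refine ⟨PP D N α, PP D N β, h, Hs, Λ, d, ?_⟩
  have hPs : ∀ k ∈ (PP D N (α:ℤ)).support, ∃ a ∈ As D N, k = -((α:ℤ) * a) := fun k hk => PP_support hk
  have hQs : ∀ k ∈ (PP D N (β:ℤ)).support, ∃ a ∈ As D N, k = -((β:ℤ) * a) := fun k hk => PP_support hk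
  have habs : ∀ x y : ℤ, |y| ≤ B → x + y ≠ 0 → (F:ℤ) < |(α:ℤ) * x + β * y| := by
    intro x y hy hxy
    rcases lt_or_gt_of_ne hxy with h1 | h1
    · have := c3 x y hy (by omega)
      rw [abs_of_neg (by linarith)]; linarith
    · have := c2 x y hy (by omega)
      exact this.trans_le (le_abs_self _)
  refine ⟨ok_PP hD0 _, ok_PP hD0 _, ?_, ?_, ?_, ?_, hbnd, ?_, ?_, ?_, ?_, ?_⟩
  · intro k hk
    obtain ⟨a, ha, rfl⟩ := hPs k hk
    obtain ⟨g1, g2, g3⟩ := As_facts hD3 ha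
    rw [abs_neg]
    constructor
    · have := habs a 0 (by simp) (by simpa using g3)
      rw [mul_zero, add_zero] at this
      linarith
    · rw [abs_mul, abs_of_nonneg hα0, hd]
      have := hA a ha
      push_cast
      exact aux2 hα0 hβ0 this (Int.natCast_nonneg _)
  · intro k hk
    obtain ⟨a, ha, rfl⟩ := hQs k hk
    obtain ⟨g1, g2, g3⟩ := As_facts hD3 ha
    rw [abs_neg]
    constructor
    · have := habs 0 a (hA a ha) (by simpa using g3)
      rw [mul_zero, zero_add] at this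
      linarith
    · rw [abs_mul, abs_of_nonneg hβ0, hd]
      have := hA a ha
      push_cast
      rw [add_comm (α:ℤ)]
      exact aux2 hβ0 hα0 this (Int.natCast_nonneg _)
  · rintro n ⟨k, l, hkl, rfl⟩
    constructor
    · have := hposk k l hkl; linarith
    · obtain ⟨h1, h2, h3, h4, h5⟩ := hkl
      have g1 := (abs_le.1 (hA _ (hmemA k h1 h2))).2
      have g2 := (abs_le.1 (hA _ (hmemA l h3 h4))).2
      rw [hd]; push_cast
      exact aux3 hα0 hβ0 g1 g2
  · intro r hr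
    rw [hev]
    have : SS R (fun k l : ℤ => r ((α:ℤ) * (1 + D * k) + β * (1 + D * l))) = SS R (fun _ _ => (0:ℂ)) := by
      apply SS_congr
      intro k l hkl
      exact hr _ ⟨k, l, hkl, rfl⟩
    rw [this]
    unfold SS; simp
  · -- the main estimate
    intro w c p q hw
    have hc1 : 1 ≤ c := hw.cost_pos hK
    have hokw := hw.okw (ok_PP hD0 _) (ok_PP hD0 _)
    by_cases hcΛ : Λ ≤ c
    · have h1 := hbnd (rr w) (rr_norm w hokw)
      have h2 : (Λ:ℝ) ≤ c := by exact_mod_cast hcΛ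
      have h3 : (0:ℝ) ≤ c := Nat.cast_nonneg _
      linarith
    · rw [not_le] at hcΛ
      have hcF : ((M:ℤ) + 1) * c ≤ F := by
        rw [hF]; push_cast
        have h1 : (c:ℤ) ≤ Λ := by exact_mod_cast hcΛ.le
        have h2 : (0:ℤ) ≤ M := Int.natCast_nonneg _
        nlinarith
      have hpow := hw.cost hK
      have hp : p < D := by
        have h1 : p < 2 ^ p := Nat.lt_two_pow_self
        have h2 : 1 ≤ 2 ^ q := Nat.one_le_iff_ne_zero.2 (by positivity)
        exact aux4 h1 h2 hpow (by omega)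
      have hq : q < D := by
        have h1 : q < 2 ^ q := Nat.lt_two_pow_self
        have h2 : 1 ≤ 2 ^ p := Nat.one_le_iff_ne_zero.2 (by positivity)
        exact aux4 h1 h2 (by rwa [mul_comm]) (by omega : c < D)
      by_cases hpq : p = 1 ∧ q = 1
      · obtain ⟨rfl, rfl⟩ := hpq
        have hsh := (hw.shape hK hcond (Int.natCast_nonneg _) hcF).2.2.2 rfl rfl
        have hfin : ∀ (κ0 : ℂ) (G : ℤ → ℤ → ℂ), ‖κ0‖ ≤ 1 → ‖SS R G‖ ≤ 48 →
            (∀ k l, gi R k l → rr w ((α:ℤ) * (1 + D * k) + β * (1 + D * l)) = lam N ^ 2 * (κ0 * G k l)) →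
            ‖evalW (rr w) h‖ ≤ 48 * (c:ℝ) := by
          intro κ0 G hκ hG hval
          rw [hev, SS_congr hval]
          have e : (fun k l => lam N ^ 2 * (κ0 * G k l))
              = fun k l => ((lam N ^ 2 * κ0) • (LinearMap.id : ℂ →ₗ[ℂ] ℂ)) (G k l) := by
            funext k l; simp; ring
          rw [e, ← SS_map]
          simp only [LinearMap.smul_apply, LinearMap.id_coe, id_eq, smul_eq_mul]
          have e2 : L2 * (lam N ^ 2 * κ0 * SS R G) = (L2 * lam N ^ 2) * (κ0 * SS R G) := by ring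
          rw [e2, hlamL, one_mul, norm_mul]
          have h1 : (1:ℝ) ≤ c := by exact_mod_cast hc1
          exact aux6 hκ hG (norm_nonneg _) h1
        rcases hsh with hsh | hsh
        · obtain ⟨κ0, Θ, Θ', hκ, hv⟩ := hsh.value hcF hU
          refine hfin κ0 _ hκ (SS_first' R D Θ Θ') ?_
          intro k l hkl
          obtain ⟨h1, h2, h3, h4, h5⟩ := hkl
          rw [hv _ (hmemA k h1 h2) _ (hmemA l h3 h4) (by have := aux1 (Int.natCast_nonneg D) h5; linarith)]
          by_cases hk : 0 ≤ k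
          · rw [if_pos hk, if_pos ((aux5 hDz).2 hk)]
          · rw [if_neg hk, if_neg (fun hh => hk ((aux5 hDz).1 hh))]
        · obtain ⟨κ0, Θ, Θ', hκ, hv⟩ := hsh.value hcF hU'
          refine hfin κ0 _ hκ (SS_second' R D Θ' Θ) ?_
          intro k l hkl
          obtain ⟨h1, h2, h3, h4, h5⟩ := hkl
          rw [add_comm, hv _ (hmemA l h3 h4) _ (hmemA k h1 h2) (by have := aux1 (Int.natCast_nonneg D) h5; linarith)]
          by_cases hl : 0 ≤ l
          · rw [if_pos hl, if_pos ((aux5 hDz).2 hl), ph_swap]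
          · rw [if_neg hl, if_neg (fun hh => hl ((aux5 hDz).1 hh))]
      · -- all values vanish
        have hz : evalW (rr w) h = 0 := by
          rw [hev]
          have : SS R (fun k l : ℤ => rr w ((α:ℤ) * (1 + D * k) + β * (1 + D * l))) = SS R (fun _ _ => (0:ℂ)) := by
            apply SS_congr
            intro k l hkl
            by_contra hne
            obtain ⟨x, y, s, e, g1, g2, g3, g4, g5⟩ := hw.supp hK _ hne
            obtain ⟨h1, h2, h3, h4, h5⟩ := hkl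
            have ha := As_facts hD3 (hmemA k h1 h2)
            have hb := As_facts hD3 (hmemA l h3 h4)
            set a : ℤ := 1 + D * k
            set b : ℤ := 1 + D * l
            have hqD : (q:ℤ) ≤ D := by exact_mod_cast hq.le
            have hby : |b - y| ≤ B := by
              have := abs_sub b y
              exact this.trans (aux7 hb.1 g3 hqD hBA hDN0)
            have hs : |(α:ℤ) * (a - x) + β * (b - y)| ≤ F := by
              have : (α:ℤ) * (a - x) + β * (b - y) = s := by linarith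
              rw [this]; linarith
            obtain ⟨e1, e2⟩ := c1 _ _ hby hs
            have e1' : x = a := by linarith
            have e2' : y = b := by linarith
            subst e1' e2'
            apply hpq
            constructor
            · have h6 : (D:ℤ) ∣ (p:ℤ) - 1 := by
                have := dvd_sub ha.2.1 g4
                rwa [show a - 1 - (a - (p:ℤ)) = p - 1 by ring] at this
              have h7 : (p:ℤ) - 1 = 0 := by
                apply Int.eq_zero_of_abs_lt_dvd h6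
                rw [abs_lt]; constructor <;> omega
              omega
            · have h6 : (D:ℤ) ∣ (q:ℤ) - 1 := by
                have := dvd_sub hb.2.1 g5
                rwa [show b - 1 - (b - (q:ℤ)) = q - 1 by ring] at this
              have h7 : (q:ℤ) - 1 = 0 := by
                apply Int.eq_zero_of_abs_lt_dvd h6
                rw [abs_lt]; constructor <;> omega
              omega
          rw [this]
          unfold SS; simp
        rw [hz, norm_zero]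
        positivity
  · -- the value of the product
    rw [hev]
    have : SS R (fun k l : ℤ => corr (PP D N α) (corr (PP D N β) del) ((α:ℤ) * (1 + D * k) + β * (1 + D * l)))
        = SS R (fun _ _ => lam N ^ 2) := by
      apply SS_congr
      intro k l hkl
      obtain ⟨h1, h2, h3, h4, h5⟩ := hkl
      have ha := hmemA k h1 h2
      have hb := hmemA l h3 h4
      set a : ℤ := 1 + D * k
      set b : ℤ := 1 + D * l
      rw [corr_PP, Finset.sum_eq_single a]
      · rw [corr_PP, Finset.sum_eq_single b]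
        · have : del ((α:ℤ) * a + β * b - α * a - β * b) = 1 := by
            unfold del; rw [if_pos (by ring)]
          rw [this]
          unfold lam; ring
        · intro b' hb' hne
          have : del ((α:ℤ) * a + β * b - α * a - β * b') = 0 := by
            unfold del
            rw [if_neg]
            intro h0
            have := hU a ha b hb a ha b' hb' (by
              rw [show (α:ℤ) * (a - a) + β * (b - b') = (α:ℤ) * a + β * b - α * a - β * b' by ring, h0]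
              simp)
            exact hne this.2.symm
          rw [this, mul_zero]
        · intro hn; exact absurd hb hn
      · intro a' ha' hne
        rw [corr_PP]
        rw [Finset.sum_eq_zero, mul_zero]
        intro b' hb'
        have : del ((α:ℤ) * a + β * b - α * a' - β * b') = 0 := by
          unfold del
          rw [if_neg]
          intro h0
          have := hU a ha b hb a' ha' b' hb' (by
            rw [show (α:ℤ) * (a - a') + β * (b - b') = (α:ℤ) * a + β * b - α * a' - β * b' by ring, h0]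
            simp)
          exact hne this.1.symm
        rw [this, mul_zero]
      · intro hn; exact absurd ha hn
    rw [this]
    have e : (fun _ _ : ℤ => lam N ^ 2) = fun _ _ : ℤ => ((lam N ^ 2) • (LinearMap.id : ℂ →ₗ[ℂ] ℂ)) (1:ℂ) := by
      funext k l; simp
    rw [e, ← SS_map, SS_one]
    simp only [LinearMap.smul_apply, LinearMap.id_coe, id_eq, smul_eq_mul]
    rw [← mul_assoc, hlamL, one_mul, norm_neg, Complex.norm_natCast]
  · intro k hk n hn
    obtain ⟨a, ha, rfl⟩ := hPs k hk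
    obtain ⟨k', l', hkl, rfl⟩ := hn
    obtain ⟨h1, h2, h3, h4, h5⟩ := hkl
    have g1 := As_facts hD3 ha
    have g2 := As_facts hD3 (hmemA k' h1 h2)
    have g3 := As_facts hD3 (hmemA l' h3 h4)
    have := habs (1 + D * k' - a) (1 + D * l') (hA _ (hmemA l' h3 h4)) (by
      apply not_dvd hD3
      have := dvd_add (dvd_sub g2.2.1 g1.2.1) g3.2.1
      rwa [show 1 + (D:ℤ) * k' - 1 - (a - 1) + (1 + D * l' - 1) = 1 + D * k' - a + (1 + D * l') - 1 by ring] at this)
    rw [show -((α:ℤ) * a) + (α * (1 + D * k') + β * (1 + D * l'))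
      = α * (1 + D * k' - a) + β * (1 + D * l') by ring]
    have h0 : (0:ℤ) ≤ M := Int.natCast_nonneg _
    linarith
  · intro k hk n hn
    obtain ⟨a, ha, rfl⟩ := hQs k hk
    obtain ⟨k', l', hkl, rfl⟩ := hn
    obtain ⟨h1, h2, h3, h4, h5⟩ := hkl
    have g1 := As_facts hD3 ha
    have g2 := As_facts hD3 (hmemA k' h1 h2)
    have g3 := As_facts hD3 (hmemA l' h3 h4)
    have hy : |1 + (D:ℤ) * l' - a| ≤ B := by
      have := abs_sub (1 + (D:ℤ) * l') a
      linarith [g3.1, g1.1]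
    have := habs (1 + D * k') (1 + D * l' - a) hy (by
      apply not_dvd hD3
      have := dvd_add (dvd_sub g3.2.1 g1.2.1) g2.2.1
      rwa [show 1 + (D:ℤ) * l' - 1 - (a - 1) + (1 + D * k' - 1) = 1 + D * k' + (1 + D * l' - a) - 1 by ring] at this)
    rw [show -((β:ℤ) * a) + (α * (1 + D * k') + β * (1 + D * l'))
      = α * (1 + D * k') + β * (1 + D * l' - a) by ring]
    have h0 : (0:ℤ) ≤ M := Int.natCast_nonneg _
    linarith
  · intro k hk l hl
    obtain ⟨a, ha, rfl⟩ := hPs k hk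
    obtain ⟨b, hb, rfl⟩ := hQs l hl
    have := habs a b (hA b hb) (hsum a ha b hb)
    rw [show -((α:ℤ) * a) + -(β * b) = -(α * a + β * b) by ring, abs_neg]
    have h0 : (0:ℤ) ≤ M := Int.natCast_nonneg _
    linarith

end Pool.Agent.Helper145.Toep
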