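import Pool.Agent.Helper145.Toep5

set_option autoImplicit false

open Finset

namespace Pool.Agent.Helper145.Toep

/-- the data at all scales -/
theorem global_data : ∃ (M K Λ d : ℕ → ℕ) (P Q : ℕ → ℤ →₀ ℂ) (h : ℕ → Polynomial ℂ) (Hs : ℕ → Set ℤ),
    (∀ j, 2 ≤ K j) ∧
    (∀ j, Good (M j) (K j) (j * 4 ^ j * K j ^ 2) (P j) (Q j) (h j) (Hs j) (Λ j) (d j)) ∧
    (∀ i j, i < j → d i ≤ M j ∧ Λ i ≤ K j) := by
  have H : ∀ (j M K : ℕ), ∃ (P Q : ℤ →₀ ℂ) (h : Polynomial ℂ) (Hs : Set ℤ) (Λ d : ℕ),
      Good M (K + 2) (j * 4 ^ j * (K + 2) ^ 2) P Q h Hs Λ d :=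
    fun j M K => one_scale M (K + 2) _ (by omega)
  choose P Q h Hs Λ d hG using H
  -- the states
  let st : ℕ → ℕ × ℕ := fun j => Nat.rec (0, 0)
    (fun j s => (max s.1 (d j s.1 s.2), max s.2 (Λ j s.1 s.2))) j
  have hst : ∀ j, st (j + 1) = (max (st j).1 (d j (st j).1 (st j).2), max (st j).2 (Λ j (st j).1 (st j).2)) :=
    fun j => rfl
  refine ⟨fun j => (st j).1, fun j => (st j).2 + 2, fun j => Λ j (st j).1 (st j).2,
    fun j => d j (st j).1 (st j).2, fun j => P j (st j).1 (st j).2, fun j => Q j (st j).1 (st j).2,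
    fun j => h j (st j).1 (st j).2, fun j => Hs j (st j).1 (st j).2, fun j => Nat.le_add_left _ _,
    fun j => hG j _ _, ?_⟩
  intro i j hij
  show d i (st i).1 (st i).2 ≤ (st j).1 ∧ Λ i (st i).1 (st i).2 ≤ (st j).2 + 2
  induction j with
  | zero => omega
  | succ j ih =>
    rw [hst]
    rcases Nat.lt_succ_iff_lt_or_eq.1 hij with h1 | h1
    · obtain ⟨g1, g2⟩ := ih h1
      constructor
      · exact g1.trans (le_max_left _ _)
      · exact g2.trans (Nat.add_le_add_right (le_max_left _ _) 2)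
    · subst h1
      constructor
      · exact le_max_right _ _
      · exact (le_max_right _ _).trans (Nat.le_add_right _ 2)

/-- letters -/
inductive Lt
  | rot (t : ℝ)
  | sh (n : ℤ)
  | P (j : ℕ)
  | Q (j : ℕ)

/-- the symbols and their costs -/
structure Sys where
  K : ℕ → ℕ
  P : ℕ → ℤ →₀ ℂ
  Q : ℕ → ℤ →₀ ℂ
  hK : ∀ j, 2 ≤ K j
  okP : ∀ j, ok (P j)
  okQ : ∀ j, ok (Q j)

namespace Sys

variable (S : Sys)

/-- the operator of a letter -/
noncomputable def op : Lt → Op
  | Lt.rot t => Op.rot t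
  | Lt.sh n => Op.sym (Finsupp.single n 1)
  | Lt.P j => Op.sym (S.P j)
  | Lt.Q j => Op.sym (S.Q j)

/-- the cost of a letter -/
def cst : Lt → ℕ
  | Lt.rot _ => 1
  | Lt.sh n => n.natAbs + 1
  | Lt.P j => S.K j
  | Lt.Q j => S.K j

/-- the cost of a word -/
def cost : List Lt → ℕ
  | [] => 1
  | l :: w => S.cst l * cost w

lemma one_le_cst (l : Lt) : 1 ≤ S.cst l := by
  cases l with
  | rot t => exact le_refl 1
  | sh n => exact Nat.le_add_left _ _
  | P j => exact (by norm_num : 1 ≤ 2).trans (S.hK j)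
  | Q j => exact (by norm_num : 1 ≤ 2).trans (S.hK j)

lemma one_le_cost (w : List Lt) : 1 ≤ S.cost w := by
  induction w with
  | nil => exact le_refl 1
  | cons l w ih => exact Nat.one_le_iff_ne_zero.2 (Nat.mul_ne_zero
      (Nat.one_le_iff_ne_zero.1 (S.one_le_cst l)) (Nat.one_le_iff_ne_zero.1 ih))

lemma okop (l : Lt) : okOp (S.op l) := by
  cases l with
  | rot t => trivial
  | sh n => exact ok_single n
  | P j => exact S.okP j
  | Q j => exact S.okQ j

lemma okw (w : List Lt) : ∀ o ∈ w.map S.op, okOp o := by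
  intro o ho
  obtain ⟨l, _, rfl⟩ := List.mem_map.1 ho
  exact S.okop l

/-- the row of a word -/
noncomputable def row (w : List Lt) : ℤ → ℂ := rr (w.map S.op)

lemma row_norm (w : List Lt) (n : ℤ) : ‖S.row w n‖ ≤ 1 := rr_norm _ (S.okw w) n

lemma row_neg (w : List Lt) (n : ℤ) (hn : n < 0) : S.row w n = 0 := rr_neg _ n hn

lemma row_cons (l : Lt) (w : List Lt) (n : ℤ) : S.row (l :: w) n = stp (S.op l) (S.row w) n := rfl

lemma row_finite (w : List Lt) : ∃ N : ℕ, ∀ n : ℤ, (N:ℤ) ≤ n → S.row w n = 0 := by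
  induction w with
  | nil =>
    refine ⟨1, fun n hn => ?_⟩
    show (if n = 0 then 1 else 0 : ℂ) = 0
    rw [if_neg (by push_cast at hn; omega)]
  | cons l w ih =>
    obtain ⟨N, hN⟩ := ih
    have key : ∀ φ : ℤ →₀ ℂ, ∃ N' : ℕ, ∀ n : ℤ, (N':ℤ) ≤ n → stp (Op.sym φ) (S.row w) n = 0 := by
      intro φ
      refine ⟨N + ∑ k ∈ φ.support, k.natAbs, fun n hn => ?_⟩
      show (if n < 0 then 0 else corr φ (S.row w) n : ℂ) = 0
      split_ifs
      · rfl
      · by_contra h0
        obtain ⟨k, hk, hk2⟩ := corr_ne h0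
        apply hk2
        apply hN
        have h1 : k.natAbs ≤ ∑ k ∈ φ.support, k.natAbs :=
          Finset.single_le_sum (f := fun k : ℤ => k.natAbs) (fun _ _ => Nat.zero_le _) hk
        push_cast at hn
        have h2 : ((k.natAbs : ℕ) : ℤ) ≤ ((∑ k ∈ φ.support, k.natAbs : ℕ) : ℤ) := by exact_mod_cast h1
        push_cast at h2
        have h3 : -|k| ≤ k := neg_abs_le k
        linarith
    cases l with
    | rot t =>
      refine ⟨N, fun n hn => ?_⟩
      show Complex.exp (Complex.I * ((n * t : ℝ) : ℂ)) * S.row w n = 0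
      rw [hN n hn, mul_zero]
    | sh n => exact key _
    | P j => exact key _
    | Q j => exact key _

/-- the value of a word -/
noncomputable def F (w : List Lt) : Polynomial ℂ →ₗ[ℂ] ℂ := evalW (S.row w)

end Sys

lemma evalW_norm_le {r : ℤ → ℂ} (hr : ∀ n, ‖r n‖ ≤ 1) (p : Polynomial ℂ) :
    ‖evalW r p‖ ≤ ∑ n ∈ p.support, ‖p.coeff n‖ := by
  unfold evalW
  rw [Polynomial.lsum_apply, Polynomial.sum_def]
  refine (norm_sum_le _ _).trans (Finset.sum_le_sum fun n _ => ?_)
  show ‖p.coeff n * r n‖ ≤ _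
  rw [norm_mul]
  exact mul_le_of_le_one_right (norm_nonneg _) (hr _)

lemma evalW_eq_sum {r : ℤ → ℂ} {N : ℕ} (hN : ∀ n : ℤ, (N:ℤ) ≤ n → r n = 0) (p : Polynomial ℂ) :
    evalW r p = ∑ n ∈ range N, p.coeff n * r n := by
  have h : evalW r = ∑ n ∈ range N, (LinearMap.mulRight ℂ (r n)).comp (Polynomial.lcoeff ℂ n) := by
    ext m
    simp only [LinearMap.comp_apply, LinearMap.sum_apply, evalW_monomial, one_mul, Polynomial.lcoeff_apply,
      LinearMap.mulRight_apply, Polynomial.coeff_monomial]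
    by_cases hm : m < N
    · rw [Finset.sum_eq_single m]
      · simp
      · intro b _ hb
        rw [if_neg (fun h => hb h.symm), zero_mul]
      · intro h; exact absurd (Finset.mem_range.2 hm) h
    · rw [hN m (by exact_mod_cast (not_lt.1 hm)), Finset.sum_eq_zero]
      intro b hb
      rw [Finset.mem_range] at hb
      rw [if_neg (by omega), zero_mul]
  rw [h]
  simp

/-- the main bound -/
theorem main_bound {M K Λ d : ℕ → ℕ} {P Q : ℕ → ℤ →₀ ℂ} {h : ℕ → Polynomial ℂ} {Hs : ℕ → Set ℤ}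
    {R : ℕ → ℕ}
    (hG : ∀ j, Good (M j) (K j) (R j) (P j) (Q j) (h j) (Hs j) (Λ j) (d j))
    (hlt : ∀ i j, i < j → d i ≤ M j ∧ Λ i ≤ K j) (S : Sys) (hSK : S.K = K) (hSP : S.P = P) (hSQ : S.Q = Q)
    (w : List Lt) (j : ℕ) : ‖S.F w (h j)‖ ≤ 48 * S.cost w := by
  have hK : ∀ j, 2 ≤ K j := by rw [← hSK]; exact S.hK
  have key : Λ j ≤ S.cost w ∨ ∃ c p q, Rep (M j) (K j) (P j) (Q j) (w.map S.op) c p q ∧ c ≤ S.cost w := by
    induction w with
    | nil => right; exact ⟨1, 0, 0, Rep.nil, le_refl _⟩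
    | cons l w ih =>
      rcases ih with ih | ⟨c, p, q, hr, hc⟩
      · left
        show Λ j ≤ S.cst l * S.cost w
        exact ih.trans (Nat.le_mul_of_pos_left _ (S.one_le_cst l))
      · have hsmall : ∀ (i : ℕ) (φ : ℤ →₀ ℂ) (l : Lt), S.op l = Op.sym φ → S.cst l = K i → i < j → ok φ →
            (∀ k ∈ φ.support, |k| ≤ d i) → Λ j ≤ S.cost (l :: w) ∨
              ∃ c p q, Rep (M j) (K j) (P j) (Q j) ((l :: w).map S.op) c p q ∧ c ≤ S.cost (l :: w) := by
          intro i φ l hl hcl hij hokφ hs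
          right
          refine ⟨2 * c, p, q, ?_, ?_⟩
          · rw [List.map_cons, hl]
            apply Rep.sm φ hokφ _ hr
            intro k hk
            have h1 := hs k hk
            have h2 : (d i : ℤ) ≤ M j := by exact_mod_cast (hlt i j hij).1
            exact h1.trans h2
          · show 2 * c ≤ S.cst l * S.cost w
            rw [hcl]
            exact Nat.mul_le_mul (hK i) hc
        have hlarge : ∀ (i : ℕ) (l : Lt), S.cst l = K i → j < i → Λ j ≤ S.cost (l :: w) := by
          intro i l hcl hij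
          show Λ j ≤ S.cst l * S.cost w
          rw [hcl]
          exact (hlt j i hij).2.trans (Nat.le_mul_of_pos_right _ (S.one_le_cost w))
        cases l with
        | rot t =>
          right
          refine ⟨c, p, q, Rep.rot t hr, ?_⟩
          show c ≤ 1 * S.cost w
          rwa [one_mul]
        | sh n =>
          right
          exact ⟨_, p, q, Rep.sh n hr, Nat.mul_le_mul (le_refl _) hc⟩
        | P i =>
          have e1 : S.op (Lt.P i) = Op.sym (P i) := by rw [← hSP]; rfl
          have e2 : S.cst (Lt.P i) = K i := by rw [← hSK]; rfl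
          rcases lt_trichotomy i j with hij | hij | hij
          · exact hsmall i (P i) _ e1 e2 hij (hG i).okP (fun k hk => ((hG i).sP k hk).2)
          · subst hij
            right
            refine ⟨K i * c, p + 1, q, ?_, ?_⟩
            · rw [List.map_cons, e1]; exact Rep.bigP hr
            · show K i * c ≤ S.cst _ * S.cost w
              rw [e2]; exact Nat.mul_le_mul (le_refl _) hc
          · left; exact hlarge i _ e2 hij
        | Q i =>
          have e1 : S.op (Lt.Q i) = Op.sym (Q i) := by rw [← hSQ]; rfl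
          have e2 : S.cst (Lt.Q i) = K i := by rw [← hSK]; rfl
          rcases lt_trichotomy i j with hij | hij | hij
          · exact hsmall i (Q i) _ e1 e2 hij (hG i).okQ (fun k hk => ((hG i).sQ k hk).2)
          · subst hij
            right
            refine ⟨K i * c, p, q + 1, ?_, ?_⟩
            · rw [List.map_cons, e1]; exact Rep.bigQ hr
            · show K i * c ≤ S.cst _ * S.cost w
              rw [e2]; exact Nat.mul_le_mul (le_refl _) hc
          · left; exact hlarge i _ e2 hij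
  have hc1 : (1:ℝ) ≤ S.cost w := by exact_mod_cast S.one_le_cost w
  rcases key with hk | ⟨c, p, q, hr, hc⟩
  · have h1 := (hG j).bd (S.row w) (S.row_norm w)
    have h2 : (Λ j : ℝ) ≤ S.cost w := by exact_mod_cast hk
    show ‖evalW (S.row w) (h j)‖ ≤ _
    linarith
  · have h1 := (hG j).rep _ c p q hr
    have h2 : (c:ℝ) ≤ S.cost w := by exact_mod_cast hc
    show ‖evalW (rr (w.map S.op)) (h j)‖ ≤ _
    linarith

/-- only the diagonal pair contributes -/
theorem off_diag {M K Λ d : ℕ → ℕ} {P Q : ℕ → ℤ →₀ ℂ} {h : ℕ → Polynomial ℂ} {Hs : ℕ → Set ℤ}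
    {R : ℕ → ℕ}
    (hG : ∀ j, Good (M j) (K j) (R j) (P j) (Q j) (h j) (Hs j) (Λ j) (d j))
    (hlt : ∀ i j, i < j → d i ≤ M j ∧ Λ i ≤ K j) (i l j : ℕ) (hne : ¬ (i = j ∧ l = j)) :
    evalW (corr (P i) (corr (Q l) del)) (h j) = 0 := by
  apply (hG j).vH
  intro n hn
  by_contra h0
  obtain ⟨k, hk, h1⟩ := corr_ne h0
  obtain ⟨k', hk', h2⟩ := corr_ne h1
  have h3 : n + k + k' = 0 := by
    by_contra h4
    apply h2
    unfold del
    rw [if_neg h4]
  obtain ⟨a1, a2⟩ := (hG i).sP k hk
  obtain ⟨b1, b2⟩ := (hG l).sQ k' hk'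
  obtain ⟨n1, n2⟩ := (hG j).sH n hn
  have hd : ∀ i j, i < j → (d i : ℤ) ≤ M j := fun i j hij => by exact_mod_cast (hlt i j hij).1
  have hM : ∀ j, (0:ℤ) ≤ M j := fun j => Int.natCast_nonneg _
  have e1 : k' = -(k + n) := by linarith
  have e2 : k = -(k' + n) := by linarith
  have e3 : n = -(k + k') := by linarith
  have t1 : |k'| = |k + n| := by rw [e1, abs_neg]
  have t2 : |k| = |k' + n| := by rw [e2, abs_neg]
  have t3 : |n| = |k + k'| := by rw [e3, abs_neg]
  have hn0 : |n| = n := abs_of_nonneg (by linarith [hM j])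
  have u1 : |k'| ≤ |k| + |n| := by rw [t1]; exact abs_add_le _ _
  have u2 : |k| ≤ |k'| + |n| := by rw [t2]; exact abs_add_le _ _
  have u3 : |n| ≤ |k| + |k'| := by rw [t3]; exact abs_add_le _ _
  rcases lt_trichotomy i j with hij | hij | hij
  · rcases lt_trichotomy l j with hlj | hlj | hlj
    · have := hd i j hij; have := hd l j hlj
      linarith
    · subst hlj
      have := (hG l).s1' k' hk' n hn
      have := hd i l hij
      linarith
    · have := hd i l (hij.trans hlj); have := hd j l hlj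
      linarith
  · subst hij
    rcases lt_trichotomy l i with hlj | hlj | hlj
    · have := (hG i).s1 k hk n hn
      have := hd l i hlj
      linarith
    · exact hne ⟨rfl, hlj⟩
    · have := hd i l hlj
      linarith
  · rcases lt_trichotomy l i with hlj | hlj | hlj
    · have := hd l i hlj; have := hd j i hij
      linarith
    · subst hlj
      have := (hG l).s2 k hk k' hk'
      have := hd j l hij
      linarith
    · have := hd i l hlj; have := hd j l (hij.trans hlj)
      linarith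

end Pool.Agent.Helper145.Toep
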