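import Pool.Agent.Helper145.Toep6

set_option autoImplicit false

open Finset
open scoped ENNReal

namespace Pool.Agent.Helper145.Toep

/-- action of an operator on polynomials -/
noncomputable def act : Op → Polynomial ℂ →ₗ[ℂ] Polynomial ℂ
  | Op.rot t => Polynomial.lsum (fun n => Complex.exp (Complex.I * (((n:ℤ) * t : ℝ) : ℂ)) • Polynomial.monomial n)
  | Op.sym φ => Polynomial.lsum (fun n => φ.sum fun k v =>
      if 0 ≤ (n:ℤ) + k then v • Polynomial.monomial ((n:ℤ) + k).toNat else 0)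

lemma act_rot (t : ℝ) (n : ℕ) (v : ℂ) : act (Op.rot t) (Polynomial.monomial n v)
    = Polynomial.monomial n (Complex.exp (Complex.I * (((n:ℤ) * t : ℝ) : ℂ)) * v) := by
  unfold act
  rw [Polynomial.lsum_apply, Polynomial.sum_monomial_index]
  · rw [LinearMap.smul_apply, Polynomial.smul_monomial, smul_eq_mul]
  · simp

lemma act_sym (φ : ℤ →₀ ℂ) (n : ℕ) (v : ℂ) : act (Op.sym φ) (Polynomial.monomial n v)
    = φ.sum fun k c => if 0 ≤ (n:ℤ) + k then Polynomial.monomial ((n:ℤ) + k).toNat (c * v) else 0 := by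
  unfold act
  rw [Polynomial.lsum_apply, Polynomial.sum_monomial_index]
  · unfold Finsupp.sum
    rw [LinearMap.sum_apply]
    apply Finset.sum_congr rfl
    intro k _
    dsimp only
    split_ifs
    · rw [LinearMap.smul_apply, Polynomial.smul_monomial, smul_eq_mul]
    · rfl
  · simp

lemma evalW_act (o : Op) {r : ℤ → ℂ} (hr : ∀ n < 0, r n = 0) (p : Polynomial ℂ) :
    evalW r (act o p) = evalW (stp o r) p := by
  have h : (evalW r).comp (act o) = evalW (stp o r) := by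
    ext n
    simp only [LinearMap.comp_apply, evalW_monomial, one_mul]
    cases o with
    | rot t =>
      rw [act_rot, evalW_monomial, mul_one]
      rfl
    | sym φ =>
      rw [act_sym]
      show _ = (if (n:ℤ) < 0 then 0 else corr φ r n : ℂ)
      rw [if_neg (by omega)]
      unfold corr Finsupp.sum
      rw [map_sum]
      apply Finset.sum_congr rfl
      intro k _
      dsimp only
      split_ifs with h
      · rw [evalW_monomial, mul_one, Int.toNat_of_nonneg h]
      · rw [map_zero, hr _ (by omega), mul_zero]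
  rw [← h]; rfl

/-- the ambient space -/
abbrev EE : Type := lp (fun _ : List Lt => ℂ) ∞

namespace Sys

variable (S : Sys)

lemma cost_pos (w : List Lt) : (0:ℝ) < S.cost w := by
  exact_mod_cast S.one_le_cost w

lemma cost_ne (w : List Lt) : (S.cost w : ℂ) ≠ 0 := by
  have := S.one_le_cost w
  exact Nat.cast_ne_zero.2 (by omega)

/-- embedding of the polynomials -/
noncomputable def emb : Polynomial ℂ →ₗ[ℂ] EE where
  toFun p := ⟨fun w => S.F w p / (S.cost w : ℂ), memℓp_infty ⟨∑ n ∈ p.support, ‖p.coeff n‖, by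
    rintro _ ⟨w, rfl⟩
    show ‖S.F w p / (S.cost w : ℂ)‖ ≤ _
    rw [norm_div, Complex.norm_natCast]
    have h1 := evalW_norm_le (S.row_norm w) p
    have h2 : (1:ℝ) ≤ S.cost w := by exact_mod_cast S.one_le_cost w
    exact (div_le_self (norm_nonneg _) h2).trans h1⟩⟩
  map_add' p q := by
    ext w
    show S.F w (p + q) / (S.cost w : ℂ) = S.F w p / (S.cost w : ℂ) + S.F w q / (S.cost w : ℂ)
    rw [map_add, add_div]
  map_smul' c p := by
    ext w
    show S.F w (c • p) / (S.cost w : ℂ) = c • (S.F w p / (S.cost w : ℂ))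
    rw [map_smul, smul_eq_mul, smul_eq_mul, mul_div_assoc]

lemma emb_apply (p : Polynomial ℂ) (w : List Lt) : S.emb p w = S.F w p / (S.cost w : ℂ) := rfl

/-- the ambient operator of a letter -/
noncomputable def B (l : Lt) : EE →L[ℂ] EE := LinearMap.mkContinuous
  { toFun := fun x => ⟨fun w => (S.cst l : ℂ) * x (l :: w), memℓp_infty ⟨S.cst l * ‖x‖, by
      rintro _ ⟨w, rfl⟩
      show ‖(S.cst l : ℂ) * x (l :: w)‖ ≤ _
      rw [norm_mul, Complex.norm_natCast]
      exact mul_le_mul_of_nonneg_left (lp.norm_apply_le_norm ENNReal.top_ne_zero x _) (Nat.cast_nonneg _)⟩⟩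
    map_add' := fun x y => by
      ext w
      show (S.cst l : ℂ) * (x (l :: w) + y (l :: w)) = (S.cst l : ℂ) * x (l :: w) + (S.cst l : ℂ) * y (l :: w)
      ring
    map_smul' := fun c x => by
      ext w
      show (S.cst l : ℂ) * (c • x (l :: w)) = c • ((S.cst l : ℂ) * x (l :: w))
      rw [smul_eq_mul, smul_eq_mul]; ring } (S.cst l) (by
    intro x
    apply lp.norm_le_of_forall_le (by positivity)
    intro w
    show ‖(S.cst l : ℂ) * x (l :: w)‖ ≤ _
    rw [norm_mul, Complex.norm_natCast]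
    exact mul_le_mul_of_nonneg_left (lp.norm_apply_le_norm ENNReal.top_ne_zero x _) (Nat.cast_nonneg _))

lemma B_apply (l : Lt) (x : EE) (w : List Lt) : S.B l x w = (S.cst l : ℂ) * x (l :: w) := rfl

lemma B_norm (l : Lt) : ‖S.B l‖ ≤ S.cst l := LinearMap.mkContinuous_norm_le _ (Nat.cast_nonneg _) _

lemma B_emb (l : Lt) (p : Polynomial ℂ) : S.B l (S.emb p) = S.emb (act (S.op l) p) := by
  ext w
  rw [B_apply, emb_apply, emb_apply]
  have h1 : S.F w (act (S.op l) p) = S.F (l :: w) p := evalW_act _ (S.row_neg w) p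
  rw [h1]
  have h2 : (S.cost (l :: w) : ℂ) = S.cst l * S.cost w := by
    show ((S.cst l * S.cost w : ℕ) : ℂ) = _
    push_cast; ring
  rw [h2]
  have h3 : (S.cst l : ℂ) ≠ 0 := Nat.cast_ne_zero.2 (by have := S.one_le_cst l; omega)
  have h4 := S.cost_ne w
  field_simp

/-- the Banach space -/
noncomputable def Xs : Submodule ℂ EE := (LinearMap.range S.emb).topologicalClosure

instance : CompleteSpace S.Xs :=
  (Submodule.isClosed_topologicalClosure (LinearMap.range S.emb)).completeSpace_coe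

/-- polynomials as elements of the Banach space -/
noncomputable def pol : Polynomial ℂ →ₗ[ℂ] S.Xs :=
  S.emb.codRestrict S.Xs (fun p => Submodule.le_topologicalClosure _ (LinearMap.mem_range_self _ p))

lemma pol_coe (p : Polynomial ℂ) : (S.pol p : EE) = S.emb p := rfl

lemma pol_dense : DenseRange S.pol := by
  unfold DenseRange
  rw [Subtype.dense_iff]
  intro x hx
  have h1 : ((↑) '' Set.range S.pol : Set EE) = (LinearMap.range S.emb : Set EE) := by
    ext y
    constructor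
    · rintro ⟨_, ⟨p, rfl⟩, rfl⟩
      exact ⟨p, rfl⟩
    · rintro ⟨p, rfl⟩
      exact ⟨S.pol p, ⟨p, rfl⟩, rfl⟩
  have h2 : x ∈ closure (LinearMap.range S.emb : Set EE) := hx
  rw [← h1] at h2
  exact h2

lemma B_mem (l : Lt) (x : EE) (hx : x ∈ S.Xs) : S.B l x ∈ S.Xs := by
  have hx' : x ∈ closure (LinearMap.range S.emb : Set EE) := hx
  show S.B l x ∈ closure (LinearMap.range S.emb : Set EE)
  apply map_mem_closure (S.B l).continuous hx'
  rintro _ ⟨p, rfl⟩
  exact ⟨_, (S.B_emb l p).symm⟩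

/-- the operator of a letter on the Banach space -/
noncomputable def A (l : Lt) : S.Xs →L[ℂ] S.Xs :=
  ((S.B l).comp S.Xs.subtypeL).codRestrict S.Xs (fun x => S.B_mem l _ x.2)

lemma A_coe (l : Lt) (x : S.Xs) : (S.A l x : EE) = S.B l x := rfl

lemma A_apply (l : Lt) (x : S.Xs) (w : List Lt) : (S.A l x : EE) w = (S.cst l : ℂ) * (x : EE) (l :: w) := rfl

lemma A_pol (l : Lt) (p : Polynomial ℂ) : S.A l (S.pol p) = S.pol (act (S.op l) p) :=
  Subtype.ext (S.B_emb l p)

lemma A_norm_le (l : Lt) (x : S.Xs) : ‖S.A l x‖ ≤ S.cst l * ‖x‖ := by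
  have h1 : ‖S.B l (x : EE)‖ ≤ ‖S.B l‖ * ‖(x : EE)‖ := (S.B l).le_opNorm _
  have h2 := S.B_norm l
  calc ‖S.A l x‖ = ‖S.B l (x : EE)‖ := rfl
    _ ≤ ‖S.B l‖ * ‖(x : EE)‖ := h1
    _ ≤ S.cst l * ‖(x : EE)‖ := mul_le_mul_of_nonneg_right h2 (norm_nonneg _)

lemma A_norm (l : Lt) : ‖S.A l‖ ≤ S.cst l :=
  ContinuousLinearMap.opNorm_le_bound _ (Nat.cast_nonneg _) (S.A_norm_le l)

/-- evaluation at a word -/
noncomputable def wd (w : List Lt) : S.Xs →L[ℂ] ℂ := (lp.evalCLM ℂ (fun _ : List Lt => ℂ) ∞ w).comp S.Xs.subtypeL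

lemma wd_apply (w : List Lt) (x : S.Xs) : S.wd w x = (x : EE) w := rfl

lemma wd_norm_le (w : List Lt) (x : S.Xs) : ‖S.wd w x‖ ≤ ‖x‖ :=
  lp.norm_apply_le_norm ENNReal.top_ne_zero (x : EE) w

/-- the coefficients -/
noncomputable def coef (n : ℕ) : S.Xs →L[ℂ] ℂ := ((n:ℂ) + 1) • S.wd [Lt.sh (-(n:ℤ))]

lemma cost_sh (n : ℕ) : S.cost [Lt.sh (-(n:ℤ))] = n + 1 := by
  show ((-(n:ℤ)).natAbs + 1) * 1 = n + 1
  simp

lemma row_sh (n : ℕ) (m : ℤ) : S.row [Lt.sh (-(n:ℤ))] m = if m = n then 1 else 0 := by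
  show (if m < 0 then 0 else corr (Finsupp.single (-(n:ℤ)) 1) (rr []) m : ℂ) = _
  unfold corr
  rw [Finsupp.sum_single_index (by simp), one_mul]
  show (if m < 0 then 0 else (if m + -(n:ℤ) = 0 then 1 else 0) : ℂ) = _
  by_cases h : m = n
  · subst h
    rw [if_neg (by omega), if_pos (by omega), if_pos rfl]
  · rw [if_neg h]
    split_ifs
    · rfl
    · omega
    · rfl

lemma F_sh (n : ℕ) (p : Polynomial ℂ) : S.F [Lt.sh (-(n:ℤ))] p = p.coeff n := by
  have h : S.F [Lt.sh (-(n:ℤ))] = Polynomial.lcoeff ℂ n := by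
    ext m
    simp only [LinearMap.comp_apply, Polynomial.lcoeff_apply, Polynomial.coeff_monomial]
    unfold F
    rw [evalW_monomial, row_sh, one_mul]
    simp [Nat.cast_inj]
  rw [h]; rfl

lemma coef_norm_le (n : ℕ) (x : S.Xs) : ‖S.coef n x‖ ≤ (n + 1) * ‖x‖ := by
  unfold coef
  rw [smul_apply, norm_smul]
  have h1 : ‖((n:ℂ) + 1)‖ = n + 1 := by
    have : ((n:ℂ) + 1) = ((n + 1 : ℕ) : ℂ) := by push_cast; ring
    rw [this, Complex.norm_natCast]; push_cast; ring
  rw [h1]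
  exact mul_le_mul_of_nonneg_left (S.wd_norm_le _ _) (by positivity)

lemma coef_apply (n : ℕ) (x : S.Xs) : S.coef n x = (S.cost [Lt.sh (-(n:ℤ))] : ℂ) * (x : EE) [Lt.sh (-(n:ℤ))] := by
  rw [cost_sh]
  push_cast
  rfl

lemma coef_pol (n : ℕ) (p : Polynomial ℂ) : S.coef n (S.pol p) = p.coeff n := by
  rw [coef_apply, pol_coe, emb_apply, F_sh]
  have := S.cost_ne [Lt.sh (-(n:ℤ))]
  field_simp

lemma repr (w : List Lt) (N : ℕ) (hN : ∀ n : ℤ, (N:ℤ) ≤ n → S.row w n = 0) (x : S.Xs) :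
    (S.cost w : ℂ) * (x : EE) w = ∑ n ∈ range N, S.coef n x * S.row w n := by
  have h1 : Continuous (fun x : S.Xs => (S.cost w : ℂ) * S.wd w x) :=
    continuous_const.mul (S.wd w).continuous
  have h2 : Continuous (fun x : S.Xs => ∑ n ∈ range N, S.coef n x * S.row w n) :=
    continuous_finsetSum _ (fun n _ => (S.coef n).continuous.mul continuous_const)
  have h3 := S.pol_dense.equalizer h1 h2 (by
    funext p
    show (S.cost w : ℂ) * S.wd w (S.pol p) = ∑ n ∈ range N, S.coef n (S.pol p) * S.row w n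
    rw [wd_apply, pol_coe, emb_apply]
    have h4 := S.cost_ne w
    rw [mul_div_cancel₀ _ h4]
    unfold F
    rw [evalW_eq_sum hN]
    apply Finset.sum_congr rfl
    intro n _
    rw [coef_pol])
  exact congrFun h3 x

lemma ext_coef {x : S.Xs} (h : ∀ n, S.coef n x = 0) : x = 0 := by
  apply Subtype.ext
  apply lp.ext
  funext w
  obtain ⟨N, hN⟩ := S.row_finite w
  have h1 := S.repr w N hN x
  rw [Finset.sum_eq_zero (fun n _ => by rw [h n, zero_mul])] at h1
  rcases mul_eq_zero.1 h1 with h2 | h2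
  · exact absurd h2 (S.cost_ne w)
  · exact h2

lemma ext_coef' {x y : S.Xs} (h : ∀ n, S.coef n x = S.coef n y) : x = y := by
  rw [← sub_eq_zero]
  apply S.ext_coef
  intro n
  rw [ContinuousLinearMap.map_sub, h n, sub_self]

lemma coef_A (l : Lt) (n : ℕ) (x : S.Xs) : S.coef n (S.A l x)
    = (S.cost [l, Lt.sh (-(n:ℤ))] : ℂ) * (x : EE) [l, Lt.sh (-(n:ℤ))] := by
  rw [coef_apply, A_apply]
  have : (S.cost [l, Lt.sh (-(n:ℤ))] : ℂ) = S.cst l * S.cost [Lt.sh (-(n:ℤ))] := by
    show ((S.cst l * S.cost [Lt.sh (-(n:ℤ))] : ℕ) : ℂ) = _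
    push_cast; ring
  rw [this]; ring

lemma coef_A_pol (l : Lt) (n : ℕ) (p : Polynomial ℂ) : S.coef n (S.A l (S.pol p))
    = S.F [l, Lt.sh (-(n:ℤ))] p := by
  rw [coef_A, pol_coe, emb_apply]
  rw [mul_div_cancel₀ _ (S.cost_ne _)]

lemma coef_sh (m : ℤ) (n : ℕ) (x : S.Xs) : S.coef n (S.A (Lt.sh m) x)
    = if 0 ≤ (n:ℤ) - m then S.coef ((n:ℤ) - m).toNat x else 0 := by
  rw [coef_A]
  have hrow : ∀ k : ℤ, S.row [Lt.sh m, Lt.sh (-(n:ℤ))] k = if k < 0 then 0 else (if k = n - m then 1 else 0) := by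
    intro k
    show (if k < 0 then 0 else corr (Finsupp.single m 1) (S.row [Lt.sh (-(n:ℤ))]) k : ℂ) = _
    unfold corr
    rw [Finsupp.sum_single_index (by simp), one_mul, row_sh]
    split_ifs <;> first | rfl | omega
  have hN : ∀ k : ℤ, ((((n:ℤ) - m).toNat + 1 : ℕ) : ℤ) ≤ k → S.row [Lt.sh m, Lt.sh (-(n:ℤ))] k = 0 := by
    intro k hk
    rw [hrow]
    split_ifs <;> first | rfl | omega
  rw [S.repr _ _ hN x]
  split_ifs with h
  · rw [Finset.sum_eq_single ((n:ℤ) - m).toNat]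
    · rw [hrow, if_neg (by omega), if_pos (by omega), mul_one]
    · intro b _ hb
      rw [hrow]
      rw [if_neg (by omega), if_neg (by omega), mul_zero]
    · intro hh
      exact absurd (Finset.mem_range.2 (Nat.lt_succ_self _)) hh
  · apply Finset.sum_eq_zero
    intro b _
    rw [hrow]
    rw [if_neg (by omega), if_neg (by omega), mul_zero]

lemma coef_rot (t : ℝ) (n : ℕ) (x : S.Xs) : S.coef n (S.A (Lt.rot t) x)
    = Complex.exp (Complex.I * (((n:ℤ) * t : ℝ) : ℂ)) * S.coef n x := by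
  rw [coef_A]
  have hrow : ∀ k : ℤ, S.row [Lt.rot t, Lt.sh (-(n:ℤ))] k
      = Complex.exp (Complex.I * ((k * t : ℝ) : ℂ)) * (if k = n then 1 else 0) := by
    intro k
    rw [row_cons]
    show Complex.exp (Complex.I * ((k * t : ℝ) : ℂ)) * S.row [Lt.sh (-(n:ℤ))] k = _
    rw [row_sh]
  have hN : ∀ k : ℤ, ((n + 1 : ℕ) : ℤ) ≤ k → S.row [Lt.rot t, Lt.sh (-(n:ℤ))] k = 0 := by
    intro k hk
    rw [hrow, if_neg (by push_cast at hk; omega), mul_zero]
  rw [S.repr _ _ hN x, Finset.sum_eq_single n]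
  · rw [hrow, if_pos rfl]; ring
  · intro b _ hb
    rw [hrow, if_neg (by exact_mod_cast hb)]; ring
  · intro hh
    exact absurd (Finset.mem_range.2 (Nat.lt_succ_self _)) hh

end Sys

end Pool.Agent.Helper145.Toep
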