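import Pool.Agent.Helper145.Toep7

set_option autoImplicit false

open Finset
open scoped ENNReal NNReal Topology

namespace Pool.Agent.Helper145.Toep

/-! ### power series with coefficients of linear growth -/

/-- sum of a power series -/
noncomputable def ps (a : ℕ → ℂ) (z : ℂ) : ℂ := ∑' n : ℕ, a n * z ^ n

lemma summable_lin {C r : ℝ} (hr0 : 0 ≤ r) (hr : r < 1) : Summable fun n : ℕ => ((n:ℝ) + 1) * C * r ^ n := by
  have h1 : Summable fun n : ℕ => ((n:ℝ)) * r ^ n := by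
    have := summable_pow_mul_geometric_of_norm_lt_one 1 (r := r) (by rwa [Real.norm_eq_abs, abs_of_nonneg hr0])
    simpa using this
  have h2 : Summable fun n : ℕ => r ^ n := summable_geometric_of_lt_one hr0 hr
  have h3 := (h1.add h2).mul_left C
  refine h3.congr (fun n => ?_)
  ring

lemma ps_summable {a : ℕ → ℂ} {C : ℝ} (ha : ∀ n, ‖a n‖ ≤ (n + 1) * C) {z : ℂ} (hz : ‖z‖ < 1) :
    Summable fun n : ℕ => a n * z ^ n := by
  apply Summable.of_norm_bounded (summable_lin (C := C) (norm_nonneg z) hz)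
  intro n
  rw [norm_mul, norm_pow]
  exact mul_le_mul_of_nonneg_right (ha n) (by positivity)

lemma ps_hasFPowerSeries {a : ℕ → ℂ} {C : ℝ} (ha : ∀ n, ‖a n‖ ≤ (n + 1) * C) :
    HasFPowerSeriesOnBall (ps a) (FormalMultilinearSeries.ofScalars ℂ a) 0 1 := by
  have hrad : 1 ≤ (FormalMultilinearSeries.ofScalars ℂ a).radius := by
    apply ENNReal.le_of_forall_nnreal_lt
    intro r hr
    have hr1 : (r:ℝ) < 1 := by exact_mod_cast hr
    apply FormalMultilinearSeries.le_radius_of_summable_norm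
    apply Summable.of_nonneg_of_le (fun n => by positivity) _ (summable_lin (C := C) r.2 hr1)
    intro n
    rw [FormalMultilinearSeries.ofScalars_norm]
    exact mul_le_mul_of_nonneg_right (ha n) (by positivity)
  have h1 := (FormalMultilinearSeries.ofScalars ℂ a).hasFPowerSeriesOnBall (lt_of_lt_of_le one_pos hrad)
  have h2 := h1.mono one_pos hrad
  have h3 : (FormalMultilinearSeries.ofScalars ℂ a).sum = ps a := by
    funext z
    have := FormalMultilinearSeries.ofScalars_sum_eq (E := ℂ) a z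
    unfold FormalMultilinearSeries.ofScalarsSum at this
    rw [this]
    unfold ps
    apply tsum_congr
    intro n
    rw [smul_eq_mul]
  rwa [h3] at h2

lemma ps_analytic {a : ℕ → ℂ} {C : ℝ} (ha : ∀ n, ‖a n‖ ≤ (n + 1) * C) :
    AnalyticOnNhd ℂ (ps a) (Metric.ball 0 1) := by
  have h := (ps_hasFPowerSeries ha).analyticOnNhd
  intro z hz
  apply h z
  rw [Metric.mem_eball, edist_eq_enorm_sub, sub_zero, ← ofReal_norm]
  rw [mem_ball_zero_iff] at hz
  rw [← ENNReal.ofReal_one]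
  exact (ENNReal.ofReal_lt_ofReal_iff one_pos).2 hz

lemma ps_zero {a : ℕ → ℂ} {C : ℝ} (ha : ∀ n, ‖a n‖ ≤ (n + 1) * C)
    (h0 : ∀ z ∈ Metric.ball (0:ℂ) 1, ps a z = 0) : ∀ n, a n = 0 := by
  have h := (ps_hasFPowerSeries ha).hasFPowerSeriesAt
  have h1 : HasFPowerSeriesAt (0 : ℂ → ℂ) (FormalMultilinearSeries.ofScalars ℂ a) 0 := by
    apply h.congr
    filter_upwards [Metric.ball_mem_nhds (0:ℂ) one_pos] with z hz
    exact h0 z hz
  have h2 := h1.eq_zero
  intro n
  have h3 : (FormalMultilinearSeries.ofScalars ℂ a) n = 0 := by rw [h2]; rfl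
  exact (FormalMultilinearSeries.ofScalars_eq_zero ℂ n).1 h3

lemma ps_at_zero (a : ℕ → ℂ) : ps a 0 = a 0 := by
  unfold ps
  rw [tsum_eq_single 0]
  · simp
  · intro n hn
    rw [zero_pow hn, mul_zero]

/-! ### spectral radii -/

lemma spec_one {X : Type} [NormedAddCommGroup X] [NormedSpace ℂ X] [CompleteSpace X] [Nontrivial X] (T : X →L[ℂ] X)
    (h1 : ∀ n : ℕ, ‖T ^ n‖ ≤ n + 1) (h2 : ∀ n : ℕ, 1 ≤ (n + 1) * ‖T ^ n‖) : spectralRadius ℂ T = 1 := by
  have hg := spectrum.pow_norm_pow_one_div_tendsto_nhds_spectralRadius T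
  have ha : Filter.Tendsto (fun n : ℕ => (((n:ℝ) + 1) ^ (1 / n : ℝ))) Filter.atTop (𝓝 1) := by
    have h := tendsto_rpow_div_mul_add 1 1 (-1) (by norm_num)
    have h' := h.comp (Filter.tendsto_atTop_add_const_right _ (1:ℝ) (tendsto_natCast_atTop_atTop (R := ℝ)))
    refine h'.congr (fun n => ?_)
    simp only [Function.comp_apply]
    congr 2
    ring
  have hb : Filter.Tendsto (fun n : ℕ => ((((n:ℝ) + 1)⁻¹) ^ (1 / n : ℝ))) Filter.atTop (𝓝 1) := by
    have := ha.inv₀ one_ne_zero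
    rw [inv_one] at this
    refine this.congr (fun n => ?_)
    rw [Real.inv_rpow (by positivity)]
  have hc : Filter.Tendsto (fun n : ℕ => (‖T ^ n‖ ^ (1 / n : ℝ))) Filter.atTop (𝓝 1) := by
    apply tendsto_of_tendsto_of_tendsto_of_le_of_le hb ha
    · intro n
      apply Real.rpow_le_rpow (by positivity) _ (by positivity)
      rw [inv_le_iff_one_le_mul₀' (by positivity)]
      exact h2 n
    · intro n
      exact Real.rpow_le_rpow (norm_nonneg _) (h1 n) (by positivity)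
  have hd := (ENNReal.continuous_ofReal.tendsto 1).comp hc
  rw [ENNReal.ofReal_one] at hd
  exact tendsto_nhds_unique hg hd

namespace Sys

variable (S : Sys)

lemma sh_pow_pos (n : ℕ) : (S.A (Lt.sh 1)) ^ n = S.A (Lt.sh n) := by
  induction n with
  | zero =>
    ext1 x
    apply S.ext_coef'
    intro k
    rw [S.coef_sh, if_pos (by simp)]
    simp
  | succ n ih =>
    rw [pow_succ', ih]
    ext1 x
    apply S.ext_coef'
    intro k
    show S.coef k (S.A (Lt.sh 1) (S.A (Lt.sh n) x)) = _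
    rw [S.coef_sh, S.coef_sh]
    by_cases h : 0 ≤ (k:ℤ) - 1
    · rw [if_pos h, S.coef_sh]
      have e : (((k:ℤ) - 1).toNat : ℤ) = (k:ℤ) - 1 := Int.toNat_of_nonneg h
      rw [e]
      have e2 : (k:ℤ) - 1 - n = (k:ℤ) - ((n + 1 : ℕ) : ℤ) := by push_cast; ring
      rw [e2]
    · rw [if_neg h, S.coef_sh, if_neg (by push_cast; omega)]

lemma sh_pow_neg (n : ℕ) : (S.A (Lt.sh (-1))) ^ n = S.A (Lt.sh (-(n:ℤ))) := by
  induction n with
  | zero =>
    ext1 x
    apply S.ext_coef'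
    intro k
    rw [S.coef_sh, if_pos (by simp)]
    simp
  | succ n ih =>
    rw [pow_succ', ih]
    ext1 x
    apply S.ext_coef'
    intro k
    show S.coef k (S.A (Lt.sh (-1)) (S.A (Lt.sh (-(n:ℤ))) x)) = _
    rw [S.coef_sh, S.coef_sh, if_pos (by omega), S.coef_sh]
    have e : (((k:ℤ) - (-1)).toNat : ℤ) = (k:ℤ) - (-1) := Int.toNat_of_nonneg (by omega)
    rw [e]
    have e2 : (k:ℤ) - (-1) - (-(n:ℤ)) = (k:ℤ) - (-((n + 1 : ℕ) : ℤ)) := by push_cast; ring
    rw [e2]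

lemma sh_neg_sh (n : ℕ) (x : S.Xs) : S.A (Lt.sh (-(n:ℤ))) (S.A (Lt.sh n) x) = x := by
  apply S.ext_coef'
  intro k
  rw [S.coef_sh, if_pos (by omega), S.coef_sh, if_pos (by omega)]
  congr 1
  congr 1
  omega

lemma pol_one_ne : S.pol 1 ≠ 0 := by
  intro h
  have h1 := S.coef_pol 0 1
  rw [h, ContinuousLinearMap.map_zero, Polynomial.coeff_one_zero] at h1
  exact zero_ne_one h1

instance : Nontrivial S.Xs := ⟨⟨S.pol 1, 0, S.pol_one_ne⟩⟩

lemma sh_norm (m : ℤ) : ‖S.A (Lt.sh m)‖ ≤ m.natAbs + 1 := by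
  have := S.A_norm (Lt.sh m)
  have e : (S.cst (Lt.sh m) : ℝ) = m.natAbs + 1 := by
    show ((m.natAbs + 1 : ℕ) : ℝ) = _
    push_cast; ring
  rwa [e] at this

lemma sh_mul_norm (n : ℕ) : 1 ≤ ‖S.A (Lt.sh (-(n:ℤ)))‖ * ‖S.A (Lt.sh n)‖ := by
  have h1 : ‖S.pol 1‖ ≤ ‖S.A (Lt.sh (-(n:ℤ)))‖ * ‖S.A (Lt.sh n)‖ * ‖S.pol 1‖ := by
    calc ‖S.pol 1‖ = ‖S.A (Lt.sh (-(n:ℤ))) (S.A (Lt.sh n) (S.pol 1))‖ := by rw [S.sh_neg_sh]
      _ ≤ ‖S.A (Lt.sh (-(n:ℤ)))‖ * ‖S.A (Lt.sh n) (S.pol 1)‖ := ContinuousLinearMap.le_opNorm _ _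
      _ ≤ ‖S.A (Lt.sh (-(n:ℤ)))‖ * (‖S.A (Lt.sh n)‖ * ‖S.pol 1‖) :=
          mul_le_mul_of_nonneg_left (ContinuousLinearMap.le_opNorm _ _) (norm_nonneg (S.A (Lt.sh (-(n:ℤ)))))
      _ = _ := by ring
  have h2 : 0 < ‖S.pol 1‖ := norm_pos_iff.2 S.pol_one_ne
  by_contra h3
  rw [not_le] at h3
  nlinarith

lemma spec_pos : spectralRadius ℂ (S.A (Lt.sh 1)) = 1 := by
  apply spec_one
  · intro n
    rw [S.sh_pow_pos]
    have := S.sh_norm n
    simpa using this
  · intro n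
    rw [S.sh_pow_pos]
    have h1 := S.sh_mul_norm n
    have h2 := S.sh_norm (-(n:ℤ))
    rw [Int.natAbs_neg, Int.natAbs_natCast] at h2
    exact h1.trans (mul_le_mul_of_nonneg_right h2 (norm_nonneg (S.A (Lt.sh n))))

lemma spec_neg : spectralRadius ℂ (S.A (Lt.sh (-1))) = 1 := by
  apply spec_one
  · intro n
    rw [S.sh_pow_neg]
    have := S.sh_norm (-(n:ℤ))
    simpa using this
  · intro n
    rw [S.sh_pow_neg]
    have h1 := S.sh_mul_norm n
    have h2 := S.sh_norm (n:ℤ)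
    rw [Int.natAbs_natCast] at h2
    rw [mul_comm] at h1
    exact h1.trans (mul_le_mul_of_nonneg_right h2 (norm_nonneg (S.A (Lt.sh (-(n:ℤ))))))

/-! ### realisation as analytic functions -/

/-- the realisation as functions on the disc (extended by zero) -/
noncomputable def ev : S.Xs →ₗ[ℂ] (ℂ → ℂ) where
  toFun x z := if ‖z‖ < 1 then ps (fun n => S.coef n x) z else 0
  map_add' x y := by
    funext z
    show (if ‖z‖ < 1 then ps (fun n => S.coef n (x + y)) z else 0)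
      = (if ‖z‖ < 1 then ps (fun n => S.coef n x) z else 0) + (if ‖z‖ < 1 then ps (fun n => S.coef n y) z else 0)
    split_ifs with hz
    · unfold ps
      rw [← (ps_summable (fun n => S.coef_norm_le n x) hz).tsum_add (ps_summable (fun n => S.coef_norm_le n y) hz)]
      apply tsum_congr
      intro n
      beta_reduce
      rw [ContinuousLinearMap.map_add]; ring
    · rw [add_zero]
  map_smul' c x := by
    funext z
    show (if ‖z‖ < 1 then ps (fun n => S.coef n (c • x)) z else 0)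
      = c • (if ‖z‖ < 1 then ps (fun n => S.coef n x) z else 0)
    split_ifs with hz
    · unfold ps
      rw [smul_eq_mul, ← tsum_mul_left]
      apply tsum_congr
      intro n
      beta_reduce
      rw [ContinuousLinearMap.map_smul, smul_eq_mul]; ring
    · rw [smul_zero]

lemma ev_apply (x : S.Xs) {z : ℂ} (hz : z ∈ Metric.ball (0:ℂ) 1) : S.ev x z = ps (fun n => S.coef n x) z := by
  show (if ‖z‖ < 1 then ps (fun n => S.coef n x) z else 0) = _
  rw [if_pos (by simpa using hz)]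

lemma ev_zero (x : S.Xs) : S.ev x 0 = S.coef 0 x := by
  rw [S.ev_apply x (by simp), ps_at_zero]

lemma ev_analytic (x : S.Xs) : AnalyticOnNhd ℂ (S.ev x) (Metric.ball 0 1) := by
  have h := ps_analytic (fun n => S.coef_norm_le n x)
  intro z hz
  apply (h z hz).congr
  filter_upwards [Metric.isOpen_ball.mem_nhds hz] with w hw
  exact (S.ev_apply x hw).symm

lemma ev_faithful (x : S.Xs) (h : ∀ z ∈ Metric.ball (0:ℂ) 1, S.ev x z = 0) : x = 0 := by
  apply S.ext_coef
  apply ps_zero (fun n => S.coef_norm_le n x)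
  intro z hz
  rw [← S.ev_apply x hz]
  exact h z hz

lemma ev_cont {z : ℂ} (hz : z ∈ Metric.ball (0:ℂ) 1) : Continuous fun x => S.ev x z := by
  have hz' : ‖z‖ < 1 := by simpa using hz
  let L : S.Xs →ₗ[ℂ] ℂ := (LinearMap.proj z).comp S.ev
  have hL : ∀ x, ‖L x‖ ≤ (∑' n : ℕ, ((n:ℝ) + 1) * 1 * ‖z‖ ^ n) * ‖x‖ := by
    intro x
    show ‖S.ev x z‖ ≤ _
    rw [S.ev_apply x hz]
    unfold ps
    have hs := summable_lin (C := 1) (norm_nonneg z) hz'
    have hs2 := ps_summable (fun n => S.coef_norm_le n x) hz'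
    rw [← tsum_mul_right]
    apply tsum_of_norm_bounded (hs.mul_right ‖x‖).hasSum
    intro n
    rw [norm_mul, norm_pow]
    have := S.coef_norm_le n x
    have h2 : 0 ≤ ‖z‖ ^ n := by positivity
    nlinarith [mul_le_mul_of_nonneg_right this h2]
  exact (L.mkContinuous _ hL).continuous

lemma ev_pol (p : Polynomial ℂ) {z : ℂ} (hz : z ∈ Metric.ball (0:ℂ) 1) : S.ev (S.pol p) z = p.eval z := by
  rw [S.ev_apply _ hz]
  unfold ps
  rw [Polynomial.eval_eq_sum_range]
  rw [tsum_eq_sum (s := Finset.range (p.natDegree + 1))]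
  · apply Finset.sum_congr rfl
    intro n _
    beta_reduce
    rw [coef_pol]
  · intro n hn
    rw [Finset.mem_range, not_lt] at hn
    beta_reduce
    rw [coef_pol, Polynomial.coeff_eq_zero_of_natDegree_lt (by omega), zero_mul]

lemma ev_eq_pol {x : S.Xs} {p : Polynomial ℂ} (h : ∀ z ∈ Metric.ball (0:ℂ) 1, S.ev x z = p.eval z) :
    x = S.pol p := by
  rw [← sub_eq_zero]
  apply S.ev_faithful
  intro z hz
  rw [map_sub]
  show S.ev x z - S.ev (S.pol p) z = 0
  rw [h z hz, S.ev_pol p hz, sub_self]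

lemma ev_shift (x : S.Xs) {z : ℂ} (hz : z ∈ Metric.ball (0:ℂ) 1) : S.ev (S.A (Lt.sh 1) x) z = z * S.ev x z := by
  have hz' : ‖z‖ < 1 := by simpa using hz
  rw [S.ev_apply _ hz, S.ev_apply _ hz]
  unfold ps
  rw [← tsum_mul_left]
  have hs := ps_summable (fun n => S.coef_norm_le n (S.A (Lt.sh 1) x)) hz'
  rw [hs.tsum_eq_zero_add]
  have e0 : S.coef 0 (S.A (Lt.sh 1) x) = 0 := by
    rw [coef_sh, if_neg (by norm_num)]
  rw [e0, zero_mul, zero_add]
  apply tsum_congr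
  intro n
  beta_reduce
  rw [coef_sh, if_pos (by push_cast; omega)]
  have : (((n + 1 : ℕ) : ℤ) - 1).toNat = n := by push_cast; omega
  rw [this, pow_succ]; ring

lemma ev_back (x : S.Xs) {z : ℂ} (hz : z ∈ Metric.ball (0:ℂ) 1) :
    z * S.ev (S.A (Lt.sh (-1)) x) z = S.ev x z - S.ev x 0 := by
  have hz' : ‖z‖ < 1 := by simpa using hz
  rw [S.ev_zero, S.ev_apply _ hz, S.ev_apply _ hz]
  unfold ps
  rw [← tsum_mul_left]
  have hs := ps_summable (fun n => S.coef_norm_le n x) hz'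
  rw [hs.tsum_eq_zero_add, pow_zero, mul_one, add_sub_cancel_left]
  apply tsum_congr
  intro n
  beta_reduce
  rw [coef_sh, if_pos (by omega)]
  have : ((n : ℤ) - (-1)).toNat = n + 1 := by omega
  rw [this, pow_succ]; ring

lemma ev_rot (t : ℝ) (x : S.Xs) {z : ℂ} (hz : z ∈ Metric.ball (0:ℂ) 1) :
    S.ev (S.A (Lt.rot t) x) z = S.ev x (Complex.exp (Complex.I * t) * z) := by
  have hz2 : Complex.exp (Complex.I * t) * z ∈ Metric.ball (0:ℂ) 1 := by
    rw [mem_ball_zero_iff] at hz ⊢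
    rw [norm_mul, expI_norm, one_mul]; exact hz
  rw [S.ev_apply _ hz, S.ev_apply _ hz2]
  unfold ps
  apply tsum_congr
  intro n
  beta_reduce
  rw [coef_rot, mul_pow, ← Complex.exp_nat_mul]
  have : Complex.I * (((n:ℤ) * t : ℝ) : ℂ) = n * (Complex.I * t) := by push_cast; ring
  rw [this]; ring

lemma rot_norm (t : ℝ) (x : S.Xs) : ‖S.A (Lt.rot t) x‖ = ‖x‖ := by
  have h1 : ∀ (t : ℝ) (x : S.Xs), ‖S.A (Lt.rot t) x‖ ≤ ‖x‖ := by
    intro t x
    have := S.A_norm_le (Lt.rot t) x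
    have e : (S.cst (Lt.rot t) : ℝ) = 1 := by
      show ((1:ℕ):ℝ) = 1
      norm_num
    rwa [e, one_mul] at this
  apply le_antisymm (h1 t x)
  have h2 : S.A (Lt.rot (-t)) (S.A (Lt.rot t) x) = x := by
    apply S.ext_coef'
    intro n
    rw [coef_rot, coef_rot, ← mul_assoc, ← Complex.exp_add]
    have : Complex.I * (((n:ℤ) * (-t) : ℝ) : ℂ) + Complex.I * (((n:ℤ) * t : ℝ) : ℂ) = 0 := by push_cast; ring
    rw [this, Complex.exp_zero, one_mul]
  calc ‖x‖ = ‖S.A (Lt.rot (-t)) (S.A (Lt.rot t) x)‖ := by rw [h2]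
    _ ≤ _ := h1 _ _

end Sys

end Pool.Agent.Helper145.Toep
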