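import Pool.Agent.Helper145.Toep8

set_option autoImplicit false

open Finset MeasureTheory AddCircle
open scoped ENNReal NNReal Topology

namespace Pool.Agent.Helper145.Toep

/-- moments of a function on the circle -/
noncomputable def mom (G : UnitAddCircle → ℂ) (j : ℤ) : ℂ := ∫ θ, fourier j θ * G θ ∂haarAddCircle

lemma fourierCoeff_eq_mom (G : UnitAddCircle → ℂ) (n : ℤ) : fourierCoeff G n = mom G (-n) := rfl

/-- trigonometric polynomials -/
noncomputable def tp (φ : ℤ →₀ ℂ) (θ : UnitAddCircle) : ℂ := φ.sum fun k v => v * fourier k θ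

/-- boundary values of polynomials -/
noncomputable def bdry (p : Polynomial ℂ) (θ : UnitAddCircle) : ℂ := p.eval (fourier 1 θ)

lemma integrable_cont {G : UnitAddCircle → ℂ} (hG : Continuous G) : Integrable G haarAddCircle :=
  hG.integrable_of_hasCompactSupport (HasCompactSupport.of_compactSpace G)

lemma fourier_cont (n : ℤ) : Continuous fun θ : UnitAddCircle => (fourier n θ : ℂ) := (fourier n).continuous

lemma tp_cont (φ : ℤ →₀ ℂ) : Continuous (tp φ) := by
  unfold tp Finsupp.sum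
  exact continuous_finsetSum _ (fun k _ => continuous_const.mul (fourier_cont k))

lemma bdry_cont (p : Polynomial ℂ) : Continuous (bdry p) :=
  p.continuous.comp (fourier_cont 1)

lemma fourier_norm_one (n : ℤ) (θ : UnitAddCircle) : ‖(fourier n θ : ℂ)‖ = 1 := by
  rw [fourier_apply]; exact Circle.norm_coe _

lemma tp_norm {φ : ℤ →₀ ℂ} (hφ : ok φ) (θ : UnitAddCircle) : ‖tp φ θ‖ ≤ 1 := by
  have h := hφ (fun k => fourier k θ) (fun n => (fourier_norm_one n θ).le) 0
  have e : corr φ (fun k => (fourier k θ : ℂ)) 0 = tp φ θ := by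
    unfold corr tp
    simp only [zero_add]
  rwa [e] at h

lemma mom_one : mom (fun _ => 1) = del := by
  funext j
  have h := congrFun (fourierCoeff_fourier (T := 1) 0) (-j)
  have e : fourierCoeff (fourier 0 : C(UnitAddCircle, ℂ)) (-j) = mom (fun _ => 1) j := by
    rw [fourierCoeff_eq_mom, neg_neg]
    unfold mom
    congr 1
    funext θ
    rw [fourier_zero]
  rw [← e]
  refine h.trans ?_
  unfold del
  rw [Pi.single_apply]
  by_cases hj : j = 0
  · subst hj; simp
  · rw [if_neg hj, if_neg (by omega)]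

lemma mom_tp (φ : ℤ →₀ ℂ) {G : UnitAddCircle → ℂ} (hG : Continuous G) :
    mom (fun θ => tp φ θ * G θ) = corr φ (mom G) := by
  funext j
  unfold mom corr tp Finsupp.sum
  have e : (fun θ : UnitAddCircle => (fourier j θ : ℂ) * ((∑ k ∈ φ.support, φ k * fourier k θ) * G θ))
      = fun θ => ∑ k ∈ φ.support, φ k * (fourier (j + k) θ * G θ) := by
    funext θ
    rw [Finset.sum_mul, Finset.mul_sum]
    apply Finset.sum_congr rfl
    intro k _
    rw [fourier_add]; ring
  rw [e, integral_finsetSum]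
  · apply Finset.sum_congr rfl
    intro k _
    rw [integral_const_mul]
  · intro k _
    exact integrable_cont (continuous_const.mul ((fourier_cont _).mul hG))

lemma fourier_one_pow (n : ℕ) (θ : UnitAddCircle) : (fourier 1 θ : ℂ) ^ n = fourier (n:ℤ) θ := by
  induction n with
  | zero => simp
  | succ n ih =>
    rw [pow_succ, ih, ← fourier_add]
    congr 2

lemma mom_bdry {G : UnitAddCircle → ℂ} (hG : Continuous G) (p : Polynomial ℂ) (j : ℤ) :
    mom (fun θ => G θ * bdry p θ) j = evalW (fun m => mom G (m + j)) p := by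
  unfold evalW
  rw [Polynomial.lsum_apply, Polynomial.sum_def]
  unfold mom bdry
  have e : (fun θ : UnitAddCircle => (fourier j θ : ℂ) * (G θ * p.eval (fourier 1 θ : ℂ)))
      = fun θ => ∑ n ∈ p.support, p.coeff n * (fourier ((n:ℤ) + j) θ * G θ) := by
    funext θ
    rw [Polynomial.eval_eq_sum, Polynomial.sum_def, Finset.mul_sum, Finset.mul_sum]
    apply Finset.sum_congr rfl
    intro n _
    rw [fourier_one_pow, fourier_add]; ring
  rw [e, integral_finsetSum]
  · apply Finset.sum_congr rfl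
    intro k _
    rw [integral_const_mul]
    rfl
  · intro k _
    exact integrable_cont (continuous_const.mul ((fourier_cont _).mul hG))

/-- absolutely convergent combination -/
noncomputable def ser (c : ℕ → ℂ) (φ : ℕ → ℤ →₀ ℂ) (θ : UnitAddCircle) : ℂ := ∑' i, c i * tp (φ i) θ

lemma ser_term {c : ℕ → ℂ} {φ : ℕ → ℤ →₀ ℂ} (hφ : ∀ i, ok (φ i)) (i : ℕ) (θ : UnitAddCircle) :
    ‖c i * tp (φ i) θ‖ ≤ ‖c i‖ := by
  rw [norm_mul]
  exact mul_le_of_le_one_right (norm_nonneg _) (tp_norm (hφ i) θ)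

lemma ser_cont {c : ℕ → ℂ} {φ : ℕ → ℤ →₀ ℂ} (hφ : ∀ i, ok (φ i)) (hc : Summable fun i => ‖c i‖) :
    Continuous (ser c φ) :=
  continuous_tsum (fun i => continuous_const.mul (tp_cont _)) hc (ser_term hφ)

lemma ser_norm {c : ℕ → ℂ} {φ : ℕ → ℤ →₀ ℂ} (hφ : ∀ i, ok (φ i)) (hc : Summable fun i => ‖c i‖)
    (θ : UnitAddCircle) : ‖ser c φ θ‖ ≤ ∑' i, ‖c i‖ :=
  tsum_of_norm_bounded hc.hasSum (fun i => ser_term hφ i θ)

lemma ser_memLp {c : ℕ → ℂ} {φ : ℕ → ℤ →₀ ℂ} (hφ : ∀ i, ok (φ i)) (hc : Summable fun i => ‖c i‖) :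
    MemLp (ser c φ) ⊤ haarAddCircle :=
  memLp_top_of_bound (ser_cont hφ hc).aestronglyMeasurable _ (Filter.Eventually.of_forall (ser_norm hφ hc))

lemma mom_ser {c : ℕ → ℂ} {φ : ℕ → ℤ →₀ ℂ} (hφ : ∀ i, ok (φ i)) (hc : Summable fun i => ‖c i‖)
    {G : UnitAddCircle → ℂ} (hG : Continuous G) (j : ℤ) :
    HasSum (fun i => c i * mom (fun θ => tp (φ i) θ * G θ) j) (mom (fun θ => ser c φ θ * G θ) j) := by
  obtain ⟨C, hC⟩ : ∃ C, ∀ θ, ‖G θ‖ ≤ C := by
    obtain ⟨C, hC⟩ := (isCompact_range hG).isBounded.exists_norm_le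
    exact ⟨C, fun θ => hC _ ⟨θ, rfl⟩⟩
  have hC0 : 0 ≤ C := (norm_nonneg _).trans (hC 0)
  have hFc : ∀ i, Continuous fun θ : UnitAddCircle => (fourier j θ : ℂ) * (c i * tp (φ i) θ * G θ) := fun i =>
    (fourier_cont j).mul ((continuous_const.mul (tp_cont _)).mul hG)
  have hFn : ∀ i θ, ‖(fourier j θ : ℂ) * (c i * tp (φ i) θ * G θ)‖ ≤ ‖c i‖ * C := by
    intro i θ
    rw [norm_mul, fourier_norm_one, one_mul, norm_mul]
    exact mul_le_mul (ser_term hφ i θ) (hC θ) (norm_nonneg _) (norm_nonneg _)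
  have h := hasSum_integral_of_summable_integral_norm (μ := haarAddCircle)
    (F := fun (i : ℕ) (θ : UnitAddCircle) => (fourier j θ : ℂ) * (c i * tp (φ i) θ * G θ))
    (fun i => integrable_cont (hFc i)) (by
      apply Summable.of_nonneg_of_le (fun i => integral_nonneg (fun θ => norm_nonneg _)) _ (hc.mul_right C)
      intro i
      calc ∫ θ, ‖(fourier j θ : ℂ) * (c i * tp (φ i) θ * G θ)‖ ∂haarAddCircle
          ≤ ∫ _θ : UnitAddCircle, ‖c i‖ * C ∂haarAddCircle := by
            apply integral_mono (integrable_cont (hFc i)).norm (integrable_const _)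
            intro θ
            exact hFn i θ
        _ = ‖c i‖ * C := by
            rw [integral_const]; simp)
  have e1 : (fun i => ∫ θ, (fourier j θ : ℂ) * (c i * tp (φ i) θ * G θ) ∂haarAddCircle)
      = fun i => c i * mom (fun θ => tp (φ i) θ * G θ) j := by
    funext i
    unfold mom
    rw [← integral_const_mul]
    congr 1
    funext θ
    ring
  have e2 : ∫ θ, (∑' i, (fourier j θ : ℂ) * (c i * tp (φ i) θ * G θ)) ∂haarAddCircle
      = mom (fun θ => ser c φ θ * G θ) j := by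
    unfold mom ser
    congr 1
    funext θ
    rw [tsum_mul_left, tsum_mul_right]
  rw [← e2, ← e1]
  exact h

lemma evalW_congr {r r' : ℤ → ℂ} (h : ∀ n : ℕ, r n = r' n) (p : Polynomial ℂ) : evalW r p = evalW r' p := by
  have : evalW r = evalW r' := by
    ext n
    simp only [LinearMap.comp_apply, evalW_monomial, one_mul]
    exact h n
  rw [this]

lemma sum_ops {X : Type} [NormedAddCommGroup X] [NormedSpace ℂ X] [CompleteSpace X] (A : ℕ → X →L[ℂ] X)
    (c : ℕ → ℂ) (K : ℕ → ℝ) (hA : ∀ i, ‖A i‖ ≤ K i) (hc : Summable fun i => ‖c i‖ * K i) :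
    ∃ T : X →L[ℂ] X, ∀ x, HasSum (fun i => c i • A i x) (T x) := by
  have hs : Summable fun i => c i • A i := by
    apply Summable.of_norm_bounded hc
    intro i
    rw [norm_smul]
    exact mul_le_mul_of_nonneg_left (hA i) (norm_nonneg _)
  obtain ⟨T, hT⟩ := hs
  refine ⟨T, fun x => ?_⟩
  exact hT.mapL (ContinuousLinearMap.apply ℂ X x)

namespace Sys

variable (S : Sys)

lemma F_sym {φ : ℤ →₀ ℂ} {l : Lt} (hl : S.op l = Op.sym φ) (n : ℕ) (p : Polynomial ℂ) :
    S.F [l, Lt.sh (-(n:ℤ))] p = mom (fun θ => tp φ θ * bdry p θ) (-(n:ℤ)) := by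
  rw [mom_bdry (tp_cont φ)]
  have hmt : mom (tp φ) = corr φ del := by
    have := mom_tp φ (G := fun _ => 1) continuous_const
    rw [mom_one] at this
    simpa using this
  unfold F
  apply evalW_congr
  intro m
  rw [row_cons, hl, hmt]
  show (if (m:ℤ) < 0 then 0 else corr φ (S.row [Lt.sh (-(n:ℤ))]) m : ℂ) = _
  rw [if_neg (by omega)]
  unfold corr Finsupp.sum
  apply Finset.sum_congr rfl
  intro k _
  beta_reduce
  rw [row_sh]
  unfold del
  congr 1
  by_cases h : (m:ℤ) + k = n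
  · rw [if_pos h, if_pos (by omega)]
  · rw [if_neg h, if_neg (by omega)]

/-- the Toeplitz operator with an absolutely convergent symbol is bounded -/
theorem toep_bounded {c : ℕ → ℂ} {φ : ℕ → ℤ →₀ ℂ} {lt : ℕ → Lt} (hlt : ∀ i, S.op (lt i) = Op.sym (φ i))
    (hc1 : Summable fun i => ‖c i‖)
    (hc : Summable fun i => ‖c i‖ * S.cst (lt i)) :
    ∃ A : S.Xs →L[ℂ] S.Xs, ∀ (p : Polynomial ℂ) (n : ℕ), S.coef n (A (S.pol p))
      = fourierCoeff (fun θ => ser c φ θ * bdry p θ) (n:ℤ) := by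
  have hφ : ∀ i, ok (φ i) := by
    intro i
    have := S.okop (lt i)
    rw [hlt i] at this
    exact this
  obtain ⟨A, hA⟩ := sum_ops (fun i => S.A (lt i)) c (fun i => (S.cst (lt i) : ℝ)) (fun i => S.A_norm _) hc
  refine ⟨A, fun p n => ?_⟩
  have h1 : HasSum (fun i => S.coef n (c i • S.A (lt i) (S.pol p))) (S.coef n (A (S.pol p))) :=
    (hA (S.pol p)).mapL (S.coef n)
  have h2 := mom_ser hφ hc1 (bdry_cont p) (-(n:ℤ))
  rw [fourierCoeff_eq_mom]
  have e : (fun i => S.coef n (c i • S.A (lt i) (S.pol p)))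
      = fun i => c i * mom (fun θ => tp (φ i) θ * bdry p θ) (-(n:ℤ)) := by
    funext i
    rw [ContinuousLinearMap.map_smul, smul_eq_mul, coef_A_pol, S.F_sym (hlt i)]
  rw [← e] at h2
  exact h1.unique h2

end Sys

end Pool.Agent.Helper145.Toep
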